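import Pool.Agent.P.MP_22b27c_co.Iface

/-! Configurations inside and orthogonal to the coordinate part. -/

namespace Pool.Agent.P.MP_22b27c_co

open Module Finset
open scoped Classical Real Matrix

namespace TADA

lemma sub (hlp4 : S_LP4) {V : Submodule ℝ (Fin 12 → ℝ)} {X Y : Finset (Fin 12 → ℤ)} (h : Cfg V X)
    (hY : Y ⊆ X) {n : ℕ} (hn : n ≤ 8) (hd : InDim n Y rc) : Y.card ≤ L4 n :=
  hlp4 _ _ n Y rc hn
    ⟨hd, fun a ha => h.code.1.nrm a (hY ha), fun a ha b hb => h.code.1.le a (hY ha) b (hY hb)⟩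
    fun a ha b hb => h.code.2 a (hY ha) b (hY hb)

end TADA

theorem k_ad (hlp4 : S_LP4) : S_AD := by
  intro V X h hz
  refine ⟨?_, fun h1 => ?_⟩
  · obtain ⟨W, hW, hm⟩ := dim_coord (Zs V)
    refine TADA.sub hlp4 h (filter_subset _ _) hz ⟨W, hW, fun x hx => hm _ fun i hi => ?_⟩
    have e : x i = 0 := by
      by_contra k
      exact hi ((mem_filter.1 hx).2 (mem_supp.2 k))
    simp [rc, e]
  · obtain ⟨W, hW, hm⟩ := dim_rest V
    have hd := h.dim
    refine TADA.sub hlp4 h (filter_subset _ _) (by omega)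
      ⟨W, by omega, fun x hx => hm _ (h.mem x (mem_filter.1 hx).1) fun i hi => ?_⟩
    have e : x i = 0 := by
      by_contra k
      have t : supp x ∩ Zs V = ∅ := card_eq_zero.1 (mem_filter.1 hx).2
      have m : i ∈ supp x ∩ Zs V := mem_inter.2 ⟨mem_supp.2 k, hi⟩
      rw [t] at m
      exact notMem_empty _ m
    simp [rc, e]

end Pool.Agent.P.MP_22b27c_co
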