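import Pool.Agent.P.MP_22b27c_co.Iface

/-!
Two arithmetic lemmas.
-/

namespace Pool.Agent.P.MP_22b27c_co

open Module Finset Polynomial
open scoped Classical Real Matrix

theorem k_tern' : S_TERN := by
  intro p A₁ A₂ A₃ hp h1 h2
  by_cases h : p = 2
  · subst h
    refine ⟨A₃, 0, ?_⟩
    have : Odd A₁ := Int.not_even_iff_odd.1 fun he => h1 (even_iff_two_dvd.1 he)
    obtain ⟨k, rfl⟩ := this
    obtain ⟨l, hl⟩ := Int.even_mul_succ_self A₃
    exact ⟨k * A₃ ^ 2 + l, by push_cast; linear_combination hl⟩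
  · have := Fact.mk hp
    have a1 : (A₁ : ZMod p) ≠ 0 := fun e => h1 ((ZMod.intCast_zmod_eq_zero_iff_dvd _ _).1 e)
    have a2 : (A₂ : ZMod p) ≠ 0 := fun e => h2 ((ZMod.intCast_zmod_eq_zero_iff_dvd _ _).1 e)
    obtain ⟨a, b, hab⟩ := FiniteField.exists_root_sum_quadratic (R := ZMod p)
      (f := C (A₁ : ZMod p) * X ^ 2 + C (A₃ : ZMod p)) (g := C (A₂ : ZMod p) * X ^ 2)
      (by compute_degree!) (by compute_degree!)
      (by rw [ZMod.card]; exact (hp.eq_two_or_odd.resolve_left h))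
    obtain ⟨x, rfl⟩ := ZMod.intCast_surjective a
    obtain ⟨y, rfl⟩ := ZMod.intCast_surjective b
    refine ⟨x, y, (ZMod.intCast_zmod_eq_zero_iff_dvd _ _).1 ?_⟩
    simp only [eval_add, eval_mul, eval_C, eval_pow, eval_X] at hab
    push_cast
    linear_combination hab

theorem k_ar1' : S_AR1 := by
  intro D₁ D₂ a hD hdv hodd h4 hc
  obtain ⟨D₀, hD₀, h0⟩ : ∃ D₀ : ℕ, Odd D₀ ∧ (D₁ = D₀ ∨ D₁ = 2 * D₀) := by
    rcases Nat.even_or_odd' D₁ with ⟨k, hk | hk⟩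
    · refine ⟨k, ?_, Or.inr hk⟩
      rcases Nat.even_or_odd' k with ⟨l, hl | hl⟩
      · exact absurd ⟨l, by omega⟩ h4
      · exact ⟨l, hl⟩
    · exact ⟨D₁, ⟨k, hk⟩, Or.inl rfl⟩
  have hco : Nat.Coprime D₀ 4 := by
    have : Nat.Coprime D₀ 2 := (Nat.coprime_two_right).2 hD₀
    simpa using this.pow_right 2
  have hpos : 0 < D₀ := hD₀.pos
  obtain ⟨q, hq1, hq2⟩ := Nat.chineseRemainder hco ((-a) % D₀).toNat D₂
  have e1 : (D₀ : ℤ) ∣ a + q := by
    have h1 : (q : ℤ) ≡ (((-a) % D₀).toNat : ℕ) [ZMOD D₀] := Int.natCast_modEq_iff.2 hq1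
    rw [Int.toNat_of_nonneg (Int.emod_nonneg _ (by omega))] at h1
    have h2 : (q : ℤ) ≡ -a [ZMOD D₀] := h1.trans (Int.mod_modEq _ _)
    have := h2.symm.dvd
    rwa [sub_neg_eq_add, add_comm] at this
  obtain ⟨m, hm⟩ := hodd
  have hq3 : q % 4 = D₂ % 4 := hq2
  have e2 : (D₁ : ℤ) ∣ a + q := by
    rcases h0 with h | h
    · rwa [h]
    · rw [h]
      push_cast
      refine IsCoprime.mul_dvd ?_ ?_ e1
      · exact_mod_cast (Nat.isCoprime_iff_coprime.2 ((Nat.coprime_two_left).2 hD₀))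
      · have : ¬ (2 : ℤ) ∣ a := fun ha => by
          have := hc.isUnit_of_dvd' ha ⟨D₀, by rw [h]; push_cast; rfl⟩
          rw [Int.isUnit_iff] at this
          omega
        omega
  refine ⟨q, by omega, e2, ?_, ?_⟩
  · rw [← Nat.isCoprime_iff_coprime]
    obtain ⟨c, hc'⟩ := e2
    have h1 : IsCoprime (q : ℤ) (D₁ : ℤ) := by
      have : (q : ℤ) = -a + D₁ * c := by linarith
      rw [this]
      exact hc.neg_left.add_mul_left_left c
    exact h1.of_isCoprime_of_dvd_right (Int.natCast_dvd_natCast.2 hdv)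
  · rw [Nat.mul_mod, hq3]
    have : D₂ % 4 = 1 ∨ D₂ % 4 = 3 := by omega
    rcases this with h | h <;> rw [h]

end Pool.Agent.P.MP_22b27c_co
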