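import Pool.Agent.P.MP_22b27c_co.Iface

namespace Pool.Agent.P.MP_22b27c_co

open Module Finset
open scoped Classical Real Matrix

namespace TAR2A

theorem exists_prime (D : ℕ) (a e : ℤ) (hD : D % 4 = 1) (ha : IsCoprime a (D : ℤ))
    (he : e % 2 = 1) :
    ∃ q : ℕ, q.Prime ∧ (D : ℤ) ∣ a + q ∧ (q : ℤ) % 4 = e % 4 := by
  obtain ⟨t, ht⟩ : ∃ t : ℤ, (D : ℤ) = 4 * t + 1 := ⟨(D : ℤ) / 4, by omega⟩
  have h1 : IsCoprime (-a + (D : ℤ) * (e + a)) (D : ℤ) := ha.neg_left.add_mul_left_left _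
  have h2 : IsCoprime (-a + (D : ℤ) * (e + a)) (2 : ℤ) := by
    refine ⟨1, -(2 * t * (e + a) + e / 2), ?_⟩
    have h3 : e = 2 * (e / 2) + 1 := by omega
    rw [ht]
    linear_combination h3
  have h4 : IsCoprime (-a + (D : ℤ) * (e + a)) ((4 * D : ℕ) : ℤ) := by
    have : ((4 * D : ℕ) : ℤ) = 2 * 2 * (D : ℤ) := by push_cast; ring
    rw [this]
    exact (h2.mul_right h2).mul_right h1
  obtain ⟨q, -, hq, hm⟩ := Nat.forall_exists_prime_gt_and_zmodEq 0 (q := 4 * D) (by omega) h4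
  obtain ⟨s, hs⟩ := hm.symm.dvd
  push_cast at hs
  refine ⟨q, hq, ⟨4 * s + (e + a), by linear_combination hs⟩, ?_⟩
  have h5 : (q : ℤ) = e + 4 * (t * (e + a) + D * s) := by
    linear_combination hs + (e + a) * ht
  rw [h5, Int.add_mul_emod_self_left]

end TAR2A

theorem k_ar2 : S_AR2 := by
  intro D a hD ha
  have hg : (-a).gcd D = 1 := Int.isCoprime_iff_gcd_eq_one.1 ha.neg_left
  have key : ∃ q : ℕ, q.Prime ∧ (D : ℤ) ∣ a + q ∧ Odd q ∧ ZMod.χ₄ q = jacobiSym (-a) D := by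
    rcases jacobiSym.eq_one_or_neg_one hg with h | h
    · obtain ⟨q, h1, h2, h3⟩ := TAR2A.exists_prime D a 1 hD ha (by norm_num)
      exact ⟨q, h1, h2, Nat.odd_iff.2 (by omega), by
        rw [h]; exact ZMod.χ₄_nat_one_mod_four (by omega)⟩
    · obtain ⟨q, h1, h2, h3⟩ := TAR2A.exists_prime D a 3 hD ha (by norm_num)
      exact ⟨q, h1, h2, Nat.odd_iff.2 (by omega), by
        rw [h]; exact ZMod.χ₄_nat_three_mod_four (by omega)⟩
  obtain ⟨q, hq, hdvd, hodd, hchi⟩ := key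
  have : Fact q.Prime := ⟨hq⟩
  have h1 : jacobiSym (q : ℤ) D = jacobiSym (-a) D := by
    apply jacobiSym.mod_left'
    obtain ⟨s, hs⟩ := hdvd
    have : (q : ℤ) = -a + D * s := by linear_combination hs
    rw [this, Int.add_mul_emod_self_left]
  have h2 : jacobiSym (-(D : ℤ)) q = 1 := by
    rw [jacobiSym.neg _ hodd, jacobiSym.quadratic_reciprocity_one_mod_four hD hodd, h1, hchi]
    rcases jacobiSym.eq_one_or_neg_one hg with h | h <;> rw [h] <;> norm_num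
  obtain ⟨c, hc⟩ := ZMod.isSquare_of_jacobiSym_eq_one h2
  refine ⟨q, (c.val : ℤ), hq.pos, hdvd, ?_⟩
  rw [← ZMod.intCast_zmod_eq_zero_iff_dvd]
  push_cast at hc ⊢
  rw [ZMod.natCast_zmod_val]
  linear_combination -hc

end Pool.Agent.P.MP_22b27c_co
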