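import Pool.Agent.P.MP_22b27c_co.Iface

/-! A self-dual additive subgroup has a basis. -/

namespace Pool.Agent.P.MP_22b27c_co

open Module Finset
open scoped Classical Real Matrix

namespace TBASISA

theorem pos {n : ℕ} {u : Fin n → ℝ} (h : u ≠ 0) : 0 < u ⬝ᵥ u :=
  lt_of_le_of_ne (Finset.sum_nonneg fun i _ => mul_self_nonneg (u i))
    fun e => h (dotProduct_self_eq_zero.1 e.symm)

theorem le_norm {n : ℕ} {U : Lat n} (hU : SelfDual U) {u : Fin n → ℝ} (hu : u ∈ U) (h : u ≠ 0) :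
    1 / ((n : ℝ) + 1) ≤ ‖u‖ := by
  obtain ⟨k, hk⟩ := (hU u).1 hu u hu
  have h0 := pos h
  have h1 : (1 : ℝ) ≤ u ⬝ᵥ u := by
    rw [hk] at h0 ⊢
    exact_mod_cast (show 0 < k by exact_mod_cast h0)
  have h2 : u ⬝ᵥ u ≤ n * ‖u‖ ^ 2 := by
    have : ∀ i ∈ (univ : Finset (Fin n)), u i * u i ≤ ‖u‖ ^ 2 := fun i _ => by
      have := norm_le_pi_norm u i
      rw [Real.norm_eq_abs] at this
      nlinarith [abs_nonneg (u i), abs_mul_abs_self (u i)]
    simpa [dotProduct] using Finset.sum_le_card_nsmul _ _ _ this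
  have hn : (0 : ℝ) ≤ n := Nat.cast_nonneg n
  rw [div_le_iff₀ (by linarith)]
  by_contra c
  have h3 := norm_nonneg u
  have h4 : ‖u‖ * n < 1 := by nlinarith
  have h5 : ‖u‖ < 1 := by nlinarith
  nlinarith

theorem span_top {n : ℕ} {U : Lat n} (hU : SelfDual U) :
    Submodule.span ℝ (U : Set (Fin n → ℝ)) = ⊤ := by
  by_contra c
  obtain ⟨φ, h0, hφ⟩ := Submodule.exists_le_ker_of_lt_top _ (lt_top_iff_ne_top.2 c)
  set w : Fin n → ℝ := fun i => φ (Pi.single i 1) with hw
  have e : ∀ x, φ x = w ⬝ᵥ x := fun x => by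
    rw [LinearMap.pi_apply_eq_sum_univ φ x, dotProduct]
    refine Finset.sum_congr rfl fun i _ => ?_
    have : (fun j => if i = j then (1 : ℝ) else 0) = Pi.single i 1 := by
      ext j
      simp [Pi.single_apply, eq_comm]
    rw [this, smul_eq_mul, mul_comm]
  have hw0 : w ≠ 0 := fun k => h0 (LinearMap.ext fun x => by simp [e, k])
  have hm : w ∈ U := (hU w).2 fun x hx =>
    ⟨0, by rw [← e, Int.cast_zero]; exact hφ (Submodule.subset_span hx)⟩
  have : φ w = 0 := hφ (Submodule.subset_span hm)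
  rw [e] at this
  exact (pos hw0).ne' this

end TBASISA

open TBASISA in
theorem k_basis : S_BASIS := by
  intro n U hU
  let L : Submodule ℤ (Fin n → ℝ) := AddSubgroup.toIntSubmodule U
  have : DiscreteTopology L := by
    refine DiscreteTopology.of_forall_le_norm (r := 1 / ((n : ℝ) + 1)) (by positivity) ?_
    intro x hx
    exact le_norm hU x.2 fun e => hx (Subtype.ext e)
  have : IsZLattice ℝ L := ⟨span_top hU⟩
  let b := IsZLattice.basis L
  refine ⟨(Matrix.of fun j => (b j : Fin n → ℝ))ᵀ, ?_, fun x => ?_⟩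
  · rw [Matrix.det_transpose]
    refine ((Matrix.isUnit_iff_isUnit_det _).1
      (Matrix.linearIndependent_rows_iff_isUnit.1 ?_)).ne_zero
    have := (b.ofZLatticeBasis ℝ L).linearIndependent
    rw [show ⇑(b.ofZLatticeBasis ℝ L) = fun j => (b j : Fin n → ℝ) from
      funext (Basis.ofZLatticeBasis_apply ℝ L b)] at this
    exact this
  · have key : ∀ m : Fin n → ℤ, (Matrix.of fun j => (b j : Fin n → ℝ))ᵀ.mulVec (rc m) =
        ((∑ j, m j • b j : L) : Fin n → ℝ) := fun m => by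
      ext i
      simp [Matrix.mulVec, dotProduct, rc, Finset.sum_apply, mul_comm]
    constructor
    · intro hx
      refine ⟨fun j => b.repr ⟨x, hx⟩ j, ?_⟩
      rw [key, b.sum_repr]
    · rintro ⟨m, rfl⟩
      rw [key]
      exact (∑ j, m j • b j : L).2

end Pool.Agent.P.MP_22b27c_co
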