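import Pool.Agent.P.MP_22b27c_co.Iface

/-! The contact bound for a vector whose support misses the axes of `V`. -/

namespace Pool.Agent.P.MP_22b27c_co

open Module Finset
open scoped Classical Real Matrix

namespace TCAS0A

variable {V : Submodule ℝ (Fin 12 → ℝ)} {x : Fin 12 → ℤ}

lemma gg_le (h4 : (supp x).card = 4) : GG V x ≤ 8 + (Zs V).card := by
  have h1 := Finset.card_inter_add_card_sdiff (supp x)ᶜ (Zs V)
  have h2 : ((supp x)ᶜ ∩ Zs V).card ≤ (Zs V).card := card_le_card inter_subset_right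
  rw [card_compl, Fintype.card_fin, h4] at h1
  unfold GG
  omega

lemma bd_le (h4 : (supp x).card = 4) (p : Finset (Fin 12)) :
    bd V x p ≤ 8 + if rc (res p x) ∈ V then (Zs V).card else 0 := by
  have := gg_le (V := V) h4
  unfold bd
  split_ifs <;> omega

lemma exists_out (h4 : (supp x).card = 4) (h0 : tt V x = 0) :
    ∃ p ∈ powersetCard 2 (supp x), rc (res p x) ∉ V := by
  by_contra hn
  push Not at hn
  obtain ⟨a, ha, b, hb, c, hc, hab, hac, hbc⟩ := Finset.two_lt_card.1 (show 2 < (supp x).card by omega)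
  have k : ∀ i ∈ supp x, ∀ j ∈ supp x, i ≠ j → rc (res {i, j} x) ∈ V := fun i hi j hj hij =>
    hn _ (mem_powersetCard.2 ⟨by simp [insert_subset_iff, hi, hj], card_pair hij⟩)
  have e : (Pi.single a (2 * x a) : Fin 12 → ℤ) = res {a, b} x + res {a, c} x - res {b, c} x := by
    ext i
    simp only [res, Pi.single_apply, Pi.add_apply, Pi.sub_apply, mem_insert, mem_singleton]
    by_cases h1 : i = a
    · subst h1; simp [hab, hac]; ring
    · by_cases h2 : i = b
      · subst h2; simp [h1, hbc]
      · by_cases h3 : i = c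
        · subst h3; simp [h1, h2]
        · simp [h1, h2, h3]
  have hz : a ∈ Zs V := by
    refine mem_Zs_of_single (c := 2 * x a) (mul_ne_zero two_ne_zero (mem_supp.1 ha)) ?_
    rw [e, rc_sub, rc_add]
    exact V.sub_mem (V.add_mem (k a ha b hb hab) (k a ha c hc hac)) (k b hb c hc hbc)
  have : a ∈ supp x ∩ Zs V := mem_inter.2 ⟨ha, hz⟩
  rw [card_eq_zero.1 h0] at this
  exact notMem_empty _ this

lemma two_out (hx : rc x ∈ V) (h4 : (supp x).card = 4) (h0 : tt V x = 0) :
    2 ≤ ((powersetCard 2 (supp x)).filter fun p => ¬ rc (res p x) ∈ V).card := by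
  obtain ⟨p, hp, hV⟩ := exists_out h4 h0
  obtain ⟨h1, h2⟩ := mem_powersetCard.1 hp
  have h3 : (supp x \ p).card = 2 := by rw [card_sdiff_of_subset h1]; omega
  refine one_lt_card.2 ⟨p, mem_filter.2 ⟨hp, hV⟩, supp x \ p,
    mem_filter.2 ⟨mem_powersetCard.2 ⟨sdiff_subset, h3⟩, fun h => hV ?_⟩, fun h => ?_⟩
  · have e : res (supp x \ p)ᶜ x = res p x := by
      ext i
      by_cases hi : i ∈ p
      · simp [res, hi]
      · by_cases hs : x i = 0 <;> simp [res, hi, hs, mem_supp]
    exact e ▸ res_compl_mem hx h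
  · obtain ⟨i, hi⟩ := card_pos.1 (show 0 < p.card by omega)
    have := hi
    rw [h] at this
    exact (mem_sdiff.1 this).2 hi

end TCAS0A

open TCAS0A in
theorem k_cas0 : S_CAS0 := by
  intro V x hx _ h4 h0
  have h6 : (powersetCard 2 (supp x)).card = 6 := by rw [card_powersetCard, h4]; rfl
  have h1 := card_filter_add_card_filter_not (s := powersetCard 2 (supp x))
    fun p => rc (res p x) ∈ V
  have h2 := two_out hx h4 h0
  have h3 : ((powersetCard 2 (supp x)).filter fun p => rc (res p x) ∈ V).card ≤ 4 := by omega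
  refine (sum_le_sum fun p _ => bd_le h4 p).trans ?_
  rw [sum_add_distrib, sum_const, h6, ← sum_filter, sum_const, smul_eq_mul, smul_eq_mul]
  exact Nat.add_le_add le_rfl (Nat.mul_le_mul_right _ h3)

end Pool.Agent.P.MP_22b27c_co
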