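import Pool.Agent.P.MP_22b27c_co.Iface

/-! Contact numbers of vectors with one or two coordinates on axes of the space. -/

namespace Pool.Agent.P.MP_22b27c_co

open Module Finset
open scoped Classical Real Matrix

namespace TCAS1A

variable {V : Submodule ℝ (Fin 12 → ℝ)} {x : Fin 12 → ℤ} {p q : Finset (Fin 12)}

theorem ne_one (hq : q ⊆ supp x) (h : rc (res q x) ∈ V) : (q \ Zs V).card ≠ 1 := by
  intro e
  obtain ⟨a, ha⟩ := card_eq_one.1 e
  have h1 : a ∈ q \ Zs V := ha ▸ mem_singleton_self a
  have h2 : res q x - res (q ∩ Zs V) x = Pi.single a (x a) := by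
    ext i
    have h3 : i ∈ q \ Zs V ↔ i = a := by rw [ha, mem_singleton]
    rw [mem_sdiff] at h3
    by_cases c : i = a
    · subst c
      simp [res, h3.2 rfl]
    · have := mt h3.1 c
      by_cases c1 : i ∈ q <;> by_cases c2 : i ∈ Zs V <;> simp_all [res]
  refine (mem_sdiff.1 h1).2 (mem_Zs_of_single (mem_supp.1 (hq (mem_sdiff.1 h1).1)) ?_)
  rw [← h2, rc_sub]
  exact V.sub_mem h (res_mem inter_subset_right x)

theorem res_supp (x : Fin 12 → ℤ) : res (supp x) x = x := by
  ext i
  by_cases c : x i = 0 <;> simp [res, mem_supp, c]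

theorem res_diff (p : Finset (Fin 12)) (x : Fin 12 → ℤ) : res (supp x \ p) x = res pᶜ x := by
  ext i
  by_cases c : x i = 0 <;> simp [res, mem_supp, c]

end TCAS1A

open TCAS1A in
theorem k_cas1 : S_CAS1 := by
  intro V x hx _ h4
  have e1 : (supp x \ Zs V).card + tt V x = 4 := h4 ▸ card_sdiff_add_card_inter _ _
  refine ⟨fun e => ne_one (V := V) (subset_refl (supp x)) (by rwa [res_supp]) (by omega),
    fun ht hz => ?_⟩
  have h6 : (powersetCard 2 (supp x)).card = 6 := by rw [card_powersetCard, h4]; rfl
  rcases ht with ht | ht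
  · have : ∀ p ∈ powersetCard 2 (supp x), bd V x p ≤ 8 := by
      intro p hp
      obtain ⟨hs, hc⟩ := mem_powersetCard.1 hp
      have hn : rc (res p x) ∉ V := by
        intro hm
        have a1 := ne_one hs hm
        have a2 := ne_one (V := V) (sdiff_subset (s := supp x) (t := p))
          (by rw [res_diff]; exact res_compl_mem hx hm)
        have a3 := card_sdiff_add_card_inter p (Zs V)
        have a4 : (p ∩ Zs V).card ≤ tt V x := card_le_card (inter_subset_inter_right hs)
        have a5 : ((supp x \ p) \ Zs V).card + (p \ Zs V).card = (supp x \ Zs V).card := by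
          rw [← card_union_of_disjoint (disjoint_sdiff_self_left.mono sdiff_subset sdiff_subset),
            ← union_sdiff_distrib, sdiff_union_of_subset hs]
        omega
      rw [bd, if_neg hn]
      split_ifs <;> omega
    have := sum_le_sum this
    rw [sum_const, h6, smul_eq_mul] at this
    omega
  · have hG : GG V x ≤ 10 := by
      have a1 := card_sdiff_add_card_inter (supp x)ᶜ (Zs V)
      have a2 : ((supp x)ᶜ).card = 8 := by rw [card_compl, h4]; rfl
      have a3 : ((supp x)ᶜ ∩ Zs V).card + tt V x = (Zs V).card := by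
        rw [tt, inter_comm (supp x), inter_comm, ← card_sdiff_add_card_inter (Zs V) (supp x),
          sdiff_eq_inter_compl]
      rw [GG]
      omega
    have : ∀ p ∈ powersetCard 2 (supp x), bd V x p ≤
        7 + (if p = supp x ∩ Zs V then 3 else 0) + if p = supp x \ Zs V then 3 else 0 := by
      intro p hp
      obtain ⟨hs, hc⟩ := mem_powersetCard.1 hp
      have a0 : bd V x p ≤ 10 := by
        rw [bd]
        split_ifs <;> omega
      have a3 := card_sdiff_add_card_inter p (Zs V)
      by_cases c0 : (p \ Zs V).card = 0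
      · have : p = supp x ∩ Zs V := eq_of_subset_of_card_le
          (subset_inter hs (sdiff_eq_empty_iff_subset.1 (card_eq_zero.1 c0)))
          (by rw [hc]; exact ht.le)
        rw [if_pos this]
        omega
      by_cases c2 : (p ∩ Zs V).card = 0
      · have : p = supp x \ Zs V := eq_of_subset_of_card_le
          (subset_sdiff.2 ⟨hs, disjoint_iff_inter_eq_empty.2 (card_eq_zero.1 c2)⟩) (by omega)
        rw [if_pos this]
        omega
      rw [bd, if_neg fun hm => ne_one hs hm (by omega), if_pos (card_pos.1 (by omega))]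
      omega
    have := sum_le_sum this
    rw [sum_add_distrib, sum_add_distrib, sum_ite_eq', sum_ite_eq', sum_const, h6,
      smul_eq_mul] at this
    split_ifs at this <;> omega

end Pool.Agent.P.MP_22b27c_co
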