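import Pool.Agent.P.MP_22b27c_co.Iface

/-! Counting in the second case. -/

namespace Pool.Agent.P.MP_22b27c_co

open Module Finset
open scoped Classical Real Matrix

theorem k_cii (hlp4 : S_LP4) (hlp2 : S_LP2) (hfib1 : S_FIB1) (hfib : S_FIB) : S_CII := by
  intro V P X hP hC
  have hk : finrank ℝ (V ⊓ LinearMap.ker P : Submodule ℝ (Fin 12 → ℝ)) ≤ 8 :=
    (Submodule.finrank_mono inf_le_right).trans hP.kr
  have hm : finrank ℝ (V.map P) ≤ 4 := (Submodule.finrank_mono LinearMap.map_le_range).trans hP.rk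
  have hs := (finrank_inf_ker_add_map V P).trans_le hC.dim
  have h5 := hfib V P X hP hC
  have sub : ∀ (n : ℕ) (q : (Fin 12 → ℝ) → Prop) (W : Submodule ℝ (Fin 12 → ℝ)), n ≤ 8 →
      finrank ℝ W ≤ n → (∀ x ∈ X, q x → x ∈ W) → (X.filter q).card ≤ L4 n :=
    fun n q W h1 h2 h3 => hlp4 _ _ n _ id h1
      ⟨⟨W, h2, fun x hx => h3 x (mem_filter.1 hx).1 (mem_filter.1 hx).2⟩,
        fun x hx => hC.nrm x (mem_filter.1 hx).1,
        fun x hx y hy => hC.le x (mem_filter.1 hx).1 y (mem_filter.1 hy).1⟩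
      fun x hx y hy => hC.int x (mem_filter.1 hx).1 y (mem_filter.1 hy).1
  have h0 := sub (min 8 (9 - finrank ℝ (V.map P))) (fun x => P x ⬝ᵥ P x = 0)
    (V ⊓ LinearMap.ker P) (by omega) (by omega) fun x hx h => ⟨hC.mem x hx, eq_zero_of_dot_self h⟩
  have h4 := sub (finrank ℝ (V.map P)) (fun x => P x ⬝ᵥ P x = 4) (V.map P) (by omega) le_rfl
    fun x hx h => by
      have e := hP.split x x
      rw [hC.nrm x hx, h] at e
      rw [sub_eq_zero.1 (eq_zero_of_dot_self (x := x - P x) (by linarith))]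
      exact Submodule.mem_map_of_mem (hC.mem x hx)
  have im : ∀ β ∈ (X.filter fun x => P x ⬝ᵥ P x = 2).image P,
      ∃ x ∈ X, P x = β ∧ β ⬝ᵥ β = 2 := fun β hβ => by
    obtain ⟨x, hx, rfl⟩ := mem_image.1 hβ
    exact ⟨x, (mem_filter.1 hx).1, rfl, (mem_filter.1 hx).2⟩
  have hi : IntIP ((X.filter fun x => P x ⬝ᵥ P x = 2).image P) id := fun β hβ γ hγ => by
    obtain ⟨x, hx, rfl, -⟩ := im β hβ
    obtain ⟨y, hy, rfl, -⟩ := im γ hγ
    exact hC.intP x hx y hy
  have h6 := hlp2 _ _ (finrank ℝ (V.map P)) _ id (by omega) ⟨⟨V.map P, le_rfl, fun β hβ => by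
      obtain ⟨x, hx, rfl, -⟩ := im β hβ
      exact Submodule.mem_map_of_mem (hC.mem x hx)⟩, fun β hβ => (im β hβ).choose_spec.2.2,
    fun β hβ γ hγ ne => by
      have := (hi β hβ γ hγ).le_sub_one (k := 2) (by
        exact_mod_cast dot_lt (im β hβ).choose_spec.2.2 (im γ hγ).choose_spec.2.2 ne)
      push_cast at this
      linarith⟩ hi
  have h2 := card_le_mul_card_image (f := P) (X.filter fun x => P x ⬝ᵥ P x = 2) 16 fun β hβ =>
    (card_le_card (filter_subset_filter _ (filter_subset _ _))).trans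
      (hfib1 V P X β hP hC (im β hβ).choose_spec.2.2).1
  have cov : X.card ≤ (X.filter fun x => P x ⬝ᵥ P x = 0).card
      + (X.filter fun x => P x ⬝ᵥ P x = 2).card + (X.filter fun x => P x ⬝ᵥ P x = 4).card := by
    refine le_trans (card_le_card fun x hx => ?_)
      ((card_union_le _ _).trans (Nat.add_le_add_right (card_union_le _ _) _))
    simpa [hx, or_assoc] using hC.val x hx
  generalize finrank ℝ (V.map P) = m at *
  interval_cases m <;> simp only [L4, Nat.reduceSub, Nat.reduceLeDiff, min_def, reduceIte] at h0 h4 h6 <;>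
    omega

end Pool.Agent.P.MP_22b27c_co
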