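import Pool.Agent.P.MP_22b27c_co.Iface

namespace Pool.Agent.P.MP_22b27c_co

open Module Finset
open scoped Classical Real Matrix

theorem k_cov (hkind : S_KIND) (hpout : S_POUT) (hpin : S_PIN) : S_COV := by
  intro V X x hc hx ht h4
  let Y : Finset (Fin 12) → Finset (Fin 12 → ℤ) := fun p =>
    if rc (res p x) ∈ V then
      X.filter fun y => (∀ i ∈ p, y i = x i) ∧ ∀ i ∈ supp x \ p, y i = 0
    else (X.filter fun y => ∀ i ∈ p, y i = x i).erase x
  have hY : ∀ p ∈ powersetCard 2 (supp x), (Y p).card ≤ bd V x p := by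
    intro p hp
    obtain ⟨hp1, hp2⟩ := Finset.mem_powersetCard.1 hp
    by_cases h : rc (res p x) ∈ V
    · simp only [Y, bd, if_pos h]
      exact hpin V X x p hc ht hp1 hp2 h
    · simp only [Y, bd, if_neg h]
      obtain ⟨h1, h2⟩ := hpout V X x p hc ht hp1 hp2 h
      have hm : x ∈ X.filter fun y => ∀ i ∈ p, y i = x i :=
        Finset.mem_filter.2 ⟨hx, fun _ _ => rfl⟩
      rw [Finset.card_erase_of_mem hm]
      split_ifs with h3
      · have := h2 h3
        omega
      · omega
  have hsub : (X.filter fun y => x ⬝ᵥ y = 2) ⊆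
      (supp x ∩ Zs V).image (fun i => (Pi.single i (2 * x i) : Fin 12 → ℤ)) ∪
        (powersetCard 2 (supp x)).biUnion Y := by
    intro y hy
    obtain ⟨hy1, hy2⟩ := Finset.mem_filter.1 hy
    rcases hkind V x y (hc.mem x hx) (hc.mem y hy1) ht (hc.nrm x hx) (hc.nrm y hy1) hy2 h4 with
      ⟨i, hi, h⟩ | ⟨p, hp, h1, h2⟩
    · exact Finset.mem_union_left _ (Finset.mem_image.2 ⟨i, hi, h.symm⟩)
    · refine Finset.mem_union_right _ (Finset.mem_biUnion.2 ⟨p, hp, ?_⟩)
      by_cases h : rc (res p x) ∈ V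
      · simp only [Y, if_pos h]
        exact Finset.mem_filter.2 ⟨hy1, h1, h2.resolve_left (fun h' => h' h)⟩
      · simp only [Y, if_neg h]
        refine Finset.mem_erase.2 ⟨?_, Finset.mem_filter.2 ⟨hy1, h1⟩⟩
        rintro rfl
        have := hc.nrm y hx
        omega
  calc cont X x ≤ _ := Finset.card_le_card hsub
    _ ≤ _ := Finset.card_union_le _ _
    _ ≤ _ := Nat.add_le_add Finset.card_image_le
      (Finset.card_biUnion_le.trans (Finset.sum_le_sum hY))

end Pool.Agent.P.MP_22b27c_co
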