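import Pool.Agent.P.MP_22b27c_co.Iface

/-! Vectors with two units of norm on the coordinate axes inside the subspace. -/

namespace Pool.Agent.P.MP_22b27c_co

open Module Finset
open scoped Classical Real Matrix

theorem k_db (hlp2 : S_LP2) (hrank : S_RANK) : S_DB := by
  intro V X h hz
  obtain ⟨W, hW, hW'⟩ := dim_rest V
  obtain ⟨W₀, h0, h0'⟩ := dim_coord (Zs V)
  have hd := h.dim
  set Y := X.filter fun x => res (Zs V) x ⬝ᵥ res (Zs V) x = 2 with hY
  have nr : ∀ x ∈ Y, res (Zs V)ᶜ x ⬝ᵥ res (Zs V)ᶜ x = 2 := fun x hx => by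
    obtain ⟨a1, a2⟩ := Finset.mem_filter.1 hx
    have := dot_split (Zs V) x x
    rw [h.nrm x a1, a2] at this
    omega
  have im : (Y.image (res (Zs V)ᶜ)).card ≤ L4 (9 - (Zs V).card) := by
    have nb : ∀ b ∈ Y.image (res (Zs V)ᶜ), rc b ⬝ᵥ rc b = 2 := fun b hb => by
      obtain ⟨x, hx, rfl⟩ := Finset.mem_image.1 hb
      rw [rc_dot, nr x hx]
      norm_num
    refine hlp2 _ _ _ _ rc (by omega) ⟨⟨W, by omega, fun b hb => ?_⟩, nb, fun b hb c hc ne => ?_⟩
      fun b _ c _ => by rw [rc_dot]; exact IsZ.intCast _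
    · obtain ⟨x, hx, rfl⟩ := Finset.mem_image.1 hb
      exact hW' _ (res_compl_mem (h.mem x (Finset.mem_filter.1 hx).1) (res_mem subset_rfl x))
        fun i hi => by simp [rc, res, hi]
    · have k := dot_lt (nb b hb) (nb c hc) fun e => ne (by
        funext i
        have := congrFun e i
        simpa [rc] using this)
      rw [rc_dot] at k ⊢
      have k1 : b ⬝ᵥ c < 2 := by exact_mod_cast k
      have k2 : b ⬝ᵥ c ≤ 1 := by omega
      exact_mod_cast k2
  refine (Finset.card_le_mul_card_image (f := res (Zs V)ᶜ) Y (2 * (Zs V).card) fun b _ => ?_).trans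
    (Nat.mul_le_mul_left _ im)
  refine hrank _ _ _ 2 _ (fun x => rc (res (Zs V) x)) two_pos
    ⟨⟨W₀, h0, fun x _ => h0' _ fun i hi => by simp [rc, res, hi]⟩, fun x hx => ?_,
      fun x hx y hy ne => ?_⟩
  · rw [rc_dot, (Finset.mem_filter.1 (Finset.mem_filter.1 hx).1).2]
    norm_num
  · obtain ⟨x1, x2⟩ := Finset.mem_filter.1 hx
    obtain ⟨y1, y2⟩ := Finset.mem_filter.1 hy
    have e1 := dot_split (Zs V) x y
    have e2 := nr x x1
    have e3 := h.le x (Finset.mem_filter.1 x1).1 y (Finset.mem_filter.1 y1).1 ne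
    rw [x2] at e1 e2
    rw [y2, e2] at e1
    rw [rc_dot]
    have k : res (Zs V) x ⬝ᵥ res (Zs V) y ≤ 0 := by omega
    exact_mod_cast k

end Pool.Agent.P.MP_22b27c_co
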