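import Pool.Agent.P.MP_22b27c_co.Iface

/-! Vectors of norm four with exactly one unit of norm on the distinguished coordinates. -/

namespace Pool.Agent.P.MP_22b27c_co

open Module Finset
open scoped Classical Real Matrix

theorem k_dc (hlp3 : S_LP3) (hdim1 : S_DIM1) : S_DC := by
  intro V X h
  set Z := Zs V with hZ
  set Y := X.filter fun x => res Z x ⬝ᵥ res Z x = 1 with hY
  have n3 : ∀ x ∈ Y, res Zᶜ x ⬝ᵥ res Zᶜ x = 3 := fun x hx => by
    obtain ⟨a1, a2⟩ := mem_filter.1 hx
    have := dot_split Z x x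
    rw [h.nrm x a1, a2] at this
    omega
  have fib : Y.card ≤ 2 * (Y.image (res Zᶜ)).card := by
    refine Finset.card_le_mul_card_image Y 2 fun b _ => ?_
    refine card_le_two _ (fun x => rc (res Z x)) one_pos (fun x hx => ?_) fun x hx y hy hxy => ?_
    · rw [rc_dot, (mem_filter.1 (mem_filter.1 hx).1).2, Int.cast_one]
    · obtain ⟨a1, a2⟩ := mem_filter.1 hx
      obtain ⟨b1, b2⟩ := mem_filter.1 hy
      have c1 := dot_split Z x y
      have c2 := h.le x (mem_filter.1 a1).1 y (mem_filter.1 b1).1 hxy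
      have c3 := n3 x a1
      rw [a2] at c3
      rw [a2, b2, c3] at c1
      rw [rc_dot]
      exact_mod_cast (show res Z x ⬝ᵥ res Z y ≤ -1 by omega)
  obtain ⟨W, w1, w2⟩ := dim_rest V
  have hd := h.dim
  rw [← hZ] at w1
  have r3 : ∀ a ∈ Y.image (res Zᶜ), rc a ⬝ᵥ rc a = 3 := fun a ha => by
    obtain ⟨x, hx, rfl⟩ := mem_image.1 ha
    rw [rc_dot, n3 x hx]
    norm_num
  have code : ∀ n, 9 ≤ n + Z.card → Code n 3 2 (Y.image (res Zᶜ)) rc := fun n hn => by
    refine ⟨⟨W, by omega, fun a ha => ?_⟩, r3, fun a ha b hb hab => ?_⟩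
    · obtain ⟨x, hx, rfl⟩ := mem_image.1 ha
      exact w2 _ (res_compl_mem (h.mem x (mem_filter.1 hx).1) (res_mem subset_rfl x))
        fun i hi => by simp [rc, res, hZ, hi]
    · have := dot_lt (r3 a ha) (r3 b hb) fun e => hab (funext fun i => by
        simpa [rc] using congrFun e i)
      rw [rc_dot] at this ⊢
      have k : a ⬝ᵥ b < 3 := by exact_mod_cast this
      exact_mod_cast (show a ⬝ᵥ b ≤ 2 by omega)
  refine ⟨fun h6 => ?_, fun h8 => ?_⟩
  · have := (hlp3 _ _ (Y.image (res Zᶜ)) rc fun a _ b _ => by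
      rw [rc_dot]; exact IsZ.intCast _).1 (code 3 (by omega))
    omega
  · have := hdim1 _ _ 3 2 _ rc (by norm_num) (by norm_num) (code 1 (by omega))
    omega

end Pool.Agent.P.MP_22b27c_co
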