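import Pool.Agent.P.MP_22b27c_co.Iface

/-! The decomposition by the norm on the distinguished coordinates. -/

namespace Pool.Agent.P.MP_22b27c_co

open Module Finset
open scoped Classical Real Matrix

namespace TDECA

lemma cases4 {V : Submodule ℝ (Fin 12 → ℝ)} {x : Fin 12 → ℤ} (hx : rc x ∈ V) (hn : x ⬝ᵥ x = 4) :
    supp x ⊆ Zs V ∨ tt V x = 0 ∨ res (Zs V) x ⬝ᵥ res (Zs V) x = 2 ∨
      res (Zs V) x ⬝ᵥ res (Zs V) x = 1 := by
  have hs := dot_split (Zs V) x x
  have h1 := zdot_self_nonneg (res (Zs V) x)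
  have h2 := zdot_self_nonneg (res (Zs V)ᶜ x)
  by_cases a4 : res (Zs V)ᶜ x ⬝ᵥ res (Zs V)ᶜ x = 0
  · left
    intro i hi
    by_contra hc
    have := congrFun (dotProduct_self_eq_zero.1 a4) i
    rw [res, if_pos (mem_compl.2 hc)] at this
    exact mem_supp.1 hi this
  by_cases a0 : res (Zs V) x ⬝ᵥ res (Zs V) x = 0
  · right; left
    rw [tt, card_eq_zero, eq_empty_iff_forall_notMem]
    intro i hi
    have := congrFun (dotProduct_self_eq_zero.1 a0) i
    rw [res, if_pos (mem_inter.1 hi).2] at this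
    exact mem_supp.1 (mem_inter.1 hi).1 this
  have a3 : res (Zs V)ᶜ x ⬝ᵥ res (Zs V)ᶜ x ≠ 1 := fun h => by
    have hm := res_compl_mem hx (res_mem (subset_refl (Zs V)) x)
    obtain ⟨i, hi⟩ := shape1 h
    have hz : i ∈ Zs V := by
      rcases hi with hi | hi <;> rw [hi] at hm <;> exact mem_Zs_of_single (by norm_num) hm
    have h0 : res (Zs V)ᶜ x i = 0 := by rw [res, if_neg (notMem_compl.2 hz)]
    rcases hi with hi | hi <;> rw [hi] at h0 <;> simp at h0
  right; right
  omega

end TDECA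

open TDECA in
theorem k_dec (had : S_AD) (hdb : S_DB) (hdc : S_DC) : S_DEC := by
  intro V X h h6 h8
  obtain ⟨a1, a2⟩ := had V X h h8
  have a2 := a2 (by omega)
  have a3 := hdb V X h (by omega)
  obtain ⟨a4, a5⟩ := hdc V X h
  have a4 := a4 h6
  have hc : X.card ≤ (X.filter fun x => supp x ⊆ Zs V).card + (X.filter fun x => tt V x = 0).card
      + (X.filter fun x => res (Zs V) x ⬝ᵥ res (Zs V) x = 2).card
      + (X.filter fun x => res (Zs V) x ⬝ᵥ res (Zs V) x = 1).card := by
    refine le_trans (card_le_card ?_) ((card_union_le _ _).trans (Nat.add_le_add_right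
      ((card_union_le _ _).trans (Nat.add_le_add_right (card_union_le _ _) _)) _))
    intro x hx
    simp only [mem_union, mem_filter, hx, true_and]
    have := cases4 (h.mem x hx) (h.nrm x hx)
    tauto
  obtain e | e | e : (Zs V).card = 6 ∨ (Zs V).card = 7 ∨ (Zs V).card = 8 := by omega
  all_goals
    rw [e] at a1 a2 a3 a5
    norm_num [L4] at a1 a2 a3 a5
    omega

end Pool.Agent.P.MP_22b27c_co
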