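import Pool.Agent.P.MP_22b27c_co.Iface

/-! The discriminant group of a maximal integral lattice. -/

namespace Pool.Agent.P.MP_22b27c_co

open Module Finset
open scoped Classical Real Matrix

namespace TDISCA

variable {n : ℕ} {M : Lat n}

/-- Vectors of `P` with integral product against `y`. -/
def cut (P : Lat n) (y : Fin n → ℝ) : Lat n where
  carrier := {w | w ∈ P ∧ IsZ (w ⬝ᵥ y)}
  add_mem' ha hb := ⟨P.add_mem ha.1 hb.1, by rw [add_dotProduct]; exact ha.2.add hb.2⟩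
  zero_mem' := ⟨P.zero_mem, by rw [zero_dotProduct]; exact IsZ.zero⟩
  neg_mem' ha := ⟨P.neg_mem ha.1, by rw [neg_dotProduct]; exact ha.2.neg⟩

lemma le_cut {P : Lat n} {y : Fin n → ℝ} (h : M ≤ P) (hy : InDual M y) : M ≤ cut P y :=
  fun x hx => ⟨h hx, by rw [dotProduct_comm]; exact hy x hx⟩

lemma dual_smul {y : Fin n → ℝ} (hy : InDual M y) (k : ℤ) : InDual M ((k : ℝ) • y) :=
  zsmul_mem' (M := dualLat M) hy k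

lemma isZ_smul {x y : Fin n → ℝ} (h : IsZ (x ⬝ᵥ y)) (k l : ℕ) :
    IsZ ((((k : ℤ) : ℝ) • x) ⬝ᵥ (((l : ℤ) : ℝ) • y)) := by
  rw [smul_dotProduct, dotProduct_smul, smul_eq_mul, smul_eq_mul]
  exact (IsZ.intCast _).mul ((IsZ.intCast _).mul h)

lemma prime_vec (hA : Aniso M) {y : Fin n → ℝ} (hy : InDual M y) {p E : ℕ} {a : ℤ}
    (hp : p.Prime) (hD : 0 < p * E) (hmin : ∀ k : ℤ, (k : ℝ) • y ∈ M → ((p * E : ℕ) : ℤ) ∣ k)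
    (ha : ((p * E : ℕ) : ℝ) * (y ⬝ᵥ y) = a) :
    ∃ A : ℤ, (p : ℝ) * ((((E : ℤ) : ℝ) • y) ⬝ᵥ (((E : ℤ) : ℝ) • y)) = A ∧ ¬ (p : ℤ) ∣ A := by
  have e : (p : ℝ) * ((((E : ℤ) : ℝ) • y) ⬝ᵥ (((E : ℤ) : ℝ) • y)) = ((E * a : ℤ) : ℝ) := by
    rw [smul_dotProduct, dotProduct_smul, smul_eq_mul, smul_eq_mul]
    push_cast at ha ⊢
    rw [← ha]
    ring
  refine ⟨_, e, ?_⟩
  rintro ⟨k, hk⟩
  have p0 : (p : ℝ) ≠ 0 := by exact_mod_cast hp.ne_zero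
  rw [hk, Int.cast_mul, Int.cast_natCast (R := ℝ) p] at e
  have h1 := hmin E (hA _ (dual_smul hy E) ⟨k, mul_left_cancel₀ p0 e⟩)
  have h2 : 0 < E := Nat.pos_of_mul_pos_left hD
  have h3 := Nat.le_of_dvd h2 (Int.natCast_dvd_natCast.1 h1)
  have := hp.two_le
  nlinarith

lemma three (hA : Aniso M) {w₁ w₂ w₃ : Fin n → ℝ} (d₁ : InDual M w₁) (d₂ : InDual M w₂)
    (d₃ : InDual M w₃) {p : ℕ} (hp : p.Prime) {A₁ A₂ A₃ x₁ x₂ : ℤ} (e₁ : (p : ℝ) * (w₁ ⬝ᵥ w₁) = A₁)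
    (e₂ : (p : ℝ) * (w₂ ⬝ᵥ w₂) = A₂) (e₃ : (p : ℝ) * (w₃ ⬝ᵥ w₃) = A₃) (h₁ : IsZ (w₂ ⬝ᵥ w₁))
    (h₂ : IsZ (w₃ ⬝ᵥ w₁)) (h₃ : IsZ (w₃ ⬝ᵥ w₂))
    (h : (p : ℤ) ∣ A₁ * x₁ ^ 2 + A₂ * x₂ ^ 2 + A₃) : (p : ℤ) ∣ A₃ := by
  have p0 : (p : ℝ) ≠ 0 := by exact_mod_cast hp.ne_zero
  obtain ⟨k, hk⟩ := h
  obtain ⟨b₁, h₁⟩ := h₁
  obtain ⟨b₂, h₂⟩ := h₂
  obtain ⟨b₃, h₃⟩ := h₃
  have hk' : (A₁ : ℝ) * x₁ ^ 2 + A₂ * x₂ ^ 2 + A₃ = p * k := by exact_mod_cast hk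
  have hm : (x₁ : ℝ) • w₁ + (x₂ : ℝ) • w₂ + w₃ ∈ M := by
    refine hA _ ((dualLat M).add_mem ((dualLat M).add_mem (dual_smul d₁ x₁) (dual_smul d₂ x₂)) d₃)
      ⟨k + 2 * (x₁ * x₂ * b₁ + x₁ * b₂ + x₂ * b₃), mul_left_cancel₀ p0 ?_⟩
    simp only [add_dotProduct, dotProduct_add, smul_dotProduct, dotProduct_smul, smul_eq_mul,
      dotProduct_comm w₁ w₂, dotProduct_comm w₁ w₃, dotProduct_comm w₂ w₃, h₁, h₂, h₃]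
    push_cast
    linear_combination (x₁ : ℝ) ^ 2 * e₁ + (x₂ : ℝ) ^ 2 * e₂ + e₃ + hk'
  obtain ⟨c, hc⟩ := d₃ _ hm
  simp only [dotProduct_add, dotProduct_smul, smul_eq_mul, h₂, h₃] at hc
  refine ⟨c - x₁ * b₂ - x₂ * b₃, ?_⟩
  have : (A₃ : ℝ) = p * (c - x₁ * b₂ - x₂ * b₃) := by linear_combination (p : ℝ) * hc - e₃
  exact_mod_cast this

end TDISCA

open TDISCA

theorem k_disc (hstep : S_STEP) (htern : S_TERN) : S_DISC := by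
  intro n M hI hA hE
  have l1 : M ≤ dualLat M := fun x hx => hI x hx
  obtain ⟨y₁, D₁, a₁, m₁, p₁, k₁, s₁, e₁, c₁, g₁⟩ := hstep n M _ hI hA hE l1 fun _ h => h
  have l2 := le_cut l1 m₁
  obtain ⟨y₂, D₂, a₂, m₂, p₂, k₂, s₂, e₂, c₂, g₂⟩ := hstep n M _ hI hA hE l2 fun _ h => h.1
  have l3 := le_cut l2 m₂.1
  obtain ⟨y₃, D₃, a₃, m₃, p₃, k₃, s₃, e₃, -, -⟩ := hstep n M _ hI hA hE l3 fun _ h => h.1.1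
  have v₁ : D₂ ∣ D₁ := Int.natCast_dvd_natCast.1 (s₂ D₁ (by simpa using k₁ _ m₂.1))
  have v₂ : D₃ ∣ D₂ := Int.natCast_dvd_natCast.1 (s₃ D₂ (by simpa using k₂ _ m₃.1))
  have h3 : D₃ = 1 := by
    by_contra h
    obtain ⟨p, hp, E₃, rfl⟩ := Nat.exists_prime_and_dvd h
    obtain ⟨E₂, rfl⟩ := (dvd_mul_right p E₃).trans v₂
    obtain ⟨E₁, rfl⟩ := (dvd_mul_right p E₂).trans v₁
    obtain ⟨A₁, b₁, n₁⟩ := prime_vec hA m₁ hp p₁ s₁ e₁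
    obtain ⟨A₂, b₂, n₂⟩ := prime_vec hA m₂.1 hp p₂ s₂ e₂
    obtain ⟨A₃, b₃, n₃⟩ := prime_vec hA m₃.1.1 hp p₃ s₃ e₃
    obtain ⟨x₁, x₂, hx⟩ := htern p A₁ A₂ A₃ hp n₁ n₂
    exact n₃ (three hA (dual_smul m₁ _) (dual_smul m₂.1 _) (dual_smul m₃.1.1 _) hp b₁ b₂ b₃
      (isZ_smul m₂.2 _ _) (isZ_smul m₃.1.2 _ _) (isZ_smul m₃.2 _ _) hx)
  refine ⟨y₁, y₂, D₁, D₂, a₁, a₂, ⟨hI, m₁, m₂.1, p₁, p₂, k₁ _ m₁, k₂ _ m₂, e₁, e₂, c₁, c₂,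
    by rw [dotProduct_comm]; exact m₂.2, fun w hw => ?_⟩, v₁, ?_, ?_⟩
  · obtain ⟨b₁, h₁⟩ := g₁ w hw
    have q₁ : w - (b₁ : ℝ) • y₁ ∈ cut (dualLat M) y₁ :=
      ⟨(dualLat M).sub_mem hw (zsmul_mem' m₁ b₁), h₁⟩
    obtain ⟨b₂, h₂⟩ := g₂ _ q₁
    refine ⟨b₁, b₂, ?_⟩
    simpa [h3] using k₃ _ ⟨AddSubgroup.sub_mem _ q₁ (zsmul_mem' m₂ b₂), h₂⟩
  · rw [← Nat.not_even_iff_odd, even_iff_two_dvd]
    rintro ⟨E₂, rfl⟩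
    obtain ⟨E₁, rfl⟩ := (dvd_mul_right 2 E₂).trans v₁
    obtain ⟨A₁, b₁, n₁⟩ := prime_vec hA m₁ Nat.prime_two p₁ s₁ e₁
    obtain ⟨A₂, b₂, n₂⟩ := prime_vec hA m₂.1 Nat.prime_two p₂ s₂ e₂
    refine n₂ (three hA (w₂ := 0) (A₂ := 0) (x₁ := 1) (x₂ := 0) (dual_smul m₁ _)
      (dualLat M).zero_mem (dual_smul m₂.1 _) Nat.prime_two b₁ (by simp) b₂
      (by simpa using IsZ.zero) (isZ_smul m₂.2 _ _) (by simpa using IsZ.zero) ?_)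
    push_cast at n₁ n₂ ⊢
    omega
  · rintro ⟨E, rfl⟩
    have h := s₁ (2 * E) (hA _ (dual_smul m₁ _) ⟨E * a₁, by
      rw [smul_dotProduct, dotProduct_smul, smul_eq_mul, smul_eq_mul]
      push_cast at e₁ ⊢
      rw [← e₁]
      ring⟩)
    have := Int.le_of_dvd (by omega) h
    omega

end Pool.Agent.P.MP_22b27c_co
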