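import Pool.Agent.P.MP_22b27c_co.Iface

/-! Dual basis of a self-dual lattice and characteristic vectors. -/

namespace Pool.Agent.P.MP_22b27c_co

open Module Finset
open scoped Classical Real Matrix

namespace TDUALBA

variable {n : ℕ} {U : Lat n} {B : Matrix (Fin n) (Fin n) ℝ}

lemma pair (hB : B.det ≠ 0) (y z : Fin n → ℝ) : (B⁻¹)ᵀ.mulVec y ⬝ᵥ B.mulVec z = y ⬝ᵥ z := by
  rw [Matrix.dotProduct_mulVec, Matrix.mulVec_transpose, Matrix.vecMul_vecMul,
    Matrix.nonsing_inv_mul _ (Ne.isUnit hB), Matrix.vecMul_one]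

lemma back (hB : B.det ≠ 0) (x : Fin n → ℝ) : (B⁻¹)ᵀ.mulVec (Matrix.vecMul x B) = x := by
  rw [Matrix.mulVec_transpose, Matrix.vecMul_vecMul, Matrix.mul_nonsing_inv _ (Ne.isUnit hB),
    Matrix.vecMul_one]

lemma col_eq (B : Matrix (Fin n) (Fin n) ℝ) (i : Fin n) :
    B.mulVec (rc (Pi.single i 1 : Fin n → ℤ)) = Bᵀ i := by
  have : rc (Pi.single i 1 : Fin n → ℤ) = (Pi.single i 1 : Fin n → ℝ) := by
    ext j
    by_cases h : j = i
    · subst h; simp [rc]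
    · simp [rc, h]
  rw [this]
  ext k
  simp [Matrix.mulVec, dotProduct, Pi.single_apply]

lemma col_mem (h : ∀ x, x ∈ U ↔ ∃ m : Fin n → ℤ, x = B.mulVec (rc m)) (i : Fin n) : Bᵀ i ∈ U :=
  (h _).2 ⟨_, (col_eq B i).symm⟩

lemma detZ (hU : Integral U) (h : ∀ i, Bᵀ i ∈ U) : IsZ (B.det ^ 2) := by
  choose G hG using fun i j => hU _ (h i) _ (h j)
  have h1 : Bᵀ * B = (Int.castRingHom ℝ).mapMatrix (Matrix.of G) := by
    ext i j
    exact hG i j
  have h2 := congrArg Matrix.det h1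
  rw [Matrix.det_mul, Matrix.det_transpose, ← RingHom.map_det] at h2
  exact ⟨(Matrix.of G).det, by rw [sq, h2]; rfl⟩

lemma dual_iff (hU : SelfDual U) (hB : B.det ≠ 0)
    (h : ∀ x, x ∈ U ↔ ∃ m : Fin n → ℤ, x = B.mulVec (rc m)) (x : Fin n → ℝ) :
    x ∈ U ↔ ∃ m : Fin n → ℤ, x = (B⁻¹)ᵀ.mulVec (rc m) := by
  constructor
  · intro hx
    choose m hm using fun i => hU.integral _ hx _ (col_mem h i)
    refine ⟨m, ?_⟩
    have : rc m = Matrix.vecMul x B := by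
      ext i
      exact (hm i).symm
    rw [this, back hB]
  · rintro ⟨m, rfl⟩
    refine (hU _).2 fun y hy => ?_
    obtain ⟨k, rfl⟩ := (h y).1 hy
    rw [pair hB, rc_dot]
    exact IsZ.intCast _

/-- vectors of the lattice whose norm has the parity of the product with `w` -/
def par (hU : Integral U) (w : Fin n → ℝ) (hw : w ∈ U) : Lat n where
  carrier := {u | u ∈ U ∧ ∃ k : ℤ, u ⬝ᵥ u - u ⬝ᵥ w = 2 * k}
  add_mem' := by
    rintro a b ⟨ha, k, hk⟩ ⟨hb, l, hl⟩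
    obtain ⟨c, hc⟩ := hU a ha b hb
    refine ⟨U.add_mem ha hb, k + l + c, ?_⟩
    rw [dot_add_self, add_dotProduct, hc]
    push_cast
    linarith
  zero_mem' := ⟨U.zero_mem, 0, by simp⟩
  neg_mem' := by
    rintro a ⟨ha, k, hk⟩
    obtain ⟨c, hc⟩ := hU a ha w hw
    refine ⟨U.neg_mem ha, k + c, ?_⟩
    rw [neg_dotProduct, neg_dotProduct, dotProduct_neg]
    push_cast
    linarith

end TDUALBA

open TDUALBA in
theorem k_dualb : S_DUALB := by
  intro n U B hU hB h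
  refine ⟨?_, dual_iff hU hB h⟩
  obtain ⟨a, ha⟩ := detZ hU.integral (col_mem h)
  obtain ⟨b, hb⟩ := detZ hU.integral (col_mem (dual_iff hU hB h))
  rw [Matrix.det_transpose, Matrix.det_nonsing_inv, Ring.inverse_eq_inv'] at hb
  have h1 : a * b = 1 := by
    have : (a : ℝ) * b = 1 := by
      rw [← ha, ← hb, ← mul_pow, mul_inv_cancel₀ hB, one_pow]
    exact_mod_cast this
  have h2 : (0 : ℝ) ≤ a := ha ▸ sq_nonneg _
  have h3 : a = 1 := Int.eq_one_of_mul_eq_one_right (by exact_mod_cast h2) h1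
  rw [h3, Int.cast_one, ← sq_abs] at ha
  exact (pow_eq_one_iff_of_nonneg (abs_nonneg _) two_ne_zero).1 ha

open TDUALBA in
theorem k_char (hbasis : S_BASIS) (hdualb : S_DUALB) : S_CHAR := by
  intro n U hU
  obtain ⟨B, hB, h⟩ := hbasis n U hU
  have h' := (hdualb n U B hU hB h).2
  choose g hg using fun i => hU.integral _ (col_mem h i) _ (col_mem h i)
  have hw : (B⁻¹)ᵀ.mulVec (rc g) ∈ U := (h' _).2 ⟨g, rfl⟩
  refine ⟨_, hw, fun u hu => ?_⟩
  obtain ⟨m, rfl⟩ := (h u).1 hu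
  have h1 : ∀ i, Bᵀ i ∈ par hU.integral _ hw := fun i => by
    refine ⟨col_mem h i, 0, ?_⟩
    rw [hg i, dotProduct_comm, ← col_eq, pair hB, rc_dot]
    simp
  have h2 : B.mulVec (rc m) = ∑ i, (m i : ℝ) • Bᵀ i := by
    ext k
    simp [Matrix.mulVec, dotProduct, rc, mul_comm, Finset.sum_apply]
  have h3 : B.mulVec (rc m) ∈ par hU.integral _ hw := by
    rw [h2]
    exact AddSubgroup.sum_mem _ fun i _ => zsmul_mem' (h1 i) _
  exact h3.2

end Pool.Agent.P.MP_22b27c_co
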