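import Pool.Agent.P.MP_22b27c_co.Iface

/-! The equality case of the bound for obtuse codes. -/

namespace Pool.Agent.P.MP_22b27c_co

open Module Finset
open scoped Classical Real Matrix

theorem k_eq (hmom : S_MOM) : S_EQ := by
  intro n N r F hr hC hc
  rcases F.eq_empty_or_nonempty with rfl | hne
  · simp
  have hn : (0 : ℝ) < n := by
    have := hne.card_pos
    exact_mod_cast (by omega : 0 < n)
  have hM := hmom _ _ n r F id hC.dim hC.nrm
  have h1 : 0 ≤ ∑ x ∈ F, ∑ y ∈ F, x ⬝ᵥ y := by simpa [Mo] using hM.m1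
  have h2 : (F.card : ℝ) * (2 * r ^ 2) ≤ ∑ x ∈ F, ∑ y ∈ F, (x ⬝ᵥ y) ^ 2 := by
    have := hM.m2
    simp only [Mo, id] at this
    rw [hc] at this ⊢
    push_cast at this ⊢
    refine le_of_mul_le_mul_left ?_ hn
    linarith
  have nr : ∀ x ∈ F, x ⬝ᵥ x = r := hC.nrm
  have key : ∀ x ∈ F, ∀ y ∈ F, x ⬝ᵥ y = 0 ∨ y = x ∨ y = -x := by
    have a1 : ∀ x ∈ F, ∀ y ∈ F,
        (x ⬝ᵥ y) ^ 2 + r * (x ⬝ᵥ y) - (if y = x then 2 * r ^ 2 else 0) ≤ 0 := by
      intro x hx y hy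
      split_ifs with e
      · rw [e, nr x hx]
        linarith
      · have b1 : x ⬝ᵥ y ≤ 0 := hC.le x hx y hy (Ne.symm e)
        have b2 := neg_le_dot (nr x hx) (nr y hy)
        nlinarith
    have a2 : ∑ x ∈ F, ∑ y ∈ F,
        ((x ⬝ᵥ y) ^ 2 + r * (x ⬝ᵥ y) - (if y = x then 2 * r ^ 2 else 0)) = 0 := by
      refine le_antisymm (sum_nonpos fun x hx => sum_nonpos (a1 x hx)) ?_
      have e : ∑ x ∈ F, ∑ y ∈ F, (if y = x then 2 * r ^ 2 else 0) = (F.card : ℝ) * (2 * r ^ 2) := by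
        rw [sum_congr rfl fun x hx => (sum_ite_eq' F x fun _ => 2 * r ^ 2).trans (if_pos hx)]
        simp
      simp only [sum_sub_distrib, sum_add_distrib, ← mul_sum, e]
      nlinarith
    intro x hx y hy
    have a3 := (sum_eq_zero_iff_of_nonpos (a1 x hx)).1
      ((sum_eq_zero_iff_of_nonpos fun x hx => sum_nonpos (a1 x hx)).1 a2 x hx) y hy
    by_cases e : y = x
    · exact .inr (.inl e)
    rw [if_neg e] at a3
    rcases mul_eq_zero.1 (show (x ⬝ᵥ y) * (x ⬝ᵥ y + r) = 0 by linarith) with k | k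
    · exact .inl k
    · exact .inr (.inr (eq_neg_of_dot (nr x hx) (nr y hy) (by linarith)))
  refine ⟨fun x hx => by_contra fun hx' => ?_, key⟩
  have r2 : 0 < r ^ 2 := by positivity
  have row : ∀ x ∈ F, ∑ y ∈ F, (x ⬝ᵥ y) ^ 2 ≤ r ^ 2 + if -x ∈ F then r ^ 2 else 0 := by
    intro x hx
    have : ∀ y ∈ F, (x ⬝ᵥ y) ^ 2 ≤ (if y = x then r ^ 2 else 0) + if y = -x then r ^ 2 else 0 := by
      intro y hy
      rcases key x hx y hy with k | rfl | rfl
      · rw [k]
        split_ifs <;> nlinarith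
      · rw [nr y hy, if_pos rfl]
        split_ifs <;> linarith
      · rw [dotProduct_neg, nr x hx, if_pos rfl, neg_sq]
        split_ifs <;> linarith
    refine (sum_le_sum this).trans ?_
    rw [sum_add_distrib, sum_ite_eq', sum_ite_eq', if_pos hx]
  have := sum_lt_sum (s := F) (f := fun x => ∑ y ∈ F, (x ⬝ᵥ y) ^ 2) (g := fun _ => 2 * r ^ 2)
    (fun x hx => (row x hx).trans (by split_ifs <;> linarith))
    ⟨x, hx, (row x hx).trans_lt (by rw [if_neg hx']; linarith)⟩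
  rw [sum_const, nsmul_eq_mul] at this
  linarith

end Pool.Agent.P.MP_22b27c_co
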