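import Pool.Agent.P.MP_22b27c_co.Iface

/-!
The configuration of 306 vectors.
-/

namespace Pool.Agent.P.MP_22b27c_co

open Module Finset
open scoped Classical Real Matrix

namespace TEXA

/-- All sign choices on the support of a zero-one list. -/
def signs : List ℤ → List (List ℤ)
  | [] => [[]]
  | a :: l => if a = 0 then (signs l).map (0 :: ·)
      else (signs l).map (a :: ·) ++ (signs l).map (-a :: ·)

def base : List (List ℤ) :=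
  [[1, 1, 0, 1, 1, 0, 0, 0, 0],
   [1, 1, 0, 0, 0, 1, 0, 0, 1],
   [1, 1, 0, 0, 0, 0, 1, 1, 0],
   [1, 0, 1, 1, 0, 1, 0, 0, 0],
   [1, 0, 1, 0, 1, 0, 0, 1, 0],
   [1, 0, 1, 0, 0, 0, 1, 0, 1],
   [1, 0, 0, 1, 0, 0, 0, 1, 1],
   [1, 0, 0, 0, 1, 1, 1, 0, 0],
   [0, 1, 1, 1, 0, 0, 1, 0, 0],
   [0, 1, 1, 0, 1, 1, 0, 0, 0],
   [0, 1, 1, 0, 0, 0, 0, 1, 1],
   [0, 1, 0, 1, 0, 1, 0, 1, 0],
   [0, 1, 0, 0, 1, 0, 1, 0, 1],
   [0, 0, 1, 1, 1, 0, 0, 0, 1],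
   [0, 0, 1, 0, 0, 1, 1, 1, 0],
   [0, 0, 0, 1, 1, 0, 1, 1, 0],
   [0, 0, 0, 1, 0, 1, 1, 0, 1],
   [0, 0, 0, 0, 1, 1, 0, 1, 1],
   [2, 0, 0, 0, 0, 0, 0, 0, 0],
   [0, 2, 0, 0, 0, 0, 0, 0, 0],
   [0, 0, 2, 0, 0, 0, 0, 0, 0],
   [0, 0, 0, 2, 0, 0, 0, 0, 0],
   [0, 0, 0, 0, 2, 0, 0, 0, 0],
   [0, 0, 0, 0, 0, 2, 0, 0, 0],
   [0, 0, 0, 0, 0, 0, 2, 0, 0],
   [0, 0, 0, 0, 0, 0, 0, 2, 0],
   [0, 0, 0, 0, 0, 0, 0, 0, 2]]

def L : List (List ℤ) := base.flatMap signs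

def dz : List ℤ → List ℤ → ℤ
  | a :: l, b :: m => a * b + dz l m
  | _, _ => 0

def chk : List (List ℤ) → Bool
  | [] => true
  | x :: l => (x.length == 9 && dz x x == 4 && l.all fun y => decide (dz x y ≤ 2)) && chk l

lemma chkL : chk L = true := by decide +kernel

lemma lenL : L.length = 306 := by decide +kernel

noncomputable def tv (l : List ℤ) : Fin 9 → ℝ := fun i => ((l.getD i 0 : ℤ) : ℝ)

lemma tv_dot {l m : List ℤ} (hl : l.length = 9) (hm : m.length = 9) :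
    tv l ⬝ᵥ tv m = (dz l m : ℤ) := by
  match l, hl, m, hm with
  | [_, _, _, _, _, _, _, _, _], _, [_, _, _, _, _, _, _, _, _], _ =>
    simp [tv, dz, dotProduct, Fin.sum_univ_succ]

lemma sound : ∀ l : List (List ℤ), chk l = true →
    (∀ x ∈ l, x.length = 9 ∧ dz x x = 4) ∧ l.Pairwise fun x y => dz x y ≤ 2
  | [], _ => by simp
  | x :: l, h => by
    simp only [chk, Bool.and_eq_true, beq_iff_eq, List.all_eq_true, decide_eq_true_eq] at h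
    obtain ⟨⟨⟨h1, h2⟩, h3⟩, h4⟩ := h
    obtain ⟨h5, h6⟩ := sound l h4
    refine ⟨fun y hy => ?_, List.Pairwise.cons h3 h6⟩
    rcases List.mem_cons.1 hy with rfl | hy
    · exact ⟨h1, h2⟩
    · exact h5 y hy

end TEXA

open TEXA

theorem k_ex : S_EX := by
  obtain ⟨h1, h2⟩ := sound L chkL
  have hn : ∀ x ∈ L.map tv, x ⬝ᵥ x = 4 := fun x hx => by
    obtain ⟨l, hl, rfl⟩ := List.mem_map.1 hx
    rw [tv_dot (h1 l hl).1 (h1 l hl).1, (h1 l hl).2]; norm_num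
  have hp : (L.map tv).Pairwise fun x y => x ⬝ᵥ y ≤ 2 := by
    rw [List.pairwise_map]
    refine h2.imp_of_mem fun {a b} ha hb h => ?_
    rw [tv_dot (h1 a ha).1 (h1 b hb).1]; exact_mod_cast h
  have hd : (L.map tv).Nodup := by
    refine hp.imp_of_mem fun {a b} ha _ h hab => ?_
    rw [← hab, hn a ha] at h; norm_num at h
  refine ⟨(L.map tv).toFinset, ⟨fun x hx => hn x (List.mem_toFinset.1 hx), fun x hx y hy hxy => ?_,
    fun x hx y hy => ?_⟩, ?_⟩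
  · have : Std.Symm fun x y : Fin 9 → ℝ => x ⬝ᵥ y ≤ 2 :=
      ⟨fun a b h => by rwa [dotProduct_comm]⟩
    exact hp.forall (List.mem_toFinset.1 hx) (List.mem_toFinset.1 hy) hxy
  · obtain ⟨l, hl, rfl⟩ := List.mem_map.1 (List.mem_toFinset.1 hx)
    obtain ⟨m, hm, rfl⟩ := List.mem_map.1 (List.mem_toFinset.1 hy)
    rw [tv_dot (h1 l hl).1 (h1 m hm).1]; exact IsZ.intCast _
  · rw [List.toFinset_card_of_nodup hd, List.length_map, lenL]

end Pool.Agent.P.MP_22b27c_co
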