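import Pool.Agent.P.MP_22b27c_co.Iface

/-! Counting the points whose projection is a root. -/

namespace Pool.Agent.P.MP_22b27c_co

open Module Finset
open scoped Classical Real Matrix

namespace TFIBA

variable {V : Submodule ℝ (Fin 12 → ℝ)} {P : (Fin 12 → ℝ) →ₗ[ℝ] (Fin 12 → ℝ)}
  {X : Finset (Fin 12 → ℝ)} {β β' : Fin 12 → ℝ}

/-- The remainders of a fibre. -/
noncomputable def rem (P : (Fin 12 → ℝ) →ₗ[ℝ] (Fin 12 → ℝ)) (X : Finset (Fin 12 → ℝ))
    (β : Fin 12 → ℝ) : Finset (Fin 12 → ℝ) := (X.filter fun x => P x = β).image fun x => x - P x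

theorem mem_rem {u : Fin 12 → ℝ} : u ∈ rem P X β ↔ ∃ x ∈ X, P x = β ∧ x - P x = u := by
  simp [rem, and_assoc]

theorem card_rem : (rem P X β).card = (X.filter fun x => P x = β).card :=
  card_image_of_injOn fun x hx y hy e => by
    have h1 := (mem_filter.1 hx).2
    have h2 := (mem_filter.1 hy).2
    simp only [h1, h2] at e
    exact sub_left_injective e

theorem rem_mem (hP : Proj P) (hX : Cfg2 V P X) (hβ : β ∈ V) :
    ∀ u ∈ rem P X β, u ∈ V ⊓ LinearMap.ker P := fun u hu => by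
  obtain ⟨x, hx, e, rfl⟩ := mem_rem.1 hu
  exact ⟨V.sub_mem (hX.mem x hx) (e ▸ hβ), hP.ker x⟩

theorem rem_nrm (hP : Proj P) (hX : Cfg2 V P X) (hβ : β ⬝ᵥ β = 2) :
    ∀ u ∈ rem P X β, u ⬝ᵥ u = 2 := fun u hu => by
  obtain ⟨x, hx, e, rfl⟩ := mem_rem.1 hu
  have h1 := hP.split x x
  have h2 := hX.nrm x hx
  subst e
  linarith

theorem rem_le (hP : Proj P) (hX : Cfg2 V P X) (hβ : β ⬝ᵥ β = 2) :
    ∀ u ∈ rem P X β, ∀ v ∈ rem P X β, u ≠ v → u ⬝ᵥ v ≤ 0 := fun u hu v hv n => by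
  obtain ⟨x, hx, e, rfl⟩ := mem_rem.1 hu
  obtain ⟨y, hy, e', rfl⟩ := mem_rem.1 hv
  have h1 := hP.split x y
  have h2 := hX.le x hx y hy (by rintro rfl; exact n rfl)
  have h3 : P x ⬝ᵥ P y = 2 := by rw [e, e', hβ]
  linarith

theorem full (hframe : S_FRAME) (hP : Proj P) (hX : Cfg2 V P X)
    (h5 : finrank ℝ (V ⊓ LinearMap.ker P : Submodule ℝ (Fin 12 → ℝ)) ≤ 5) (h1 : β ∈ V)
    (h2 : β' ∈ V) (h3 : β ⬝ᵥ β = 2) (h4 : β' ⬝ᵥ β' = 2) (n : β ≠ β') (h : 0 < β ⬝ᵥ β')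
    (c : (X.filter fun x => P x = β).card = 10) : (X.filter fun x => P x = β').card ≠ 10 := by
  rw [← card_rem] at c ⊢
  refine hframe 12 _ _ _ h5 (rem_mem hP hX h1) (rem_mem hP hX h2) (rem_nrm hP hX h3)
    (rem_nrm hP hX h4) (rem_le hP hX h3) (rem_le hP hX h4) (fun u hu v hv => ?_)
    (disjoint_left.2 fun u hu hv => ?_) c
  · obtain ⟨x, hx, -, rfl⟩ := mem_rem.1 hu
    obtain ⟨y, hy, -, rfl⟩ := mem_rem.1 hv
    have := (hX.int x hx y hy).sub (hX.intP x hx y hy)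
    rwa [hP.split x y, add_sub_cancel_left] at this
  · have k := rem_nrm hP hX h3 u hu
    obtain ⟨x, hx, e, e1⟩ := mem_rem.1 hu
    obtain ⟨y, hy, e', e2⟩ := mem_rem.1 hv
    have k1 := hP.split x y
    have k2 := hX.le x hx y hy (by rintro rfl; exact n (e.symm.trans e'))
    rw [e1, e2, e, e'] at k1
    linarith

end TFIBA

theorem k_fib (hfib1 : S_FIB1) (hframe : S_FRAME) (hlp2 : S_LP2) (hrank : S_RANK) : S_FIB := by
  intro V P X hP hX h5
  set Y := X.filter fun x => P x ⬝ᵥ P x = 2 with hY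
  set c : (Fin 12 → ℝ) → ℕ := fun β => (X.filter fun x => P x = β).card with hc
  have hB : ∀ β ∈ Y.image P, ∃ x ∈ X, P x ⬝ᵥ P x = 2 ∧ P x = β := fun β hβ => by
    simpa [hY, and_assoc] using hβ
  have hn : ∀ β ∈ Y.image P, β ⬝ᵥ β = 2 := fun β hβ => by
    obtain ⟨x, -, h, rfl⟩ := hB β hβ
    exact h
  have hi : IntIP (Y.image P) id := fun β hβ β' hβ' => by
    obtain ⟨x, hx, -, rfl⟩ := hB β hβ
    obtain ⟨y, hy, -, rfl⟩ := hB β' hβ'
    exact hX.intP x hx y hy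
  have hd : InDim 4 (Y.image P) id := ⟨LinearMap.range P, hP.rk, fun β hβ => by
    obtain ⟨x, -, -, rfl⟩ := hB β hβ
    exact ⟨x, rfl⟩⟩
  have h25 : (Y.image P).card ≤ 25 := hlp2 _ _ 4 _ id (by norm_num)
    ⟨hd, hn, fun β hβ β' hβ' n => by
      have := (hi β hβ β' hβ').le_sub_one (k := 2) (mod_cast dot_lt (hn β hβ) (hn β' hβ') n)
      norm_num at this ⊢
      exact this⟩ hi
  have h10 : ∀ β ∈ Y.image P, c β ≤ 10 ∧ (c β = 10 → β ∈ V) := fun β hβ => by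
    obtain ⟨k1, k2⟩ := (hfib1 V P X β hP hX (hn β hβ)).2 h5
    refine ⟨k1, fun e => by_contra fun n => ?_⟩
    have := k2 n
    simp only [hc] at e
    omega
  have h8 : ((Y.image P).filter fun β => c β = 10).card ≤ 2 * 4 :=
    hrank _ _ 4 2 _ id two_pos ⟨hd.mono le_rfl (filter_subset _ _),
      fun β hβ => hn β (mem_filter.1 hβ).1, fun β hβ β' hβ' n => by
        rw [mem_filter] at hβ hβ'
        by_contra k
        exact TFIBA.full hframe hP hX h5 ((h10 β hβ.1).2 hβ.2) ((h10 β' hβ'.1).2 hβ'.2)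
          (hn β hβ.1) (hn β' hβ'.1) n (not_le.1 k) hβ.2 hβ'.2⟩
  calc Y.card = ∑ β ∈ Y.image P, (Y.filter fun x => P x = β).card := card_eq_sum_card_image P Y
    _ ≤ ∑ β ∈ Y.image P, (9 + if c β = 10 then 1 else 0) := sum_le_sum fun β hβ => by
        have k1 : (Y.filter fun x => P x = β).card ≤ c β :=
          card_le_card (filter_subset_filter _ (filter_subset _ _))
        have k2 := (h10 β hβ).1
        split_ifs <;> omega
    _ ≤ 233 := by
        rw [sum_add_distrib, sum_const, ← card_filter, smul_eq_mul]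
        omega

end Pool.Agent.P.MP_22b27c_co
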