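import Pool.Agent.P.MP_22b27c_co.Iface

/-!
The Fischer inner product on real polynomials in finitely many variables.
-/

namespace Pool.Agent.P.MP_22b27c_co

open Module Finset
open scoped Classical Real Matrix

noncomputable section

namespace TFISA

open MvPolynomial

variable {n : ℕ}

/-- The weight of an exponent vector: the product of the factorials. -/
def w (α : Fin n →₀ ℕ) : ℝ := ∏ i, ((α i).factorial : ℝ)

lemma w_nonneg (α : Fin n →₀ ℕ) : 0 ≤ w α :=
  Finset.prod_nonneg fun i _ => Nat.cast_nonneg _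

lemma w_zero : w (0 : Fin n →₀ ℕ) = 1 := by
  simp [w]

lemma w_add (α : Fin n →₀ ℕ) (i : Fin n) :
    w (α + Finsupp.single i 1) = ((α i : ℝ) + 1) * w α := by
  unfold w
  rw [← Finset.mul_prod_erase univ _ (mem_univ i),
    ← Finset.mul_prod_erase univ (fun j => ((α j).factorial : ℝ)) (mem_univ i)]
  have h1 : ∏ j ∈ univ.erase i, (((α + Finsupp.single i 1 : Fin n →₀ ℕ) j).factorial : ℝ)
      = ∏ j ∈ univ.erase i, ((α j).factorial : ℝ) := by
    refine Finset.prod_congr rfl fun j hj => ?_
    have hji : j ≠ i := (Finset.mem_erase.mp hj).1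
    rw [Finsupp.add_apply, Finsupp.single_eq_of_ne hji, add_zero]
  rw [h1, Finsupp.add_apply, Finsupp.single_eq_same, Nat.factorial_succ]
  push_cast
  ring

/-- The bilinear form. -/
def B : MvPolynomial (Fin n) ℝ →ₗ[ℝ] MvPolynomial (Fin n) ℝ →ₗ[ℝ] ℝ :=
  (basisMonomials (Fin n) ℝ).constr ℝ (fun α => w α • lcoeff ℝ α)

lemma B_monomial (α : Fin n →₀ ℕ) (c : ℝ) (q : MvPolynomial (Fin n) ℝ) :
    B (monomial α c) q = c * (w α * coeff α q) := by
  have h : (monomial α c : MvPolynomial (Fin n) ℝ) = c • basisMonomials (Fin n) ℝ α := by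
    rw [coe_basisMonomials, smul_monomial, smul_eq_mul, mul_one]
  rw [h, map_smul, B, Basis.constr_basis]
  simp

lemma B_self (p : MvPolynomial (Fin n) ℝ) : 0 ≤ B p p := by
  have h : B p p = ∑ α ∈ p.support, coeff α p * (w α * coeff α p) := by
    conv_lhs => rw [show B p p = B (∑ v ∈ p.support, monomial v (coeff v p)) p by rw [← as_sum]]
    rw [map_sum, LinearMap.sum_apply]
    exact Finset.sum_congr rfl fun α _ => B_monomial α _ p
  rw [h]
  refine Finset.sum_nonneg fun α _ => ?_
  have := w_nonneg α
  have h2 : coeff α p * (w α * coeff α p) = w α * (coeff α p * coeff α p) := by ring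
  rw [h2]
  exact mul_nonneg this (mul_self_nonneg _)

lemma B_adj (i : Fin n) (p q : MvPolynomial (Fin n) ℝ) :
    B (X i * p) q = B p (pderiv i q) := by
  induction p using MvPolynomial.induction_on' with
  | add p p' hp hp' => rw [mul_add, map_add, map_add, LinearMap.add_apply, LinearMap.add_apply,
      hp, hp']
  | monomial α c =>
    have h : (X i * monomial α c : MvPolynomial (Fin n) ℝ)
        = monomial (α + Finsupp.single i 1) c := by
      rw [monomial_add_single, pow_one, mul_comm]
    rw [h, B_monomial, B_monomial, coeff_pderiv, w_add]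
    ring

lemma B_pow (k : ℕ) (x : Fin n → ℝ) (q : MvPolynomial (Fin n) ℝ) (hq : q.IsHomogeneous k) :
    B ((∑ i, C (x i) * X i) ^ k) q = (k.factorial : ℝ) * eval x q := by
  induction k generalizing q with
  | zero =>
    rw [← totalDegree_zero_iff_isHomogeneous, totalDegree_eq_zero_iff_eq_C] at hq
    have h1 : (1 : MvPolynomial (Fin n) ℝ) = monomial 0 1 := rfl
    rw [pow_zero, h1, B_monomial, w_zero]
    conv_rhs => rw [hq]
    simp
  | succ k ih =>
    have h1 : ((∑ i, C (x i) * X i : MvPolynomial (Fin n) ℝ)) ^ (k + 1)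
        = ∑ i, x i • (X i * (∑ i, C (x i) * X i : MvPolynomial (Fin n) ℝ) ^ k) := by
      rw [pow_succ', Finset.sum_mul]
      refine Finset.sum_congr rfl fun i _ => ?_
      rw [smul_eq_C_mul, mul_assoc]
    have h2 : ∑ i, x i * eval x (pderiv i q) = ((k : ℝ) + 1) * eval x q := by
      have := congrArg (eval x) hq.sum_X_mul_pderiv
      rw [map_sum, map_nsmul, nsmul_eq_mul] at this
      simp only [map_mul, eval_X] at this
      rw [this]
      push_cast
      ring
    rw [h1, map_sum, LinearMap.sum_apply]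
    have h3 : ∀ i ∈ (univ : Finset (Fin n)),
        (B (x i • (X i * (∑ i, C (x i) * X i : MvPolynomial (Fin n) ℝ) ^ k))) q
          = (k.factorial : ℝ) * (x i * eval x (pderiv i q)) := by
      intro i _
      have hi : (pderiv i q).IsHomogeneous k := by
        simpa using hq.pderiv (i := i)
      rw [map_smul, LinearMap.smul_apply, B_adj, ih _ hi, smul_eq_mul]
      ring
    rw [Finset.sum_congr rfl h3, ← Finset.mul_sum, h2, Nat.factorial_succ]
    push_cast
    ring

end TFISA

theorem k_fis : S_FIS := fun _ =>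
  ⟨TFISA.B, TFISA.B_self, TFISA.B_adj, TFISA.B_pow⟩

end

end Pool.Agent.P.MP_22b27c_co
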