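import Pool.Agent.P.MP_22b27c_co.Iface

/-! Two disjoint frames of roots in dimension five do not have integral inner products. -/

namespace Pool.Agent.P.MP_22b27c_co

open Module Finset
open scoped Classical Real Matrix

namespace TFRAMEA

lemma frame (heq : S_EQ) (horth : S_ORTH) {N : ℕ} {W : Submodule ℝ (Fin N → ℝ)}
    {F : Finset (Fin N → ℝ)} (hW : finrank ℝ W ≤ 5) (h1 : ∀ x ∈ F, x ∈ W)
    (h2 : ∀ x ∈ F, x ⬝ᵥ x = 2) (h3 : ∀ x ∈ F, ∀ y ∈ F, x ≠ y → x ⬝ᵥ y ≤ 0) (hc : F.card = 10) :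
    ∃ e : Fin 5 → Fin N → ℝ, (∀ i, e i ∈ F ∧ -e i ∈ F) ∧
      ∀ i i', e i ⬝ᵥ e i' = if i = i' then 2 else 0 := by
  obtain ⟨a1, a2⟩ := heq 5 N 2 F two_pos ⟨⟨W, hW, h1⟩, h2, h3⟩ hc
  obtain ⟨j, e, b1, b2, b3, -⟩ := horth N F 2 two_pos h2 a1 a2
  obtain rfl : j = 5 := by omega
  refine ⟨e, fun i => ⟨b2 i, a1 _ (b2 i)⟩, fun i i' => ?_⟩
  split_ifs with h
  · rw [← h]; exact h2 _ (b2 i)
  · exact b3 i i' h

lemma expand (hobt : S_OBT) {N : ℕ} {W : Submodule ℝ (Fin N → ℝ)} (hW : finrank ℝ W ≤ 5)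
    {e : Fin 5 → Fin N → ℝ} (h1 : ∀ i, e i ∈ W)
    (h2 : ∀ i i', e i ⬝ᵥ e i' = if i = i' then 2 else 0) {x : Fin N → ℝ} (hx : x ∈ W) :
    x = ∑ i, (x ⬝ᵥ e i / 2) • e i := by
  rw [← sub_eq_zero]
  set z := x - ∑ i, (x ⬝ᵥ e i / 2) • e i with hz
  have zW : z ∈ W := W.sub_mem hx (W.sum_mem fun i _ => W.smul_mem _ (h1 i))
  have ze : ∀ k, z ⬝ᵥ e k = 0 := fun k => by
    rw [hz, sub_dotProduct, sum_dotProduct]
    simp [smul_dotProduct, h2]
  by_contra h0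
  have zz : 0 < z ⬝ᵥ z :=
    lt_of_le_of_ne (dot_self_nonneg z) fun h => h0 (eq_zero_of_dot_self h.symm)
  have := hobt (Option (Fin 5)) (Fin N) 5 univ (fun o => o.elim z e) (dotL (z + ∑ i, e i))
    ⟨W, hW, fun o _ => by cases o; exacts [zW, h1 _]⟩ ?_ ?_
  · simp at this
  · rintro (_ | i) - (_ | k) - h
    · exact absurd rfl h
    · exact (ze k).le
    · exact ((dotProduct_comm _ _).trans (ze i)).le
    · exact ((h2 i k).trans (if_neg fun h' => h (congrArg some h'))).le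
  · rintro (_ | i) -
    · have : ∀ k, e k ⬝ᵥ z = 0 := fun k => (dotProduct_comm _ _).trans (ze k)
      simpa [add_dotProduct, sum_dotProduct, this] using zz
    · simp [add_dotProduct, sum_dotProduct, ze, h2]

end TFRAMEA

theorem k_frame (heq : S_EQ) (horth : S_ORTH) (hobt : S_OBT) (hwm : S_WM) : S_FRAME := by
  intro N W F F' hW m1 m2 n1 n2 l1 l2 hz hd c1 c2
  obtain ⟨e, e1, e2⟩ := TFRAMEA.frame heq horth hW m1 n1 l1 c1
  obtain ⟨f, f1, f2⟩ := TFRAMEA.frame heq horth hW m2 n2 l2 c2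
  choose C hC using fun k i => hz _ (e1 i).1 _ (f1 k).1
  have ne : ∀ x ∈ F, ∀ k, x ≠ f k := fun x hx k h =>
    Finset.disjoint_left.1 hd hx (h ▸ (f1 k).1)
  refine hwm C (fun k i => ?_) fun k k' => ?_
  · have a1 := dot_lt (n1 _ (e1 i).1) (n2 _ (f1 k).1) (ne _ (e1 i).1 k)
    have a2 := dot_lt (n1 _ (e1 i).2) (n2 _ (f1 k).1) (ne _ (e1 i).2 k)
    rw [neg_dotProduct, hC] at a2
    rw [hC] at a1
    have b1 : C k i < 2 := by exact_mod_cast a1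
    have b2 : -C k i < 2 := by exact_mod_cast a2
    omega
  · have a := f2 k k'
    rw [TFRAMEA.expand hobt hW (fun i => m1 _ (e1 i).1) e2 (m2 _ (f1 k).1), sum_dotProduct] at a
    simp only [smul_dotProduct, smul_eq_mul, dotProduct_comm (f k), hC] at a
    have b : ((C k ⬝ᵥ C k' : ℤ) : ℝ) = 2 * ∑ i, (C k i : ℝ) / 2 * C k' i := by
      rw [Finset.mul_sum, dotProduct]
      push_cast
      exact Finset.sum_congr rfl fun i _ => by ring
    rw [a] at b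
    split_ifs at b ⊢
    · exact_mod_cast (by rw [b]; norm_num : ((C k ⬝ᵥ C k' : ℤ) : ℝ) = 4)
    · exact_mod_cast (by rw [b]; norm_num : ((C k ⬝ᵥ C k' : ℤ) : ℝ) = 0)

end Pool.Agent.P.MP_22b27c_co
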