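import Pool.Agent.P.MP_22b27c_co.Iface

/-!
Gluing a line to a lattice in order to change the discriminant.
-/

namespace Pool.Agent.P.MP_22b27c_co

open Module Finset
open scoped Classical Real Matrix

noncomputable section

namespace TGLUEA

/-- The lattice generated by the embedded lattice and two more vectors. -/
def gl {n : ℕ} (M : Lat n) (g v : Fin (n + 1) → ℝ) : Lat (n + 1) where
  carrier := {z | ∃ m ∈ M, ∃ k l : ℤ, z = emb n m + (k : ℝ) • g + (l : ℝ) • v}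
  add_mem' := by
    rintro _ _ ⟨m, hm, k, l, rfl⟩ ⟨m', hm', k', l', rfl⟩
    refine ⟨m + m', M.add_mem hm hm', k + k', l + l', ?_⟩
    rw [map_add]; push_cast; module
  zero_mem' := ⟨0, M.zero_mem, 0, 0, by simp⟩
  neg_mem' := by
    rintro _ ⟨m, hm, k, l, rfl⟩
    refine ⟨-m, M.neg_mem hm, -k, -l, ?_⟩
    rw [map_neg]; push_cast; module

lemma mem_gl {n : ℕ} {M : Lat n} {g v z : Fin (n + 1) → ℝ} :
    z ∈ gl M g v ↔ ∃ m ∈ M, ∃ k l : ℤ, z = emb n m + (k : ℝ) • g + (l : ℝ) • v := Iff.rfl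

lemma emb_mem {n : ℕ} {M : Lat n} {g v : Fin (n + 1) → ℝ} {m : Fin n → ℝ} (hm : m ∈ M) :
    emb n m ∈ gl M g v := ⟨m, hm, 0, 0, by simp⟩

lemma g_mem {n : ℕ} {M : Lat n} {g v : Fin (n + 1) → ℝ} : g ∈ gl M g v :=
  ⟨0, M.zero_mem, 1, 0, by simp⟩

lemma v_mem {n : ℕ} {M : Lat n} {g v : Fin (n + 1) → ℝ} : v ∈ gl M g v :=
  ⟨0, M.zero_mem, 0, 1, by simp⟩

lemma dual_gl {n : ℕ} {M : Lat n} {g v w : Fin (n + 1) → ℝ}
    (h1 : ∀ m ∈ M, IsZ (w ⬝ᵥ emb n m)) (h2 : IsZ (w ⬝ᵥ g)) (h3 : IsZ (w ⬝ᵥ v)) :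
    InDual (gl M g v) w := by
  rintro _ ⟨m, hm, k, l, rfl⟩
  rw [dotProduct_add, dotProduct_add, dotProduct_smul, dotProduct_smul, smul_eq_mul, smul_eq_mul]
  exact ((h1 m hm).add ((IsZ.intCast k).mul h2)).add ((IsZ.intCast l).mul h3)

lemma isZ_of_eq {x : ℝ} (k : ℤ) (h : x = k) : IsZ x := ⟨k, h⟩

end TGLUEA

open TGLUEA in
theorem k_glue : S_GLUE := by
  intro n M y₁ y₂ D₁ D₂ a₁ a₂ N c h hN hdiv
  obtain ⟨e, he⟩ := hdiv
  obtain ⟨u, u', hu⟩ := h.c1
  have hD : (0 : ℝ) < D₁ := by exact_mod_cast h.p1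
  have hN' : (0 : ℝ) < N := by exact_mod_cast hN
  have heR : (a₁ : ℝ) + (c : ℝ) ^ 2 * N = D₁ * e := by exact_mod_cast he
  have huR : (u : ℝ) * a₁ + u' * D₁ = 1 := by exact_mod_cast hu
  obtain ⟨s, hs0, hs⟩ : ∃ s : ℝ, 0 < s ∧ s * s = D₁ * N :=
    ⟨Real.sqrt (D₁ * N), Real.sqrt_pos.2 (by positivity), Real.mul_self_sqrt (by positivity)⟩
  have hn1 := h.n1
  set v : Fin (n + 1) → ℝ := Matrix.vecCons s 0 with hv
  set g : Fin (n + 1) → ℝ := Matrix.vecCons (c * s / D₁) y₁ with hg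
  set y : Fin (n + 1) → ℝ := Matrix.vecCons (s / N) 0 with hy
  have hvv : v ⬝ᵥ v = ((D₁ * N : ℤ) : ℝ) := by
    rw [hv, cons_dot, zero_dotProduct]; push_cast; linarith
  have hgv : g ⬝ᵥ v = ((c * N : ℤ) : ℝ) := by
    rw [hv, hg, cons_dot, dotProduct_zero]; push_cast
    field_simp
    linear_combination (c : ℝ) * hs
  have hgg : g ⬝ᵥ g = (e : ℝ) := by
    rw [hg, cons_dot]
    field_simp
    linear_combination (c : ℝ) ^ 2 * hs + D₁ * hn1 + D₁ * heR
  have hyv : y ⬝ᵥ v = ((D₁ : ℤ) : ℝ) := by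
    rw [hv, hy, cons_dot, dotProduct_zero]; push_cast
    field_simp
    linear_combination hs
  have hyg : y ⬝ᵥ g = (c : ℝ) := by
    rw [hg, hy, cons_dot, zero_dotProduct]
    field_simp
    linear_combination (c : ℝ) * hs
  have hev : ∀ m, emb n m ⬝ᵥ v = 0 := fun m => by
    rw [hv, emb_apply, cons_dot, dotProduct_zero]; ring
  have heg : ∀ m, emb n m ⬝ᵥ g = y₁ ⬝ᵥ m := fun m => by
    rw [hg, emb_apply, cons_dot, dotProduct_comm]; ring
  have hye : ∀ m, y ⬝ᵥ emb n m = 0 := fun m => by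
    rw [hy, emb_apply, cons_dot, zero_dotProduct]; ring
  have d_e : ∀ m, InDual M m → IsZ (y₁ ⬝ᵥ m) → InDual (gl M g v) (emb n m) := fun m hm h1 =>
    dual_gl (fun m' hm' => by rw [emb_dot]; exact hm m' hm') (by rw [heg]; exact h1)
      (by rw [hev]; exact IsZ.zero)
  have d_g : InDual (gl M g v) g :=
    dual_gl (fun m hm => by rw [dotProduct_comm, heg]; exact h.d1 m hm) (isZ_of_eq _ hgg)
      (isZ_of_eq _ hgv)
  have d_v : InDual (gl M g v) v :=
    dual_gl (fun m _ => by rw [dotProduct_comm, hev]; exact IsZ.zero)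
      (by rw [dotProduct_comm]; exact isZ_of_eq _ hgv) (isZ_of_eq _ hvv)
  have d_m : ∀ m ∈ M, InDual (gl M g v) (emb n m) := fun m hm =>
    d_e m (fun x hx => h.int m hm x hx) (h.d1 m hm)
  have d_2 : InDual (gl M g v) (emb n y₂) := d_e y₂ h.d2 h.o
  refine ⟨gl M g v, y, ⟨?_, ?_, d_2, hN, h.p2, ?_, ?_, ?_, ?_, ?_, h.c2, ?_, ?_⟩,
    fun x hx => emb_mem hx⟩
  · rintro _ ⟨m, hm, k, l, rfl⟩
    have : emb n m + (k : ℝ) • g + (l : ℝ) • v ∈ dualLat (gl M g v) :=
      (dualLat _).add_mem ((dualLat _).add_mem (d_m m hm) (zsmul_mem' (M := dualLat _) d_g k))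
        (zsmul_mem' (M := dualLat _) d_v l)
    exact this
  · exact dual_gl (fun m _ => by rw [hye]; exact IsZ.zero) (isZ_of_eq _ hyg) (isZ_of_eq _ hyv)
  · have : (N : ℝ) • y = v := by
      rw [hy, hv, Matrix.smul_cons, smul_zero, smul_eq_mul, mul_div_cancel₀ _ hN'.ne']
    rw [this]; exact v_mem
  · rw [← map_smul]; exact emb_mem h.m2
  · rw [hy, cons_dot, zero_dotProduct]; push_cast
    field_simp
    linear_combination hs
  · rw [emb_dot]; exact h.n2
  · exact ⟨u * e + u', -(u * c ^ 2), by linear_combination hu - u * he⟩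
  · rw [hye]; exact IsZ.zero
  · intro w hw
    obtain ⟨w0, w', rfl⟩ : ∃ w0 w', w = Matrix.vecCons w0 w' :=
      ⟨w 0, Matrix.vecTail w, (Matrix.cons_head_tail w).symm⟩
    have hw' : InDual M w' := fun m hm => by
      have := hw _ (emb_mem (g := g) (v := v) hm)
      rwa [emb_apply, cons_dot, mul_zero, zero_add] at this
    obtain ⟨c₁, c₂, hm⟩ := h.gen w' hw'
    set m := w' - (c₁ : ℝ) • y₁ - (c₂ : ℝ) • y₂ with hmdef
    set t : ℝ := w0 - c₁ * (c * s / D₁) with ht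
    have key : Matrix.vecCons w0 w' - (c₁ : ℝ) • g - (c₂ : ℝ) • emb n y₂ - emb n m
        = Matrix.vecCons t 0 := by
      rw [hg, emb_apply, emb_apply, hmdef, ht]
      ext i
      refine Fin.cases ?_ (fun j => ?_) i <;> simp
    have hdual : InDual (gl M g v) (Matrix.vecCons t 0) := by
      rw [← key]
      have : Matrix.vecCons w0 w' - (c₁ : ℝ) • g - (c₂ : ℝ) • emb n y₂ - emb n m
          ∈ dualLat (gl M g v) :=
        (dualLat _).sub_mem ((dualLat _).sub_mem ((dualLat _).sub_mem hw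
          (zsmul_mem' (M := dualLat _) d_g c₁)) (zsmul_mem' (M := dualLat _) d_2 c₂)) (d_m m hm)
      exact this
    obtain ⟨A, hA⟩ := hdual v v_mem
    obtain ⟨B, hB⟩ := hdual g g_mem
    rw [hv, cons_dot, zero_dotProduct, add_zero] at hA
    rw [hg, cons_dot, zero_dotProduct, add_zero] at hB
    have hB' : t * c * s = B * D₁ := by
      rw [← hB]; field_simp
    have hE : t * s = (((u * e + u') * A - u * c * N * B : ℤ) : ℝ) * D₁ := by
      push_cast
      linear_combination (-(t * s)) * huR + (u * e + u') * D₁ * hA - u * c * N * hB'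
        + u * t * s * heR
    refine ⟨(u * e + u') * A - u * c * N * B, c₂, m, hm, c₁, 0, ?_⟩
    generalize (u * e + u') * A - u * c * N * B = E at hE ⊢
    have hE' : Matrix.vecCons t (0 : Fin n → ℝ) = (E : ℝ) • y := by
      rw [hy, Matrix.smul_cons, smul_zero, smul_eq_mul]
      congr 1
      have h1 : t * s * N = E * s * s := by linear_combination (N : ℝ) * hE - E * hs
      field_simp
      apply mul_right_cancel₀ hs0.ne'
      linear_combination h1
    rw [hE'] at key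
    rw [← key]
    push_cast
    module

end

end Pool.Agent.P.MP_22b27c_co
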