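import Pool.Agent.P.MP_22b27c_co.Iface

/-! Vectors in a subspace of small dimension have a model in coordinates. -/

namespace Pool.Agent.P.MP_22b27c_co

open Module Finset
open scoped Classical Real Matrix

namespace TGRAMA

theorem pad {d n : ℕ} (h : d ≤ n) (x y : Fin d → ℝ) :
    (fun i : Fin n => if k : i.val < d then x ⟨i, k⟩ else 0) ⬝ᵥ
      (fun i : Fin n => if k : i.val < d then y ⟨i, k⟩ else 0) = ∑ i, x i * y i := by
  obtain ⟨m, rfl⟩ := Nat.exists_eq_add_of_le h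
  rw [dotProduct, Fin.sum_univ_add]
  simp

end TGRAMA

open TGRAMA in
theorem k_gram : S_GRAM := by
  intro κ ι _ n s v ⟨W, hW, hv⟩
  let e := (WithLp.linearEquiv 2 ℝ (ι → ℝ)).symm
  let W' : Submodule ℝ (EuclideanSpace ℝ ι) := W.map (e : (ι → ℝ) →ₗ[ℝ] EuclideanSpace ℝ ι)
  have hd : finrank ℝ W' ≤ n := (LinearEquiv.finrank_map_eq e W).trans_le hW
  let b := stdOrthonormalBasis ℝ W'
  refine ⟨fun a i => if k : i.val < finrank ℝ W' then
    inner ℝ (b ⟨i, k⟩ : EuclideanSpace ℝ ι) (e (v a)) else 0, fun a ha a' ha' => ?_⟩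
  rw [pad hd (fun i => inner ℝ (b i : EuclideanSpace ℝ ι) (e (v a)))
    fun i => inner ℝ (b i : EuclideanSpace ℝ ι) (e (v a'))]
  have k := b.sum_inner_mul_inner ⟨e (v a), Submodule.mem_map_of_mem (hv a ha)⟩
    ⟨e (v a'), Submodule.mem_map_of_mem (hv a' ha')⟩
  simp only [Submodule.coe_inner] at k
  refine (Finset.sum_congr rfl fun i _ => by rw [real_inner_comm]).trans (k.trans ?_)
  rw [EuclideanSpace.inner_eq_star_dotProduct, dotProduct_comm]
  simp [e]

end Pool.Agent.P.MP_22b27c_co
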