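import Pool.Agent.P.MP_22b27c_co.Iface

/-! Grouping a theta series by the norm. -/

namespace Pool.Agent.P.MP_22b27c_co

open Module Finset
open scoped Classical Real Matrix

namespace TGRPA

lemma fib {ι : Type} (N : ι → ℕ) (f : ℕ → ℝ) (h : Summable fun i => f (N i)) :
    HasSum (fun k => ((N ⁻¹' {k}).ncard : ℝ) * f k) (∑' i, f (N i)) := by
  have h1 := h.hasSum.tsum_fiberwise N
  have e' : (fun k => ((N ⁻¹' {k}).ncard : ℝ) * f k) = fun k => ∑' i : N ⁻¹' {k}, f (N i) := by
    funext k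
    have e : ∀ i : N ⁻¹' {k}, f (N i) = f k := fun i => by rw [show N i = k from i.2]
    rw [tsum_congr e, tsum_const, Nat.card_coe_set_eq, nsmul_eq_mul]
  rw [e']
  exact h1

lemma sh_eq {n : ℕ} (U : Lat n) (a : Fin n → ℝ) (k : ℕ) :
    sh U a k = (fun u : U => u.1 + a) '' {u : U | (u.1 + a) ⬝ᵥ (u.1 + a) = k} := by
  ext s
  constructor
  · rintro ⟨h1, h2⟩
    exact ⟨⟨s - a, h1⟩, by simpa only [Set.mem_ofPred_eq, sub_add_cancel] using h2, by simp⟩
  · rintro ⟨u, h1, rfl⟩
    exact ⟨by simp, h1⟩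

lemma inj {n : ℕ} (U : Lat n) (a : Fin n → ℝ) : Function.Injective fun u : U => u.1 + a :=
  fun _ _ h => Subtype.ext (add_right_cancel h)

end TGRPA

open TGRPA in
theorem k_grp : S_GRP := by
  intro n U a hs
  refine ⟨fun k => ?_, fun hz => ?_⟩
  · rw [sh_eq]
    refine Set.Finite.image _ ?_
    have h1 := (hs 1 one_pos).tendsto_cofinite_zero
    have h2 := h1.eventually (gt_mem_nhds (Real.exp_pos (-π * 1 * k)))
    refine (Filter.eventually_cofinite.1 h2).subset fun u hu => ?_
    have hu' : (u.1 + a) ⬝ᵥ (u.1 + a) = k := hu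
    simp only [Set.mem_ofPred_eq, hu', lt_irrefl, not_false_eq_true]
  · set N : U → ℕ := fun u => ⌊(u.1 + a) ⬝ᵥ (u.1 + a)⌋₊ with hN
    have hc : ∀ u : U, (u.1 + a) ⬝ᵥ (u.1 + a) = N u := fun u => by
      obtain ⟨m, hm⟩ := hz u.1 u.2
      have h0 : 0 ≤ (u.1 + a) ⬝ᵥ (u.1 + a) := Finset.sum_nonneg fun i _ => mul_self_nonneg _
      rw [hm] at h0
      obtain ⟨m', rfl⟩ := Int.eq_ofNat_of_zero_le (by exact_mod_cast h0 : 0 ≤ m)
      simp only [hN, hm, Int.cast_natCast, Nat.floor_natCast]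
    have hcnt : ∀ k, cnt U a k = ((N ⁻¹' {k}).ncard : ℝ) := fun k => by
      rw [cnt, sh_eq, Set.ncard_image_of_injective _ (inj U a)]
      congr 2
      ext u
      simp only [Set.mem_ofPred_eq, hc u, Nat.cast_inj, Set.mem_preimage, Set.mem_singleton_iff]
    have main : ∀ g : ℕ → ℝ, (∀ k, |g k| ≤ 1) → ∀ t : ℝ, 0 < t →
        HasSum (fun k : ℕ => g k * cnt U a k * Real.exp (-π * t * k))
          (∑' u : U, g (N u) * Real.exp (-π * t * N u)) := fun g hg t ht => by
      have h1 : Summable fun u : U => g (N u) * Real.exp (-π * t * N u) := by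
        refine Summable.of_norm_bounded (hs t ht) fun u => ?_
        rw [hc u, Real.norm_eq_abs, abs_mul, abs_of_pos (Real.exp_pos _)]
        exact mul_le_of_le_one_left (Real.exp_pos _).le (hg _)
      convert fib N (fun k => g k * Real.exp (-π * t * k)) h1 using 2 with k
      rw [hcnt]; ring
    have pos : ∀ x : ℝ, 0 < x → x < 1 → Summable fun k => |cnt U a k| * x ^ k := fun x h0 h1 => by
      have ht : 0 < -Real.log x / π := div_pos (neg_pos.2 (Real.log_neg h0 h1)) Real.pi_pos
      refine (main (fun _ => 1) (by simp) _ ht).summable.congr fun k => ?_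
      have e : -π * (-Real.log x / π) * k = k * Real.log x := by
        field_simp
      rw [e, Real.exp_nat_mul, Real.exp_log h0, one_mul, abs_of_nonneg (Nat.cast_nonneg _)]
    refine ⟨fun x h0 h1 => ?_, fun g g' hg hg' t ht => ?_⟩
    · rcases h0.eq_or_lt with rfl | h0
      · refine (pos (1 / 2) (by norm_num) (by norm_num)).of_nonneg_of_le (fun k => by positivity)
          fun k => mul_le_mul_of_nonneg_left (pow_le_pow_left₀ le_rfl (by norm_num) k) (abs_nonneg _)
      · exact pos x h0 h1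
    · rw [SS, (main g hg t ht).tsum_eq]
      exact tsum_congr fun u => by rw [hg' u (N u) (hc u), ← hc u]

end Pool.Agent.P.MP_22b27c_co
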