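import Pool.Agent.P.MP_22b27c_co.Iface

/-! Integer configurations supported on nine coordinates. -/

namespace Pool.Agent.P.MP_22b27c_co

open Module Finset
open scoped Classical Real Matrix

namespace TJ9A

lemma fibre (hrt1 : S_RT1) {Z : Finset (Fin 12)} {S : Finset (Fin 12 → ℤ)} (hZ : Z.card = 9)
    (h1 : ∀ x ∈ S, supp x ⊆ Z) (h2 : ∀ x ∈ S, x ⬝ᵥ x = 4)
    (h3 : ∀ x ∈ S, ∀ y ∈ S, x ≠ y → x ⬝ᵥ y ≤ 2) {i j : Fin 12} {a b : ℤ} (hi : i ∈ Z)
    (hj : j ∈ Z) (hij : i ≠ j) (hab : a * a + b * b = 2) (h4 : ∀ x ∈ S, x i = a ∧ x j = b) :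
    S.card ≤ 12 := by
  have k1 : ∀ x ∈ S, ∀ y ∈ S, res ({i, j} : Finset (Fin 12))ᶜ x ⬝ᵥ res {i, j}ᶜ y = x ⬝ᵥ y - 2 := by
    intro x hx y hy
    have e : res {i, j} x ⬝ᵥ res {i, j} y = ∑ k ∈ ({i, j} : Finset (Fin 12)), x k * y k := by
      rw [← Finset.univ_inter ({i, j} : Finset (Fin 12)), ← Finset.sum_ite_mem, Finset.univ_inter]
      refine Finset.sum_congr rfl fun k _ => ?_
      unfold res
      split_ifs <;> simp
    rw [Finset.sum_pair hij, (h4 x hx).1, (h4 x hx).2, (h4 y hy).1, (h4 y hy).2] at e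
    rw [dot_split {i, j} x y, e]
    omega
  have k2 : Set.InjOn (res ({i, j} : Finset (Fin 12))ᶜ) S := by
    intro x hx y hy e
    by_contra h
    have a1 := k1 x hx y hy
    have a2 := k1 x hx x hx
    have a3 := h3 x hx y hy h
    rw [← e, a2, h2 x hx] at a1
    omega
  have := hrt1 ((Z.erase i).erase j) (S.image (res {i, j}ᶜ)) ?_ ?_ ?_
  · rwa [Finset.card_image_of_injOn k2, Finset.card_erase_of_mem (by simp [hj, hij.symm]),
      Finset.card_erase_of_mem hi, hZ] at this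
  · simp only [Finset.forall_mem_image]
    intro x hx
    rw [k1 x hx x hx, h2 x hx]
    rfl
  · simp only [Finset.forall_mem_image]
    intro x hx k hk
    rw [mem_supp, res] at hk
    split_ifs at hk with h
    · simp only [Finset.mem_compl, Finset.mem_insert, Finset.mem_singleton, not_or] at h
      exact Finset.mem_erase.2 ⟨h.2, Finset.mem_erase.2 ⟨h.1, h1 x hx (mem_supp.2 hk)⟩⟩
    · exact absurd rfl hk
  · simp only [Finset.forall_mem_image]
    intro x hx y hy h
    have := h3 x hx y hy fun e => h (by rw [e])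
    rw [k1 x hx y hy]
    omega

end TJ9A

theorem k_j9 (hrt1 : S_RT1) : S_J9 := by
  intro Z X hZ h1 h2 h3
  have c1 : (X.filter fun x => ¬ (Tri x ∧ (supp x).card = 4)).card ≤ 18 := by
    have : (X.filter fun x => ¬ (Tri x ∧ (supp x).card = 4)) ⊆
        (Z ×ˢ ({2, -2} : Finset ℤ)).image fun q => Pi.single q.1 q.2 := by
      intro x hx
      obtain ⟨hx, ht⟩ := Finset.mem_filter.1 hx
      obtain ⟨i, hi⟩ := (shape4 (h2 x hx)).resolve_right ht
      have hiZ : i ∈ Z := h1 x hx (mem_supp.2 (by rcases hi with rfl | rfl <;> simp))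
      rcases hi with rfl | rfl
      · exact Finset.mem_image.2 ⟨(i, 2), by simp [hiZ], rfl⟩
      · exact Finset.mem_image.2 ⟨(i, -2), by simp [hiZ], rfl⟩
    refine (Finset.card_le_card this).trans (Finset.card_image_le.trans ?_)
    rw [Finset.card_product, hZ]
    rfl
  have c2 : (X.filter fun x => Tri x ∧ (supp x).card = 4).card * 12 ≤
      (Z.offDiag ×ˢ (({1, -1} : Finset ℤ) ×ˢ ({1, -1} : Finset ℤ))).card * 12 := by
    refine Finset.card_mul_le_card_mul (fun x q => x q.1.1 = q.2.1 ∧ x q.1.2 = q.2.2)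
      (fun x hx => ?_) fun q hq => ?_
    · obtain ⟨hx, ht, hc⟩ := Finset.mem_filter.1 hx
      have e : (supp x).offDiag.card = 12 := by rw [Finset.offDiag_card, hc]
      have s : ∀ k ∈ supp x, x k ∈ ({1, -1} : Finset ℤ) := fun k hk => by
        have := mem_supp.1 hk
        rcases ht k with h | h | h <;> simp_all
      refine e.ge.trans (Finset.card_le_card_of_injOn (fun p => (p, (x p.1, x p.2)))
        (fun p hp => ?_) fun p _ p' _ h => congrArg Prod.fst h)
      obtain ⟨a1, a2, a3⟩ := Finset.mem_offDiag.1 hp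
      exact Finset.mem_coe.2 (Finset.mem_filter.2 ⟨Finset.mem_product.2 ⟨Finset.mem_offDiag.2
        ⟨h1 x hx a1, h1 x hx a2, a3⟩, Finset.mem_product.2 ⟨s _ a1, s _ a2⟩⟩, rfl, rfl⟩)
    · obtain ⟨q1, q2⟩ := Finset.mem_product.1 hq
      obtain ⟨a1, a2, a3⟩ := Finset.mem_offDiag.1 q1
      obtain ⟨b1, b2⟩ := Finset.mem_product.1 q2
      have m : ∀ x ∈ (X.filter fun x => Tri x ∧ (supp x).card = 4).bipartiteBelow
          (fun x (q : (Fin 12 × Fin 12) × ℤ × ℤ) => x q.1.1 = q.2.1 ∧ x q.1.2 = q.2.2) q,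
          x ∈ X := fun x hx => (Finset.mem_filter.1 (Finset.mem_filter.1 hx).1).1
      refine TJ9A.fibre hrt1 hZ (fun x hx => h1 x (m x hx)) (fun x hx => h2 x (m x hx))
        (fun x hx y hy => h3 x (m x hx) y (m y hy)) a1 a2 a3 (a := q.2.1) (b := q.2.2) ?_
        fun x hx => (Finset.mem_filter.1 hx).2
      simp only [Finset.mem_insert, Finset.mem_singleton] at b1 b2
      rcases b1 with b1 | b1 <;> rcases b2 with b2 | b2 <;> rw [b1, b2] <;> rfl
  rw [Finset.card_product, Finset.offDiag_card, hZ,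
    show (({1, -1} : Finset ℤ) ×ˢ ({1, -1} : Finset ℤ)).card = 4 from rfl] at c2
  have c3 := Finset.card_filter_add_card_filter_not (s := X) fun x => Tri x ∧ (supp x).card = 4
  omega

end Pool.Agent.P.MP_22b27c_co
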