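import Pool.Agent.P.MP_22b27c_co.Iface

/-! The kinds of contacts of a vector with four nonzero coordinates. -/

namespace Pool.Agent.P.MP_22b27c_co

open Module Finset
open scoped Classical Real Matrix

namespace TKINDA

variable {V : Submodule ℝ (Fin 12 → ℝ)} {x y : Fin 12 → ℤ}

theorem dot_eq (hx : Tri x) (hy : Tri y) : x ⬝ᵥ y =
    (((supp x).filter fun i => y i = x i).card : ℤ) - ((supp x).filter fun i => y i = -x i).card := by
  rw [supp, filter_filter, filter_filter, card_filter, card_filter]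
  push_cast
  rw [← sum_sub_distrib]
  refine sum_congr rfl fun i _ => ?_
  rcases hx i with h | h | h <;> rcases hy i with h' | h' | h' <;> simp [h, h']

theorem three {a b c : Fin 12} (ab : a ≠ b) (ac : a ≠ c) (bc : b ≠ c) (ha : x a ≠ 0)
    (h1 : rc (res {a, b} x) ∈ V) (h2 : rc (res {a, c} x) ∈ V) (h3 : rc (res {b, c} x) ∈ V) :
    a ∈ Zs V := by
  have e : res {a, b} x + res {a, c} x - res {b, c} x = Pi.single a (2 * x a) := by
    ext i
    by_cases ia : i = a
    · subst ia
      simp [res, ab, ac, two_mul]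
    by_cases ib : i = b
    · subst ib
      simp [res, ia, bc]
    by_cases ic : i = c
    · subst ic
      simp [res, ia, ib]
    simp [res, ia, ib, ic]
  refine mem_Zs_of_single (c := 2 * x a) (by omega) ?_
  rw [← e, rc_sub, rc_add]
  exact V.sub_mem (V.add_mem h1 h2) h3

end TKINDA

open TKINDA in
theorem k_kind : S_KIND := by
  intro V x y hx hy tx nx ny xy ht
  have h4 : (supp x).card = 4 := by
    have := tx.dot_self
    omega
  rcases shape4 ny with ⟨i, h⟩ | ⟨ty, -⟩
  · left
    obtain ⟨c, hc, rfl⟩ : ∃ c : ℤ, (c = 2 ∨ c = -2) ∧ y = Pi.single i c :=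
      h.elim (fun h => ⟨_, Or.inl rfl, h⟩) fun h => ⟨_, Or.inr rfl, h⟩
    rw [dotProduct_single] at xy
    have : x i ≠ 0 ∧ c = 2 * x i := by
      rcases hc with rfl | rfl <;> omega
    exact ⟨i, mem_inter.2 ⟨mem_supp.2 this.1, mem_Zs_of_single (by omega) hy⟩, by rw [this.2]⟩
  right
  rw [dot_eq tx ty] at xy
  set A := (supp x).filter fun i => y i = x i with hA
  set D := (supp x).filter fun i => y i = -x i with hD
  have sA : A ⊆ supp x := filter_subset _ _
  have mA : ∀ i ∈ A, y i = x i := fun i hi => (mem_filter.1 hi).2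
  have hle : A.card + D.card ≤ 4 := by
    rw [← card_union_of_disjoint, ← h4]
    · exact card_le_card (union_subset sA (filter_subset _ _))
    · refine disjoint_filter.2 fun i hi e e' => ?_
      have := mem_supp.1 hi
      omega
  by_cases c : A.card = 2
  · refine ⟨A, mem_powersetCard.2 ⟨sA, c⟩, mA, Or.inr fun i hi => ?_⟩
    obtain ⟨h1, h2⟩ := mem_sdiff.1 hi
    have h3 : i ∉ D := by
      rw [card_eq_zero.1 (show D.card = 0 by omega)]
      exact notMem_empty i
    have h5 : y i ≠ x i := fun e => h2 (mem_filter.2 ⟨h1, e⟩)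
    have h6 : y i ≠ -x i := fun e => h3 (mem_filter.2 ⟨h1, e⟩)
    have h7 := mem_supp.1 h1
    have h8 := tx i
    have h9 := ty i
    omega
  have c3 : A.card = 3 := by omega
  by_contra hn
  have all : ∀ a ∈ A, ∀ b ∈ A, a ≠ b → rc (res {a, b} x) ∈ V := by
    intro a ha b hb ab
    have s : ({a, b} : Finset (Fin 12)) ⊆ A := insert_subset ha (singleton_subset_iff.2 hb)
    by_contra k
    exact hn ⟨{a, b}, mem_powersetCard.2 ⟨s.trans sA, card_pair ab⟩, fun i hi => mA i (s hi),
      Or.inl k⟩
  have hZ : A ⊆ Zs V := by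
    obtain ⟨a, b, c, ab, ac, bc, e⟩ := card_eq_three.1 c3
    have ha : a ∈ A := by simp [e]
    have hb : b ∈ A := by simp [e]
    have hc : c ∈ A := by simp [e]
    rw [e]
    refine insert_subset ?_ (insert_subset ?_ (singleton_subset_iff.2 ?_))
    · exact three ab ac bc (mem_supp.1 (sA ha)) (all _ ha _ hb ab) (all _ ha _ hc ac)
        (all _ hb _ hc bc)
    · exact three ab.symm bc ac (mem_supp.1 (sA hb)) (all _ hb _ ha ab.symm) (all _ hb _ hc bc)
        (all _ ha _ hc ac)
    · exact three ac.symm bc.symm ab (mem_supp.1 (sA hc)) (all _ hc _ ha ac.symm)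
        (all _ hc _ hb bc.symm) (all _ ha _ hb ab)
  obtain ⟨d, hd⟩ := card_eq_one.1 (show (supp x \ A).card = 1 by
    rw [card_sdiff_of_subset sA]; omega)
  have md : ∀ i, i ∈ supp x ∧ i ∉ A ↔ i = d := fun i => by rw [← mem_sdiff, hd, mem_singleton]
  have e : res Aᶜ x = Pi.single d (x d) := by
    ext i
    by_cases k : i = d
    · subst k
      simp [res, ((md i).2 rfl).2]
    · have := mt (md i).1 k
      rw [mem_supp] at this
      by_cases k1 : i ∈ A
      · simp [res, k, k1]
      · have : x i = 0 := by tauto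
        simp [res, k, this]
  have hdZ : d ∈ Zs V :=
    mem_Zs_of_single (mem_supp.1 ((md d).2 rfl).1) (e ▸ res_compl_mem hx (res_mem hZ x))
  have : supp x ⊆ Zs V := fun i hi => by
    by_cases k : i ∈ A
    exacts [hZ k, (md i).1 ⟨hi, k⟩ ▸ hdZ]
  rw [tt, inter_eq_left.2 this] at ht
  omega

end Pool.Agent.P.MP_22b27c_co
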