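import Pool.Agent.P.MP_22b27c_co.Iface

/-!
The Laplacian of a power of the norm times a power of a linear form.
-/

namespace Pool.Agent.P.MP_22b27c_co

open Module Finset
open scoped Classical Real Matrix

namespace TLAPA

variable {A : Type} [CommRing A] [Algebra ℝ A]

lemma two (D : Derivation ℝ A A) {R l x c : A} (hR : D R = 2 * x) (hx : D x = 1) (hl : D l = c)
    (hc : D c = 0) (j m : ℕ) : D (D (R ^ j * l ^ m)) =
    2 * j * R ^ (j - 1) * l ^ m * 1 + 4 * j * (j - 1 : ℕ) * R ^ (j - 1 - 1) * l ^ m * x ^ 2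
      + 4 * j * m * R ^ (j - 1) * l ^ (m - 1) * (c * x)
      + m * (m - 1 : ℕ) * R ^ j * l ^ (m - 1 - 1) * (c * c) := by
  have h2 : D 2 = 0 := by simpa using D.map_natCast 2
  simp only [Derivation.leibniz, Derivation.leibniz_pow, map_add, hR, hx, hl, hc, h2, smul_eq_mul,
    nsmul_eq_mul, Derivation.map_natCast]
  ring

omit [Algebra ℝ A] in
lemma p1 (R : A) (j : ℕ) : (j : A) * (j - 1 : ℕ) * R ^ (j - 1 - 1) * R
    = j * (j - 1) * R ^ (j - 1) := by
  rcases j with _ | _ | j <;> simp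
  ring

omit [Algebra ℝ A] in
lemma p2 (l : A) (m : ℕ) : (m : A) * l ^ (m - 1) * l = m * l ^ m := by
  rcases m with _ | m <;> simp
  ring

omit [Algebra ℝ A] in
lemma p3 (m : ℕ) : (m : A) * (m - 1 : ℕ) = m * (m - 1) := by
  rcases m with _ | m <;> simp

end TLAPA

open MvPolynomial in
theorem k_lap : S_LAP := by
  intro n y j m
  have hR : ∀ i, pderiv i (∑ i, X i ^ 2 : MvPolynomial (Fin n) ℝ) = 2 * X i := fun i => by
    simp [map_sum, Derivation.leibniz_pow, pderiv_X, Pi.single_apply]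
  have hl : ∀ i, pderiv i (∑ i, C (y i) * X i : MvPolynomial (Fin n) ℝ) = C (y i) := fun i => by
    simp [map_sum, pderiv_X, Pi.single_apply]
  have hy : (C (y ⬝ᵥ y) : MvPolynomial (Fin n) ℝ) = ∑ i, C (y i) * C (y i) := by
    simp [dotProduct]
  simp only [fun i => TLAPA.two (pderiv i) (hR i) (pderiv_X_self i) (hl i) pderiv_C j m,
    Finset.sum_add_distrib, ← Finset.mul_sum, ← hy]
  generalize (∑ i, X i ^ 2 : MvPolynomial (Fin n) ℝ) = R
  generalize (∑ i, C (y i) * X i : MvPolynomial (Fin n) ℝ) = l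
  have h2 : (C 2 : MvPolynomial (Fin n) ℝ) = 2 := rfl
  simp only [map_mul, map_add, map_sub, map_natCast, map_one, h2, Finset.sum_const, card_univ,
    Fintype.card_fin, nsmul_eq_mul, Nat.sub_sub]
  have a1 := TLAPA.p1 R j
  have a2 := TLAPA.p2 l m
  have a3 := TLAPA.p3 (A := MvPolynomial (Fin n) ℝ) m
  rw [Nat.sub_sub] at a1
  linear_combination 4 * l ^ m * a1 + 4 * j * R ^ (j - 1) * a2
    + R ^ j * l ^ (m - 2) * C (y ⬝ᵥ y) * a3

end Pool.Agent.P.MP_22b27c_co
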