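import Pool.Agent.P.MP_22b27c_co.Iface

/-! The case of at most five coordinate axes. -/

namespace Pool.Agent.P.MP_22b27c_co

open Module Finset
open scoped Classical Real Matrix

namespace TLOWA

theorem filt (X : Finset (Fin 12 → ℤ)) (x : Fin 12 → ℤ) :
    (X.filter fun y => rc x ⬝ᵥ rc y = 2).card = cont X x := by
  rw [cont]
  congr 1
  refine Finset.filter_congr fun y _ => ?_
  rw [rc_dot]
  exact_mod_cast Iff.rfl

theorem supp_single {i : Fin 12} {c : ℤ} {Z : Finset (Fin 12)} (h : i ∈ Z) :
    supp (Pi.single i c) ⊆ Z := fun j hj => by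
  by_cases e : j = i
  · rwa [e]
  · exact absurd (Pi.single_eq_of_ne e c) (mem_supp.1 hj)

end TLOWA

theorem k_low (hc75 : S_C75) (hcov : S_COV) (hcas0 : S_CAS0) (hcas1 : S_CAS1) (had : S_AD)
    (hlpc : S_LPC) : S_LOW := by
  intro V X C hz
  have key : ∀ x ∈ X, cont X x ≤ 50 + ((if supp x ⊆ Zs V then 25 else 0)
      + if tt V x = 0 then 4 * (Zs V).card - 2 else 0) := by
    intro x hx
    by_cases hs : supp x ⊆ Zs V
    · have := hc75 _ _ X rc C.code.1 C.code.2 x hx
      rw [TLOWA.filt] at this
      rw [if_pos hs]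
      omega
    · rw [if_neg hs]
      obtain ⟨i, e | e⟩ | ⟨ht, h4⟩ := shape4 (C.nrm x hx)
      · exact absurd (e ▸ TLOWA.supp_single (mem_Zs_of_single (c := 2) (by norm_num)
          (e ▸ C.mem x hx))) hs
      · exact absurd (e ▸ TLOWA.supp_single (mem_Zs_of_single (c := -2) (by norm_num)
          (e ▸ C.mem x hx))) hs
      · have a1 : tt V x < 4 := by
          by_contra k
          refine hs (Finset.inter_eq_left.1 (Finset.eq_of_subset_of_card_le inter_subset_left ?_))
          rw [tt] at k
          omega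
        have a2 := hcov V X x C hx ht a1
        obtain ⟨a3, a4⟩ := hcas1 V x (C.mem x hx) ht h4
        by_cases h0 : tt V x = 0
        · have a5 := hcas0 V x (C.mem x hx) ht h4 h0
          rw [if_pos h0]
          omega
        · have a5 := a4 (by omega) hz
          omega
  have s := Finset.sum_le_sum key
  rw [Finset.sum_add_distrib, Finset.sum_add_distrib, ← Finset.sum_filter, ← Finset.sum_filter,
    Finset.sum_const, Finset.sum_const, Finset.sum_const, smul_eq_mul, smul_eq_mul,
    smul_eq_mul] at s
  obtain ⟨b1, b2⟩ := had V X C (by omega)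
  have l := hlpc _ _ X rc C.code.1 C.code.2
  simp only [TLOWA.filt] at l
  have t : ∑ x ∈ X, cont X x ≤ 50 * X.card + 1575 := by
    generalize (Zs V).card = z at *
    interval_cases z <;> simp only [L4, Nat.reduceSub, Nat.reduceMul, Nat.reduceLeDiff,
      forall_const, nonpos_iff_eq_zero, one_ne_zero, false_imp_iff, le_refl] at b1 b2 s <;> omega
  by_contra k
  have k' : 307 ≤ X.card := by omega
  nlinarith

end Pool.Agent.P.MP_22b27c_co
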