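import Pool.Agent.P.MP_22b27c_co.Iface

/-!
Linear programming bounds.
-/

namespace Pool.Agent.P.MP_22b27c_co

open Module Finset
open scoped Classical Real Matrix

namespace TLPA

variable {κ ι : Type} [Fintype ι]

lemma sum_poly (s : Finset κ) (v : κ → ι → ℝ) (c0 c1 c2 c3 c4 : ℝ) (f : ℝ → ℝ)
    (hf : ∀ t, f t = t ^ 5 + c4 * t ^ 4 + c3 * t ^ 3 + c2 * t ^ 2 + c1 * t ^ 1 + c0) :
    ∑ a ∈ s, ∑ a' ∈ s, f (v a ⬝ᵥ v a') = Mo s v 5 + c4 * Mo s v 4 + c3 * Mo s v 3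
      + c2 * Mo s v 2 + c1 * Mo s v 1 + c0 * (s.card : ℝ) ^ 2 := by
  simp only [hf, Mo, Finset.sum_add_distrib, Finset.mul_sum, Finset.sum_const, nsmul_eq_mul]
  ring

lemma sum_le (s : Finset κ) (v : κ → ι → ℝ) (f : ℝ → ℝ) {r : ℝ} (hn : ∀ a ∈ s, v a ⬝ᵥ v a = r)
    (h : ∀ a ∈ s, ∀ a' ∈ s, a ≠ a' → f (v a ⬝ᵥ v a') ≤ 0) :
    ∑ a ∈ s, ∑ a' ∈ s, f (v a ⬝ᵥ v a') ≤ s.card * f r := by
  rw [← nsmul_eq_mul, ← Finset.sum_const]
  refine Finset.sum_le_sum fun a ha => ?_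
  rw [← Finset.add_sum_erase s _ ha, hn a ha]
  have : ∑ a' ∈ s.erase a, f (v a ⬝ᵥ v a') ≤ 0 :=
    Finset.sum_nonpos fun a' ha' =>
      h a ha a' (Finset.mem_of_mem_erase ha') (Finset.ne_of_mem_erase ha').symm
  linarith

lemma pair_nonneg {t : ℝ} (ht : IsZ t) (a : ℤ) : 0 ≤ (t - a) * (t - a - 1) := by
  obtain ⟨k, rfl⟩ := ht
  have : (0 : ℤ) ≤ (k - a) * (k - a - 1) := by
    rcases le_or_gt (k - a) 0 with h | h
    · exact mul_nonneg_of_nonpos_of_nonpos h (by omega)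
    · exact mul_nonneg (by omega) (by omega)
  exact_mod_cast this

/-- The basic inequality for a product polynomial. -/
lemma key {n : ℕ} {r b : ℝ} {s : Finset κ} {v : κ → ι → ℝ} (hc : Code n r b s v)
    (hi : IntIP s v) (a a' : ℤ) (c0 c1 c2 c3 c4 : ℝ)
    (hf : ∀ t : ℝ, (t - b) * (((t - a) * (t - a - 1)) * ((t - a') * (t - a' - 1)))
      = t ^ 5 + c4 * t ^ 4 + c3 * t ^ 3 + c2 * t ^ 2 + c1 * t ^ 1 + c0) :
    Mo s v 5 + c4 * Mo s v 4 + c3 * Mo s v 3 + c2 * Mo s v 2 + c1 * Mo s v 1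
      + c0 * (s.card : ℝ) ^ 2
      ≤ s.card * ((r - b) * (((r - a) * (r - a - 1)) * ((r - a') * (r - a' - 1)))) := by
  rw [← sum_poly s v c0 c1 c2 c3 c4 _ hf]
  refine sum_le s v (fun t => (t - b) * (((t - a) * (t - a - 1)) * ((t - a') * (t - a' - 1))))
    hc.nrm fun x hx y hy hxy => ?_
  exact mul_nonpos_of_nonpos_of_nonneg (sub_nonpos.2 (hc.le x hx y hy hxy))
    (mul_nonneg (pair_nonneg (hi x hx y hy) a) (pair_nonneg (hi x hx y hy) a'))

lemma fin {N L : ℕ} {c : ℝ} (h : (N : ℝ) ^ 2 ≤ c * N) (hc : c < L + 1) : N ≤ L := by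
  by_contra hn
  have h1 : ((L : ℝ) + 1) ≤ N := by exact_mod_cast Nat.succ_le_of_lt (not_le.1 hn)
  have h2 : (0 : ℝ) < N := lt_of_lt_of_le (by positivity) h1
  nlinarith

end TLPA

open TLPA

theorem k_lp4 (hmom : S_MOM) (hdim1 : S_DIM1) : S_LP4 := by
  intro κ ι _ n s v hn hc hi
  obtain ⟨m1, m2, m3, m4, m5⟩ := hmom κ ι n 4 s v hc.dim hc.nrm
  interval_cases n
  · exact hdim1 κ ι 4 2 s v (by norm_num) (by norm_num)
      ⟨hc.dim.mono (by norm_num) (Finset.Subset.refl _), hc.nrm, hc.le⟩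
  · exact hdim1 κ ι 4 2 s v (by norm_num) (by norm_num) hc
  · have h := key hc hi (-5) (-3) (-240) (-188) 12 43 12 (fun t => by push_cast; ring)
    refine fin (c := 6) ?_ (by norm_num [L4])
    push_cast at *
    linarith
  · have h := key hc hi (-4) (-2) (-48) (-76) (-20) 15 8 (fun t => by push_cast; ring)
    refine fin (c := 3150 / 239) ?_ (by norm_num [L4])
    push_cast at *
    linarith
  · have h := key hc hi (-4) (-1) 0 (-24) (-26) 3 6 (fun t => by push_cast; ring)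
    refine fin (c := 280 / 11) ?_ (by norm_num [L4])
    push_cast at *
    linarith
  · have h := key hc hi (-3) (-1) 0 (-12) (-16) (-1) 4 (fun t => by push_cast; ring)
    refine fin (c := 735 / 16) ?_ (by norm_num [L4])
    push_cast at *
    linarith
  · have h := key hc hi (-3) (-1) 0 (-12) (-16) (-1) 4 (fun t => by push_cast; ring)
    refine fin (c := 315 / 4) ?_ (by norm_num [L4])
    push_cast at *
    linarith
  · have h := key hc hi (-3) (-1) 0 (-12) (-16) (-1) 4 (fun t => by push_cast; ring)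
    refine fin (c := 2205 / 16) ?_ (by norm_num [L4])
    push_cast at *
    linarith
  · have h := key hc hi (-3) (-1) 0 (-12) (-16) (-1) 4 (fun t => by push_cast; ring)
    refine fin (c := 525 / 2) ?_ (by norm_num [L4])
    push_cast at *
    linarith

theorem k_lp2 (hlp4 : S_LP4) : S_LP2 := by
  intro κ ι _ n s v hn hc hi
  have e : ∀ x y : ι → ℝ, (Real.sqrt 2 • x) ⬝ᵥ (Real.sqrt 2 • y) = 2 * (x ⬝ᵥ y) := fun x y => by
    rw [smul_dotProduct, dotProduct_smul, smul_eq_mul, smul_eq_mul, ← mul_assoc,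
      Real.mul_self_sqrt (by norm_num)]
  obtain ⟨W, hW, hm⟩ := hc.dim
  refine hlp4 κ ι n s (fun a => Real.sqrt 2 • v a) hn
    ⟨⟨W, hW, fun a ha => W.smul_mem _ (hm a ha)⟩, fun a ha => ?_, fun a ha b hb hab => ?_⟩
    fun a ha b hb => ?_
  · rw [e, hc.nrm a ha]; norm_num
  · rw [e]; linarith [hc.le a ha b hb hab]
  · rw [e]; exact (IsZ.natCast 2).mul (hi a ha b hb)

theorem k_lp3 (hmom : S_MOM) : S_LP3 := by
  intro κ ι _ s v hi
  refine ⟨fun hc => ?_, fun hc => ?_⟩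
  · obtain ⟨m1, m2, m3, m4, m5⟩ := hmom κ ι 3 3 s v hc.dim hc.nrm
    have h := key hc hi (-3) (-1) 0 (-12) (-16) (-1) 4 (fun t => by push_cast; ring)
    refine fin (c := 150 / 7) ?_ (by norm_num)
    push_cast at *
    linarith
  · obtain ⟨m1, m2, m3, m4, m5⟩ := hmom κ ι 8 3 s v hc.dim hc.nrm
    have h := key hc hi (-4) (-1) 0 (-12) (-7) 11 7 (fun t => by push_cast; ring)
    refine fin (c := 1280 / 17) ?_ (by norm_num)
    push_cast at *
    linarith

theorem k_lpc (hmom : S_MOM) : S_LPC := by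
  intro κ ι _ s v hc hi
  obtain ⟨m1, m2, m3, m4, m5⟩ := hmom κ ι 9 4 s v hc.dim hc.nrm
  let f : ℝ → ℝ := fun t => (t - 1) * (((t - (-3 : ℤ)) * (t - (-3 : ℤ) - 1))
    * ((t - (-1 : ℤ)) * (t - (-1 : ℤ) - 1)))
  have h1 := sum_poly s v 0 (-6) (-5) 5 5 f (fun t => by simp only [f]; push_cast; ring)
  have h2 : ∑ a ∈ s, ∑ a' ∈ s, f (v a ⬝ᵥ v a')
      ≤ ∑ a ∈ s, (2520 + 120 * ((s.filter fun a' => v a ⬝ᵥ v a' = 2).card : ℝ)) := by
    refine Finset.sum_le_sum fun a ha => ?_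
    rw [← Finset.add_sum_erase s _ ha, hc.nrm a ha]
    have h3 : ∑ a' ∈ s.erase a, f (v a ⬝ᵥ v a')
        ≤ ∑ a' ∈ s, 120 * (if v a ⬝ᵥ v a' = 2 then (1 : ℝ) else 0) := by
      refine (Finset.sum_le_sum fun a' ha' => ?_).trans
        (Finset.sum_le_sum_of_subset_of_nonneg (Finset.erase_subset a s) fun i _ _ => ?_)
      · have hm := Finset.mem_of_mem_erase ha'
        have hl := hc.le a ha a' hm (Finset.ne_of_mem_erase ha').symm
        split_ifs with h2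
        · rw [h2]; norm_num [f]
        · have h4 := (hi a ha a' hm).le_sub_one (k := 2)
            (by push_cast; exact lt_of_le_of_ne hl h2)
          rw [mul_zero]
          exact mul_nonpos_of_nonpos_of_nonneg (by push_cast at h4; linarith)
            (mul_nonneg (pair_nonneg (hi a ha a' hm) _) (pair_nonneg (hi a ha a' hm) _))
      · split_ifs <;> norm_num
    rw [← Finset.mul_sum, Finset.sum_boole] at h3
    have h5 : f 4 = 2520 := by norm_num [f]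
    linarith
  rw [Finset.sum_add_distrib, ← Finset.mul_sum, Finset.sum_const, nsmul_eq_mul, h1] at h2
  have : (74 : ℝ) * (s.card : ℝ) ^ 2 ≤ 6237 * s.card
      + 297 * ∑ a ∈ s, ((s.filter fun a' => v a ⬝ᵥ v a' = 2).card : ℝ) := by
    push_cast at *
    linarith
  exact_mod_cast this

theorem k_c75 (hlp3 : S_LP3) : S_C75 := by
  intro κ ι _ s v hc hi a ha
  obtain ⟨W, hW, hm⟩ := hc.dim
  have e : ∀ b ∈ s.filter fun a' => v a ⬝ᵥ v a' = 2, ∀ b' ∈ s.filter fun a' => v a ⬝ᵥ v a' = 2,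
      (v b - (1 / 2 : ℝ) • v a) ⬝ᵥ (v b' - (1 / 2 : ℝ) • v a) = v b ⬝ᵥ v b' - 1 := by
    intro b hb b' hb'
    have h1 := (Finset.mem_filter.1 hb).2
    have h2 := (Finset.mem_filter.1 hb').2
    simp only [sub_dotProduct, dotProduct_sub, smul_dotProduct, dotProduct_smul, smul_eq_mul]
    rw [dotProduct_comm (v b) (v a), h1, h2, hc.nrm a ha]; ring
  have hr := finrank_inf_ker W (dotL (v a)) (hm a ha) (by simp [hc.nrm a ha])
  refine (hlp3 κ ι _ (fun b => v b - (1 / 2 : ℝ) • v a) fun b hb b' hb' => ?_).2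
    ⟨⟨W ⊓ LinearMap.ker (dotL (v a)), by omega, fun b hb => ⟨?_, ?_⟩⟩, fun b hb => ?_,
      fun b hb b' hb' hbb => ?_⟩
  · rw [e b hb b' hb']
    exact (hi b (Finset.mem_filter.1 hb).1 b' (Finset.mem_filter.1 hb').1).sub IsZ.one
  · exact W.sub_mem (hm b (Finset.mem_filter.1 hb).1) (W.smul_mem _ (hm a ha))
  · change v a ⬝ᵥ _ = 0
    rw [dotProduct_sub, dotProduct_smul, (Finset.mem_filter.1 hb).2, hc.nrm a ha]; norm_num
  · rw [e b hb b hb, hc.nrm b (Finset.mem_filter.1 hb).1]; norm_num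
  · rw [e b hb b' hb']
    linarith [hc.le b (Finset.mem_filter.1 hb).1 b' (Finset.mem_filter.1 hb').1 hbb]

end Pool.Agent.P.MP_22b27c_co
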