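import Pool.Agent.P.MP_22b27c_co.Iface

/-! A maximal integral additive subgroup over a spanning integral set. -/

namespace Pool.Agent.P.MP_22b27c_co

open Module Finset
open scoped Classical Real Matrix

namespace TMAXA

theorem clo {n : ℕ} {S : Set (Fin n → ℝ)} (h : ∀ x ∈ S, ∀ y ∈ S, IsZ (x ⬝ᵥ y)) :
    Integral (AddSubgroup.closure S) := by
  have k : ∀ y, (∀ x ∈ S, IsZ (x ⬝ᵥ y)) → ∀ x ∈ AddSubgroup.closure S, IsZ (x ⬝ᵥ y) := by
    intro y hy x hx
    induction hx using AddSubgroup.closure_induction with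
    | mem x hx => exact hy x hx
    | zero => rw [zero_dotProduct]; exact IsZ.zero
    | add a b _ _ ha hb => rw [add_dotProduct]; exact ha.add hb
    | neg a _ ha => rw [neg_dotProduct]; exact ha.neg
  intro x hx y hy
  refine k y (fun x hx => ?_) x hx
  rw [dotProduct_comm]
  exact k x (fun y hy => h y hy x hx) y hy

theorem hexp {n : ℕ} {M : Lat n} (hM : Integral M) (A : Matrix (Fin n) (Fin n) ℝ)
    (hA : IsUnit A) (hm : ∀ i, A i ∈ M) : HasExp M := by
  choose G hG using fun i j => hM _ (hm i) _ (hm j)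
  have e : A * Aᵀ = (Int.castRingHom ℝ).mapMatrix (Matrix.of G) := by
    ext i j
    simpa [Matrix.mul_apply, dotProduct] using hG i j
  have hd : A.det ≠ 0 := ((Matrix.isUnit_iff_isUnit_det A).1 hA).ne_zero
  have e2 : (((Matrix.of G).det : ℤ) : ℝ) = A.det * A.det := by
    have := (Int.castRingHom ℝ).map_det (Matrix.of G)
    rw [← e, Matrix.det_mul, Matrix.det_transpose] at this
    simpa using this
  have hp : 0 < (Matrix.of G).det := by
    have : (0 : ℝ) < (((Matrix.of G).det : ℤ) : ℝ) := by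
      rw [e2]; exact mul_self_pos.2 hd
    exact_mod_cast this
  refine ⟨(Matrix.of G).det.toNat, by omega, fun w hw => ?_⟩
  set c : Fin n → ℝ := (A * Aᵀ).adjugate *ᵥ (A *ᵥ w) with hc
  have k : (((Matrix.of G).det.toNat : ℕ) : ℝ) • w = Aᵀ *ᵥ c := by
    apply Matrix.mulVec_injective_iff_isUnit.2 hA
    have : (((Matrix.of G).det.toNat : ℕ) : ℝ) = (A * Aᵀ).det := by
      rw [Matrix.det_mul, Matrix.det_transpose, ← e2]
      exact_mod_cast Int.toNat_of_nonneg hp.le
    rw [Matrix.mulVec_mulVec, hc, Matrix.mulVec_mulVec, Matrix.mul_adjugate, Matrix.smul_mulVec,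
      Matrix.one_mulVec, Matrix.mulVec_smul, this]
  have k2 : Aᵀ *ᵥ c = ∑ i, c i • A i := by
    ext j
    simp [Matrix.mulVec, dotProduct, mul_comm]
  rw [k, k2]
  refine M.sum_mem fun i _ => isZ_smul_mem (hm i) ?_
  rw [hc, e, ← RingHom.map_adjugate]
  refine IsZ.sum univ (fun j => (((Matrix.of G).adjugate i j : ℤ) : ℝ) * (A j ⬝ᵥ w))
    fun j _ => IsZ.mul (IsZ.intCast _) ?_
  have := hw _ (hm j)
  rwa [dotProduct_comm] at this

end TMAXA

open TMAXA in
theorem k_max : S_MAX := by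
  intro n X hX h
  obtain ⟨M, h1, h2⟩ := zorn_le_nonempty₀ {M : Lat n | Integral M} (by
    intro c hc ch _ _
    refine ⟨AddSubgroup.closure (⋃ M ∈ c, (M : Set (Fin n → ℝ))), clo ?_, fun z hz x hx =>
      AddSubgroup.subset_closure (Set.mem_biUnion hz hx)⟩
    intro x hx y hy
    obtain ⟨P, hP, hx⟩ := Set.mem_iUnion₂.1 hx
    obtain ⟨Q, hQ, hy⟩ := Set.mem_iUnion₂.1 hy
    rcases ch.total hP hQ with k | k
    · exact hc hQ x (k hx) y hy
    · exact hc hP x hx y (k hy)) (AddSubgroup.closure (X : Set (Fin n → ℝ))) (clo h)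
  have hm : ∀ x ∈ X, x ∈ M := fun x hx => h1 (AddSubgroup.subset_closure hx)
  refine ⟨M, hm, h2.prop, fun w hw hw' => ?_, ?_⟩
  · have : Integral (AddSubgroup.closure (insert w (M : Set (Fin n → ℝ)))) := by
      refine clo ?_
      rintro x (rfl | hx) y (rfl | hy)
      · exact hw'
      · exact hw y hy
      · rw [dotProduct_comm]; exact hw x hx
      · exact h2.prop x hx y hy
    exact h2.le_of_ge this (fun x hx => AddSubgroup.subset_closure (Or.inr hx))
      (AddSubgroup.subset_closure (Or.inl rfl))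
  · obtain ⟨t, ht, hs, hli⟩ := exists_linearIndependent ℝ (X : Set (Fin n → ℝ))
    let B : Basis t ℝ (Fin n → ℝ) := Basis.mk hli (by rw [Subtype.range_coe, hs, hX])
    let e : t ≃ Fin n := B.indexEquiv (Pi.basisFun ℝ (Fin n))
    refine hexp h2.prop (Matrix.of fun i => (e.symm i : Fin n → ℝ)) ?_
      fun i => hm _ (ht (e.symm i).2)
    exact Matrix.linearIndependent_rows_iff_isUnit.1 (hli.comp _ e.symm.injective)

end Pool.Agent.P.MP_22b27c_co
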