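import Pool.Agent.P.MP_22b27c_co.Iface

/-! Merging two classes of coprime orders. -/

namespace Pool.Agent.P.MP_22b27c_co

open Module Finset
open scoped Classical Real Matrix

theorem k_merge : S_MERGE := by
  intro n M y₁ y₂ D₁ D₂ a₁ a₂ h hc
  obtain ⟨k, hk⟩ := h.o
  have hc' : IsCoprime (D₁ : ℤ) (D₂ : ℤ) := Nat.isCoprime_iff_coprime.2 hc
  have zs : ∀ (c : ℤ) {x : Fin n → ℝ}, x ∈ M → (c : ℝ) • x ∈ M := fun c x hx => by
    rw [Int.cast_smul_eq_zsmul]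
    exact zsmul_mem hx c
  refine ⟨D₂ * a₁ + D₁ * a₂ + 2 * D₁ * D₂ * k, h.int, fun x hx => ?_, fun x _ => ⟨0, by simp⟩,
    Nat.mul_pos h.p1 h.p2, one_pos, ?_, by simp, ?_, by simp, ?_, by simpa using isCoprime_one_right,
    ⟨0, by simp⟩, fun w hw => ?_⟩
  · obtain ⟨i, hi⟩ := h.d1 x hx
    obtain ⟨j, hj⟩ := h.d2 x hx
    exact ⟨i + j, by rw [add_dotProduct, hi, hj, Int.cast_add]⟩
  · convert add_mem (zs D₂ h.m1) (zs D₁ h.m2) using 1
    simp only [smul_add, smul_smul, Int.cast_natCast, Nat.cast_mul, mul_comm]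
  · simp only [add_dotProduct, dotProduct_add, dotProduct_comm y₂ y₁, hk]
    push_cast
    linear_combination (D₂ : ℝ) * h.n1 + (D₁ : ℝ) * h.n2
  · rw [Nat.cast_mul]
    refine IsCoprime.mul_right ?_ ?_
    · rw [show (D₂ : ℤ) * a₁ + D₁ * a₂ + 2 * D₁ * D₂ * k = D₂ * a₁ + D₁ * (a₂ + 2 * D₂ * k) by ring]
      exact (hc'.symm.mul_left h.c1).add_mul_left_left _
    · rw [show (D₂ : ℤ) * a₁ + D₁ * a₂ + 2 * D₁ * D₂ * k = D₁ * a₂ + D₂ * (a₁ + 2 * D₁ * k) by ring]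
      exact (hc'.mul_left h.c2).add_mul_left_left _
  · obtain ⟨c₁, c₂, hm⟩ := h.gen w hw
    obtain ⟨u, v, e⟩ := hc'
    have e' : (u : ℝ) * D₁ + v * D₂ = 1 := by exact_mod_cast e
    refine ⟨c₁ * v * D₂ + c₂ * u * D₁, 0, ?_⟩
    convert add_mem (add_mem hm (zs ((c₁ - c₂) * u) h.m1)) (zs ((c₂ - c₁) * v) h.m2) using 1
    funext i
    simp only [Pi.add_apply, Pi.sub_apply, Pi.smul_apply, smul_eq_mul, Pi.zero_apply]
    push_cast
    linear_combination (-(c₁ : ℝ) * y₁ i - c₂ * y₂ i) * e'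

end Pool.Agent.P.MP_22b27c_co
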