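import Pool.Agent.P.MP_22b27c_co.Iface

namespace Pool.Agent.P.MP_22b27c_co

open Module Finset
open scoped Classical Real Matrix

namespace TMFA

theorem hs (hser2 : S_SER2) {c : ℕ → ℝ} (hc : Good c) (ho : ∀ k, Odd k → c k = 0) (τ : ℂ)
    (h : 0 < τ.im) : HasSum (fun n : ℕ => (c (2 * n) : ℂ) * Complex.exp (2 * π * Complex.I * τ) ^ n)
      (∑' k : ℕ, (c k : ℂ) * Complex.exp (π * Complex.I * τ * ((k : ℝ) : ℂ))) := by
  have h1 : Summable fun k : ℕ => (c k : ℂ) * Complex.exp (π * Complex.I * τ * ((k : ℝ) : ℂ)) := by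
    refine Summable.of_norm ((hser2.1 c hc _ h).congr fun k => ?_)
    rw [norm_mul, Complex.norm_real, Complex.norm_exp, Real.norm_eq_abs]
    congr 2
    simp
  have h2 := (Function.Injective.hasSum_iff (g := fun n : ℕ => 2 * n)
    (mul_right_injective₀ two_ne_zero) fun k hk => by
      rw [ho k (Nat.not_even_iff_odd.1 fun ⟨r, e⟩ => hk ⟨r, by simp only; omega⟩)]
      simp).2 h1.hasSum
  convert h2 using 2 with n
  rw [Function.comp, ← Complex.exp_nat_mul]
  congr 2
  push_cast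
  ring

end TMFA

theorem k_mf (hcont : S_CONT) (hmf0 : S_MF0) (hser2 : S_SER2) : S_MF := by
  intro c hc ho
  have h0 : ∀ k : ℕ, (0 : ℝ) ≤ k := fun k => k.cast_nonneg
  have hs := hser2.1 c hc
  refine ⟨fun h => ?_, fun h h' => ?_⟩
  · have := (hmf0 8 _ _ (TMFA.hs hser2 hc ho) fun τ hτ => by
      rw [hcont ℕ ℕ c _ c _ 8 h0 h0 hs hs h τ hτ]
      congr 1
      rw [mul_pow, show (-Complex.I) ^ 8 = (Complex.I ^ 2) ^ 4 by ring, Complex.I_sq]
      ring).1 rfl
    exact_mod_cast this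
  · have := (hmf0 10 _ _ (TMFA.hs hser2 hc ho) fun τ hτ => by
      rw [hcont ℕ ℕ c _ (fun k => -c k) _ 10 h0 h0 hs (by simpa using hs) (fun t ht => by
        simp only [neg_mul (c _), tsum_neg]
        exact (h t ht).trans (by rw [SS]; ring)) τ hτ]
      simp only [Complex.ofReal_neg, neg_mul ((c _ : ℝ) : ℂ), tsum_neg]
      rw [mul_pow, show (-Complex.I) ^ 10 = (Complex.I ^ 2) ^ 5 by ring, Complex.I_sq]
      ring).2 rfl (by exact_mod_cast h')
    exact_mod_cast this

end Pool.Agent.P.MP_22b27c_co
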