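import Pool.Agent.P.MP_22b27c_co.Iface

/-! Everywhere convergent expansions with the inversion law are modular forms of level one. -/

namespace Pool.Agent.P.MP_22b27c_co

open Module Finset
open scoped Classical Real Matrix

namespace TMF0A

open UpperHalfPlane hiding I
open ModularForm MatrixGroups SlashInvariantForm EisensteinSeries

theorem qP (z : ℂ) : Function.Periodic.qParam 1 z = Complex.exp (2 * π * Complex.I * z) := by
  simp [Function.Periodic.qParam]

theorem holo (a : ℕ → ℂ) (f : ℂ → ℂ)
    (h : ∀ τ : ℂ, 0 < τ.im →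
      HasSum (fun n : ℕ => a n * Complex.exp (2 * π * Complex.I * τ) ^ n) (f τ)) :
    DifferentiableOn ℂ f {z : ℂ | 0 < z.im} := by
  let p := FormalMultilinearSeries.ofScalars ℂ a
  have hr : 1 ≤ p.radius := by
    refine le_of_forall_lt_imp_le_of_dense fun r hr => ?_
    rcases eq_or_ne r 0 with rfl | hr'
    · simp
    lift r to NNReal using hr.ne_top
    have r1 : ‖(r : ℂ)‖ < 1 := by simpa using hr
    have r0 : (r : ℂ) ≠ 0 := mod_cast hr'
    have := (h _ (Function.Periodic.im_invQParam_pos_of_norm_lt_one one_pos r1 r0)).summable.norm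
    rw [← qP, Function.Periodic.qParam_right_inv one_ne_zero r0] at this
    apply FormalMultilinearSeries.le_radius_of_summable
    simpa [p, norm_mul, mul_comm] using this
  have hb := (p.hasFPowerSeriesOnBall (zero_lt_one.trans_le hr)).mono zero_lt_one hr
  have hm : ∀ z : ℂ, 0 < z.im → Function.Periodic.qParam 1 z ∈ Metric.eball (0 : ℂ) 1 :=
    fun z hz => by
      rw [← ENNReal.coe_one, Metric.eball_coe, NNReal.coe_one, mem_ball_zero_iff]
      exact Function.Periodic.norm_qParam_lt_one one_pos hz
  refine DifferentiableOn.congr (f := p.sum ∘ Function.Periodic.qParam 1)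
    (hb.differentiableOn.comp Function.Periodic.differentiable_qParam.differentiableOn hm)
    fun z hz => (h z hz).unique ?_
  have := hb.hasSum (hm z hz)
  simpa [p, qP, mul_comm] using this

theorem vanish {k : ℤ} (hk : k < 12) (M : ModularForm 𝒮ℒ k) (h : (qExpansion 1 M).coeff 0 = 0) :
    (qExpansion 1 M).coeff 1 = 0 := by
  have h1 := rank_zero_iff_forall_zero.1 (CuspForm.rank_eq_zero_of_weight_lt_twelve hk)
    (toCuspForm M h)
  have h2 : (M : ℍ → ℂ) = 0 := funext fun z => by
    rw [← toCuspForm_apply M h z, h1]; rfl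
  simp [h2, qExpansion_zero]

theorem form (k : ℕ) (a : ℕ → ℂ) (f : ℂ → ℂ)
    (h : ∀ τ : ℂ, 0 < τ.im →
      HasSum (fun n : ℕ => a n * Complex.exp (2 * π * Complex.I * τ) ^ n) (f τ))
    (hS : ∀ τ : ℂ, 0 < τ.im → f (-1 / τ) = τ ^ k * f τ) :
    ∃ M : ModularForm 𝒮ℒ k, ∀ n, a n = (qExpansion 1 M).coeff n := by
  let F : ℍ → ℂ := fun τ => f τ
  have hF : ∀ τ : ℍ, HasSum (fun m => a m • Function.Periodic.qParam 1 τ ^ m) (F τ) :=
    fun τ => by simpa only [qP, smul_eq_mul] using h τ τ.2
  have eT : F ∣[(k : ℤ)] ModularGroup.T = F := by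
    ext z
    have e : F (ModularGroup.T • z) = F z := by
      refine (hF _).unique ?_
      have : Function.Periodic.qParam 1 ((ModularGroup.T • z : ℍ) : ℂ) =
          Function.Periodic.qParam 1 z := by
        rw [modular_T_smul, qP, qP, ← Complex.exp_periodic (2 * π * Complex.I * z)]
        congr 1
        simp
        ring
      rw [this]
      exact hF z
    rw [SL_slash_apply, e]
    simp [denom, ModularGroup.T]
  have eS : F ∣[(k : ℤ)] ModularGroup.S = F := by
    ext z
    have e : F (ModularGroup.S • z) = (z : ℂ) ^ k * F z := by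
      rw [← hS z z.2, modular_S_smul]
      simp [F, neg_div]
    rw [SL_slash_apply, e, ModularGroup.denom_S]
    have := z.ne_zero
    simp only [zpow_neg, zpow_natCast]
    field_simp
  let M : ModularForm 𝒮ℒ k :=
    { toFun := F
      slash_action_eq' := fun A hA => by
        obtain ⟨A, rfl⟩ := hA
        exact slash_action_generators_SL2Z eS eT A
      holo' := by
        rw [UpperHalfPlane.mdifferentiable_iff]
        refine (holo a f h).congr fun z hz => ?_
        simp [F, ofComplex_apply_of_im_pos hz]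
      bdd_at_cusps' := fun hc => by
        rw [OnePoint.isBoundedAt_iff_forall_SL2Z hc]
        intro γ _
        rw [slash_action_generators_SL2Z eS eT]
        exact isBoundedAtImInfty_of_hasSum_qExpansion one_pos hF }
  exact ⟨M, ModularFormClass.qExpansion_coeff_unique one_pos one_mem_strictPeriods_SL (f := M) hF⟩

theorem eight (M : ModularForm 𝒮ℒ 8) :
    (qExpansion 1 M).coeff 1 = 480 * (qExpansion 1 M).coeff 0 := by
  let E : ModularForm 𝒮ℒ 8 := ModularForm.mcast (by decide) (E₄.pow 2)
  let c := (qExpansion 1 M).coeff 0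
  have e : qExpansion 1 ⇑(M - c • E) =
      qExpansion 1 M - c • (qExpansion 1 E₄ * qExpansion 1 E₄) := by
    have e1 : qExpansion 1 (c • E) = c • qExpansion 1 E :=
      ModularForm.qExpansion_smul one_pos one_mem_strictPeriods_SL c E
    have e2 : qExpansion 1 E = qExpansion 1 E₄ ^ 2 :=
      ModularForm.qExpansion_pow one_pos one_mem_strictPeriods_SL E₄ 2
    rw [← sq, ← e2, ← e1]
    exact ModularForm.qExpansion_sub one_pos one_mem_strictPeriods_SL M (c • E)
  have z0 : (qExpansion 1 E₄).coeff 0 = 1 := E_qExpansion_coeff_zero _ ⟨2, rfl⟩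
  have h := vanish (by norm_num) (M - c • E) (by
    rw [e, map_sub, map_smul, PowerSeries.coeff_mul]
    simp [-PowerSeries.coeff_zero_eq_constantCoeff, z0, c])
  rw [e, map_sub, map_smul, PowerSeries.coeff_mul] at h
  simp only [Finset.Nat.antidiagonal_succ, Finset.Nat.antidiagonal_zero, Finset.map_singleton,
    Finset.sum_cons, Finset.sum_singleton] at h
  simp [-PowerSeries.coeff_zero_eq_constantCoeff, z0, E₄_qExpansion_coeff_one] at h
  linear_combination h

end TMF0A

theorem k_mf0 : S_MF0 := by
  intro k a f h hS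
  obtain ⟨M, hM⟩ := TMF0A.form k a f h hS
  refine ⟨?_, ?_⟩
  · rintro rfl
    rw [hM, hM]
    exact TMF0A.eight M
  · rintro rfl h0
    rw [hM] at h0 ⊢
    exact TMF0A.vanish (by norm_num) M h0

end Pool.Agent.P.MP_22b27c_co
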