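import Pool.Agent.P.MP_22b27c_co.Iface

/-!
Positivity of the zonal harmonics of degree at most five, through the Fischer form.
-/

namespace Pool.Agent.P.MP_22b27c_co

open Module Finset
open scoped Classical Real Matrix

noncomputable section

namespace TMOM0A

open MvPolynomial

/-- The norm polynomial. -/
def R (n : ℕ) : MvPolynomial (Fin n) ℝ := ∑ i, X i ^ 2

/-- The linear form of a vector. -/
def lf {n : ℕ} (y : Fin n → ℝ) : MvPolynomial (Fin n) ℝ := ∑ i, C (y i) * X i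

def T {n : ℕ} (y : Fin n → ℝ) (j m : ℕ) : MvPolynomial (Fin n) ℝ := R n ^ j * lf y ^ m

/-- The Laplacian. -/
def D (n : ℕ) : MvPolynomial (Fin n) ℝ →ₗ[ℝ] MvPolynomial (Fin n) ℝ :=
  ∑ i, (pderiv i).toLinearMap ∘ₗ (pderiv i).toLinearMap

lemma D_apply {n : ℕ} (p : MvPolynomial (Fin n) ℝ) : D n p = ∑ i, pderiv i (pderiv i p) := by
  simp [D, LinearMap.sum_apply]

lemma D_T (hlap : S_LAP) {n : ℕ} (y : Fin n → ℝ) (j m : ℕ) :
    D n (T y j m) = (2 * j * (n + 2 * j - 2 + 2 * m) : ℝ) • T y (j - 1) m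
      + (m * (m - 1) * (y ⬝ᵥ y) : ℝ) • T y j (m - 2) := by
  rw [D_apply, smul_eq_C_mul, smul_eq_C_mul]
  exact hlap n y j m

lemma R_hom (n : ℕ) : (R n).IsHomogeneous 2 :=
  IsHomogeneous.sum _ _ _ fun i _ => isHomogeneous_X_pow i 2

lemma lf_hom {n : ℕ} (y : Fin n → ℝ) : (lf y).IsHomogeneous 1 :=
  IsHomogeneous.sum _ _ _ fun i _ => (isHomogeneous_X ℝ i).C_mul _

lemma T_hom {n : ℕ} (y : Fin n → ℝ) (j m k : ℕ) (h : 2 * j + m = k) (c : ℝ) :
    (c • T y j m).IsHomogeneous k := by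
  rw [smul_eq_C_mul]
  have := ((R_hom n).pow j).mul ((lf_hom y).pow m)
  rw [one_mul, h] at this
  exact this.C_mul c

lemma eval_T {n : ℕ} (x y : Fin n → ℝ) (j m : ℕ) :
    eval x (T y j m) = (x ⬝ᵥ x) ^ j * (x ⬝ᵥ y) ^ m := by
  have h1 : eval x (R n) = x ⬝ᵥ x := by simp [R, dotProduct, sq]
  have h2 : eval x (lf y) = x ⬝ᵥ y := by simp [lf, dotProduct, mul_comm]
  rw [T, map_mul, map_pow, map_pow, h1, h2]

lemma T_succ {n : ℕ} (y : Fin n → ℝ) (j m : ℕ) : T y (j + 1) m = R n * T y j m := by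
  rw [T, T]; ring

/-- Positivity for a family of harmonic polynomials. -/
lemma pos (hfis : S_FIS) {κ : Type} {n : ℕ} (s : Finset κ) (v : κ → Fin n → ℝ) (k : ℕ) (α : ℝ)
    (hα : 0 < α) (H : κ → MvPolynomial (Fin n) ℝ) (h1 : ∀ a ∈ s, (H a).IsHomogeneous k)
    (h2 : ∀ a ∈ s, D n (H a) = 0) (h3 : ∀ a ∈ s, ∃ Q, H a = α • T (v a) 0 k + R n * Q) :
    0 ≤ ∑ a ∈ s, ∑ a' ∈ s, eval (v a) (H a') := by
  obtain ⟨B, hB0, hB1, hB2⟩ := hfis n
  have hR : ∀ p q, B (R n * p) q = B p (D n q) := fun p q => by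
    rw [R, Finset.sum_mul, map_sum, LinearMap.sum_apply, D_apply, map_sum]
    refine Finset.sum_congr rfl fun i _ => ?_
    rw [sq, mul_assoc, hB1, hB1]
  have key : ∀ a ∈ s, ∀ a' ∈ s,
      B (H a) (H a') = α * k.factorial * eval (v a) (H a') := fun a ha a' ha' => by
    obtain ⟨Q, hQ⟩ := h3 a ha
    have h4 : B (T (v a) 0 k) (H a') = k.factorial * eval (v a) (H a') := by
      rw [T, pow_zero, one_mul]
      exact hB2 k (v a) (H a') (h1 a' ha')
    rw [hQ, map_add, LinearMap.add_apply, hR, h2 a' ha', map_zero, add_zero, map_smul,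
      LinearMap.smul_apply, h4, smul_eq_mul, mul_assoc]
  have h0 := hB0 (∑ a ∈ s, H a)
  have h5 : B (∑ a ∈ s, H a) (∑ a ∈ s, H a)
      = α * k.factorial * ∑ a ∈ s, ∑ a' ∈ s, eval (v a) (H a') := by
    rw [Finset.mul_sum, map_sum B, LinearMap.sum_apply]
    refine Finset.sum_congr rfl fun a ha => ?_
    rw [Finset.mul_sum, map_sum]
    exact Finset.sum_congr rfl fun a' ha' => key a ha a' ha'
  rw [h5] at h0
  have h6 : (0 : ℝ) < α * k.factorial := mul_pos hα (by exact_mod_cast k.factorial_pos)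
  exact (mul_nonneg_iff_of_pos_left h6).1 h0

lemma Mo_zero {κ : Type} {n : ℕ} (s : Finset κ) (v : κ → Fin n → ℝ) :
    Mo s v 0 = (s.card : ℝ) ^ 2 := by
  simp [Mo, sq]

/-- The shape used for all degrees. -/
lemma pos3 (hfis : S_FIS) {κ : Type} {n : ℕ} {r : ℝ} (s : Finset κ) (v : κ → Fin n → ℝ)
    (hr : ∀ a ∈ s, v a ⬝ᵥ v a = r) (k m m' : ℕ) (α β γ : ℝ) (hα : 0 < α) (hm : 2 * 1 + m = k)
    (hm' : 2 * 2 + m' = k ∨ γ = 0)
    (hD : ∀ a ∈ s, α • D n (T (v a) 0 k) + β • D n (T (v a) 1 m) + γ • D n (T (v a) 2 m') = 0) :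
    0 ≤ α * Mo s v k + β * r * Mo s v m + γ * r ^ 2 * Mo s v m' := by
  have h := pos hfis s v k α hα
    (fun a => α • T (v a) 0 k + β • T (v a) 1 m + γ • T (v a) 2 m')
    (fun a _ => by
      refine ((T_hom _ 0 k k (by omega) α).add (T_hom _ 1 m k hm β)).add ?_
      rcases hm' with h | h
      · exact T_hom _ 2 m' k h γ
      · rw [h, zero_smul]; exact isHomogeneous_zero _ _ _)
    (fun a ha => by rw [map_add, map_add, map_smul, map_smul, map_smul]; exact hD a ha)
    (fun a _ => ⟨β • T (v a) 0 m + γ • T (v a) 1 m', by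
      rw [T_succ (v a) 0 m, T_succ (v a) 1 m', mul_add, mul_smul_comm, mul_smul_comm, add_assoc]⟩)
  refine h.trans_eq ?_
  simp only [Mo, Finset.mul_sum, ← Finset.sum_add_distrib]
  refine Finset.sum_congr rfl fun a ha => Finset.sum_congr rfl fun a' _ => ?_
  rw [map_add, map_add, smul_eval, smul_eval, smul_eval, eval_T, eval_T, eval_T, hr a ha]
  ring

end TMOM0A

open TMOM0A in
theorem k_mom0 (hfis : S_FIS) (hlap : S_LAP) : S_MOM0 := by
  intro κ n r s v hr
  have hn : (0 : ℝ) ≤ n := Nat.cast_nonneg n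
  refine ⟨?_, ?_, ?_, ?_, ?_⟩
  · have : Mo s v 1 = (∑ a ∈ s, v a) ⬝ᵥ (∑ a ∈ s, v a) := by
      rw [sum_dotProduct]
      simp only [Mo, pow_one, dotProduct_sum]
    rw [this]; exact dot_self_nonneg _
  · rcases Nat.eq_zero_or_pos n with h0 | h0
    · subst h0
      rcases s.eq_empty_or_nonempty with h | ⟨a, ha⟩
      · simp [h]
      · have : r = 0 := by rw [← hr a ha]; simp [dotProduct]
        simp [this]
    · have h := pos3 hfis s v hr 2 0 0 n (-r) 0 (by exact_mod_cast h0) rfl (Or.inr rfl)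
        (fun a ha => by
          simp only [D_T hlap, hr a ha]
          norm_num
          module)
      rw [Mo_zero] at h
      linarith
  · have h := pos3 hfis s v hr 3 1 0 (n + 2) (-(3 * r)) 0 (by positivity) rfl (Or.inr rfl)
      (fun a ha => by
        simp only [D_T hlap, hr a ha]
        norm_num
        module)
    linarith
  · have h := pos3 hfis s v hr 4 2 0 ((n + 2) * (n + 4)) (-(6 * (n + 2) * r)) (3 * r ^ 2)
      (by positivity) rfl (Or.inl rfl)
      (fun a ha => by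
        simp only [D_T hlap, hr a ha]
        norm_num
        module)
    rw [Mo_zero] at h
    linarith
  · have h := pos3 hfis s v hr 5 3 1 ((n + 4) * (n + 6)) (-(10 * (n + 4) * r)) (15 * r ^ 2)
      (by positivity) rfl (Or.inl rfl)
      (fun a ha => by
        simp only [D_T hlap, hr a ha]
        norm_num
        module)
    linarith

end

end Pool.Agent.P.MP_22b27c_co
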