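import Pool.Agent.P.MP_22b27c_co.Iface

/-! Symmetric sets of pairwise orthogonal or opposite vectors. -/

namespace Pool.Agent.P.MP_22b27c_co

open Module Finset
open scoped Classical Real Matrix

theorem k_orth : S_ORTH := by
  intro n K r hr
  induction K using Finset.strongInduction with | H K ih => ?_
  intro h1 h2 h3
  rcases K.eq_empty_or_nonempty with rfl | ⟨x, hx⟩
  · exact ⟨0, Fin.elim0, rfl, fun i => i.elim0, fun i => i.elim0, by simp⟩
  have ne : -x ≠ x := fun e => by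
    have := h1 x hx
    nth_rw 1 [← e] at this
    rw [neg_dotProduct, h1 x hx] at this
    linarith
  have mem : ∀ y, y ∈ (K.erase x).erase (-x) ↔ y ≠ -x ∧ y ≠ x ∧ y ∈ K := by simp
  have sub : (K.erase x).erase (-x) ⊂ K :=
    lt_of_le_of_lt (erase_subset _ _) (erase_ssubset hx)
  obtain ⟨j, e, a1, a2, a3, a4⟩ := ih _ sub (fun y hy => h1 y (sub.1 hy))
    (fun y hy => by
      obtain ⟨b1, b2, b3⟩ := (mem y).1 hy
      exact (mem _).2 ⟨fun k => b2 (neg_injective k), fun k => b1 (neg_eq_iff_eq_neg.1 k), h2 y b3⟩)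
    fun y hy z hz => h3 y (sub.1 hy) z (sub.1 hz)
  have o : ∀ i, x ⬝ᵥ e i = 0 := fun i => by
    obtain ⟨b1, b2, b3⟩ := (mem _).1 (a2 i)
    exact (h3 x hx _ b3).resolve_right fun k => k.elim b2 b1
  refine ⟨j + 1, Fin.cons x e, ?_, fun i => ?_, fun i i' h => ?_, fun y hy => ?_⟩
  · have c1 := card_erase_add_one hx
    have c2 := card_erase_add_one (mem_erase.2 ⟨ne, h2 x hx⟩)
    omega
  · exact Fin.cases hx (fun i => sub.1 (a2 i)) i
  · cases i using Fin.cases <;> cases i' using Fin.cases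
    · exact absurd rfl h
    · exact o _
    · exact (dotProduct_comm _ _).trans (o _)
    · exact a3 _ _ fun k => h (congrArg _ k)
  · by_cases b1 : y = x
    · exact ⟨0, .inl b1⟩
    by_cases b2 : y = -x
    · exact ⟨0, .inr b2⟩
    obtain ⟨i, k⟩ := a4 y ((mem y).2 ⟨b2, b1, hy⟩)
    exact ⟨i.succ, k⟩

end Pool.Agent.P.MP_22b27c_co
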