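import Pool.Agent.P.MP_22b27c_co.Iface

/-!
Contacts of a fixed vector through a pair whose restriction lies in the subspace.
-/

namespace Pool.Agent.P.MP_22b27c_co

open Module Finset
open scoped Classical Real Matrix

namespace TPINA

lemma res_dot {x : Fin 12 → ℤ} {p : Finset (Fin 12)} (hx : Tri x) (hp : p ⊆ supp x)
    (hc : p.card = 2) : res p x ⬝ᵥ res p x = 2 := by
  have ht : Tri (res p x) := fun i => by
    unfold res
    split_ifs
    · exact hx i
    · simp
  have hs : supp (res p x) = p := by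
    ext i
    rw [mem_supp]
    unfold res
    constructor
    · intro h
      by_contra hi
      exact h (if_neg hi)
    · intro hi
      rw [if_pos hi]
      exact mem_supp.1 (hp hi)
  rw [ht.dot_self, hs, hc]
  rfl

lemma res_congr {x y : Fin 12 → ℤ} {p : Finset (Fin 12)} (h : ∀ i ∈ p, y i = x i) :
    res p y = res p x := by
  ext i
  unfold res
  split_ifs with hi
  · exact h i hi
  · rfl

end TPINA

open TPINA in
theorem k_pin (hrt2 : S_RT2) : S_PIN := by
  intro V X x p hX hx hp hc hV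
  set T := X.filter fun y => (∀ i ∈ p, y i = x i) ∧ ∀ i ∈ supp x \ p, y i = 0 with hT
  have hTX : ∀ y ∈ T, y ∈ X := fun y hy => (mem_filter.1 hy).1
  have hTp : ∀ y ∈ T, res p y = res p x := fun y hy => res_congr (mem_filter.1 hy).2.1
  have h2 := res_dot hx hp hc
  have hinj : Set.InjOn (res pᶜ) (T : Set (Fin 12 → ℤ)) := by
    intro y hy y' hy' h
    rw [← res_add_compl p y, ← res_add_compl p y', hTp y hy, hTp y' hy', h]
  have hdot : ∀ y ∈ T, ∀ y' ∈ T, res pᶜ y ⬝ᵥ res pᶜ y' = y ⬝ᵥ y' - 2 := by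
    intro y hy y' hy'
    have := dot_split p y y'
    rw [hTp y hy, hTp y' hy', h2] at this
    omega
  have key := hrt2 V (supp x)ᶜ (T.image (res pᶜ)) ?_ ?_ ?_ ?_
  · rw [card_image_of_injOn hinj] at key
    exact key
  · intro b hb
    obtain ⟨y, hy, rfl⟩ := mem_image.1 hb
    rw [hdot y hy y hy, hX.nrm y (hTX y hy)]
    rfl
  · intro b hb i hi
    obtain ⟨y, hy, rfl⟩ := mem_image.1 hb
    rw [mem_supp] at hi
    rw [mem_compl]
    intro hix
    apply hi
    unfold res
    split_ifs with hip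
    · exact (mem_filter.1 hy).2.2 i (mem_sdiff.2 ⟨hix, mem_compl.1 hip⟩)
    · rfl
  · intro b hb b' hb' hne
    obtain ⟨y, hy, rfl⟩ := mem_image.1 hb
    obtain ⟨y', hy', rfl⟩ := mem_image.1 hb'
    have hyy : y ≠ y' := fun h => hne (by rw [h])
    have := hX.le y (hTX y hy) y' (hTX y' hy') hyy
    rw [hdot y hy y' hy']
    omega
  · intro b hb
    obtain ⟨y, hy, rfl⟩ := mem_image.1 hb
    refine res_compl_mem (hX.mem y (hTX y hy)) ?_
    rw [hTp y hy]
    exact hV

end Pool.Agent.P.MP_22b27c_co
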