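import Pool.Agent.P.MP_22b27c_co.Poi

/-!
Poisson summation on a self dual lattice.
-/

namespace Pool.Agent.P.MP_22b27c_co

open Module Finset
open scoped Classical Real Matrix

namespace TPOISA

lemma eqv {n : ℕ} {U : Lat n} {B : Matrix (Fin n) (Fin n) ℝ} (hB : B.det ≠ 0)
    (h : ∀ x, x ∈ U ↔ ∃ m : Fin n → ℤ, x = B.mulVec (rc m)) :
    ∃ e : (Fin n → ℤ) ≃ U, ∀ m, (e m).1 = B.mulVec (rc m) := by
  refine ⟨Equiv.ofBijective (fun m => ⟨B.mulVec (rc m), (h _).2 ⟨m, rfl⟩⟩) ⟨fun m m' e => ?_,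
    fun u => ?_⟩, fun _ => rfl⟩
  · have e1 := Matrix.mulVec_injective_of_isUnit ((Matrix.isUnit_iff_isUnit_det B).2
      (isUnit_iff_ne_zero.2 hB)) (congrArg Subtype.val e)
    ext i
    have := congrFun e1 i
    simpa [rc] using this
  · obtain ⟨m, hm⟩ := (h u.1).1 u.2
    exact ⟨m, Subtype.ext hm.symm⟩

end TPOISA

theorem k_pois (hbasis : S_BASIS) (hdualb : S_DUALB) : S_POIS := by
  intro n m hn U hU a t ht
  obtain ⟨B, hB, h⟩ := hbasis n U hU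
  obtain ⟨hd, h'⟩ := hdualb n U B hU hB h
  obtain ⟨e1, h1⟩ := TPOISA.eqv hB h
  obtain ⟨e2, h2⟩ := TPOISA.eqv (Poi.det_ne B hB) h'
  have hu : IsUnit B.det := isUnit_iff_ne_zero.2 hB
  have hs : 0 < √t := Real.sqrt_pos.2 ht
  have ss : √t * √t = t := Real.mul_self_sqrt ht.le
  have d1 : |(√t • B).det| = t ^ m := by
    rw [Matrix.det_smul, abs_mul, hd, Fintype.card_fin, hn, pow_mul, sq, ss, mul_one,
      abs_of_pos (pow_pos ht m)]
  have d0 : (√t • B).det ≠ 0 := fun e => by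
    rw [e, abs_zero] at d1
    exact (pow_pos ht m).ne d1
  have i1 : (√t • B)⁻¹ = (√t)⁻¹ • B⁻¹ := Matrix.inv_eq_left_inv (by
    rw [Matrix.smul_mul, Matrix.mul_smul, smul_smul, inv_mul_cancel₀ hs.ne', one_smul,
      Matrix.nonsing_inv_mul B hu])
  have k1 : ∀ k : Fin n → ℤ, -π * ((√t • B).mulVec (B⁻¹.mulVec a + rc k) ⬝ᵥ
      (√t • B).mulVec (B⁻¹.mulVec a + rc k)) = -π * t * (((e1 k).1 + a) ⬝ᵥ ((e1 k).1 + a)) := by
    intro k
    rw [Matrix.smul_mulVec, Matrix.mulVec_add, Matrix.mulVec_mulVec, Matrix.mul_nonsing_inv B hu,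
      Matrix.one_mulVec, h1, add_comm a, smul_dotProduct, dotProduct_smul, smul_eq_mul, smul_eq_mul,
      ← mul_assoc √t, ss, mul_assoc]
  have k2 : ∀ k : Fin n → ℤ, -π * (((√t • B)⁻¹)ᵀ.mulVec (rc k) ⬝ᵥ ((√t • B)⁻¹)ᵀ.mulVec (rc k))
      = -π * (1 / t) * ((e2 k).1 ⬝ᵥ (e2 k).1) := by
    intro k
    rw [i1, Matrix.transpose_smul, Matrix.smul_mulVec, h2, smul_dotProduct, dotProduct_smul,
      smul_eq_mul, smul_eq_mul, ← mul_assoc (√t)⁻¹, ← mul_inv, ss, mul_assoc, one_div]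
  have k3 : ∀ k : Fin n → ℤ, rc k ⬝ᵥ B⁻¹.mulVec a = (e2 k).1 ⬝ᵥ a := by
    intro k
    rw [h2, Matrix.dotProduct_mulVec, Matrix.mulVec_transpose]
  have s := Poi.summable _ d0 (B⁻¹.mulVec a)
  have p := (Poi.poisson _ d0 (B⁻¹.mulVec a)).tsum_eq
  simp only [k1] at s
  simp only [k1, k2, k3, d1, mul_assoc (t ^ m)⁻¹, tsum_mul_left] at p
  refine ⟨e1.summable_iff.1 s, ?_⟩
  rw [← e2.tsum_eq, ← e1.tsum_eq, ← p, mul_inv_cancel_left₀ (pow_pos ht m).ne']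
  exact tsum_congr fun k => mul_comm _ _

end Pool.Agent.P.MP_22b27c_co
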