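import Pool.Agent.P.MP_22b27c_co.Iface

/-!
The orthogonal projection onto the span of four orthonormal vectors.
-/

namespace Pool.Agent.P.MP_22b27c_co

open Module Finset
open scoped Classical Real Matrix

theorem k_proj : S_PROJ := by
  intro e he
  let P : (Fin 12 → ℝ) →ₗ[ℝ] (Fin 12 → ℝ) := ∑ i, (dotL (e i)).smulRight (e i)
  have hP : ∀ x, P x = ∑ i, (x ⬝ᵥ e i) • e i := fun x => by
    simp only [P, LinearMap.sum_apply, LinearMap.smulRight_apply, dotL_apply]
    exact Finset.sum_congr rfl fun i _ => by rw [dotProduct_comm]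
  have hs : ∀ (c : Fin 4 → ℝ) (k : Fin 4), (∑ i, c i • e i) ⬝ᵥ e k = c k := fun c k => by
    rw [sum_dotProduct]
    simp only [smul_dotProduct, smul_eq_mul, he _ k]
    simp
  have h1 : ∀ x k, P x ⬝ᵥ e k = x ⬝ᵥ e k := fun x k => by rw [hP, hs]
  have h2 : ∀ x k, (x - P x) ⬝ᵥ e k = 0 := fun x k => by rw [sub_dotProduct, h1, sub_self]
  have h3 : ∀ x y, P x ⬝ᵥ y = ∑ i, (x ⬝ᵥ e i) * (y ⬝ᵥ e i) := fun x y => by
    rw [hP, sum_dotProduct]
    exact Finset.sum_congr rfl fun i _ => by
      rw [smul_dotProduct, smul_eq_mul, dotProduct_comm (e i)]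
  have hle : LinearMap.range P ≤ Submodule.span ℝ (Set.range e) := by
    rintro _ ⟨x, rfl⟩
    rw [hP]
    exact Submodule.sum_mem _ fun i _ => Submodule.smul_mem _ _ (Submodule.subset_span ⟨i, rfl⟩)
  have hge : Submodule.span ℝ (Set.range e) ≤ LinearMap.range P := by
    rw [Submodule.span_le]
    rintro _ ⟨k, rfl⟩
    refine ⟨e k, ?_⟩
    rw [hP]
    simp only [he k]
    simp
  have hli : LinearIndependent ℝ e := by
    rw [Fintype.linearIndependent_iff]
    intro c hc k
    rw [← hs c k, hc, zero_dotProduct]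
  have h4 : finrank ℝ (Submodule.span ℝ (Set.range e)) = 4 := by
    simpa using finrank_span_eq_card hli
  have h5 : finrank ℝ (LinearMap.range P) = 4 := by rw [le_antisymm hle hge, h4]
  refine ⟨P, ⟨fun x => ?_, fun x y => ?_, h5.le, ?_⟩, hP, fun x y => ?_, h2⟩
  · rw [hP (P x), hP x]
    simp only [hs]
  · rw [h3]; simp [h2]
  · have := LinearMap.finrank_range_add_finrank_ker P
    rw [h5, Module.finrank_fintype_fun_eq_card, Fintype.card_fin] at this
    omega
  · rw [h3]; simp only [h1]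

end Pool.Agent.P.MP_22b27c_co
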