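import Pool.Agent.P.MP_22b27c_co.Iface

/-! Rank bounds for codes with small inner products. -/

namespace Pool.Agent.P.MP_22b27c_co

open Module Finset
open scoped Classical Real Matrix

theorem k_rank (hmom : S_MOM) : S_RANK := by
  intro κ ι _ n r s v hr h
  have m := hmom κ ι n r s v h.dim h.nrm
  have h1 : Mo s v 2 + r * Mo s v 1 ≤ s.card * (2 * r ^ 2) := by
    rw [Mo, Mo, Finset.mul_sum, ← Finset.sum_add_distrib, ← nsmul_eq_mul]
    refine Finset.sum_le_card_nsmul _ _ _ fun a ha => ?_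
    rw [Finset.mul_sum, ← Finset.sum_add_distrib, ← Finset.add_sum_erase _ _ ha, h.nrm a ha]
    have : ∑ a' ∈ s.erase a, ((v a ⬝ᵥ v a') ^ 2 + r * (v a ⬝ᵥ v a') ^ 1) ≤ 0 :=
      Finset.sum_nonpos fun a' ha' => by
        have k := Finset.mem_erase.1 ha'
        have b1 := h.le a ha a' k.2 k.1.symm
        have b2 := neg_le_dot (h.nrm a ha) (h.nrm a' k.2)
        nlinarith
    nlinarith
  have h2 := m.m1
  have h3 := m.m2
  have hn : (0 : ℝ) ≤ n := Nat.cast_nonneg n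
  have h4 : Mo s v 2 ≤ s.card * (2 * r ^ 2) := by nlinarith
  have h5 : r ^ 2 * (s.card : ℝ) ^ 2 ≤ n * (s.card * (2 * r ^ 2)) := by nlinarith
  by_contra hc
  have h6 : (2 * n + 1 : ℝ) ≤ s.card := by exact_mod_cast not_le.1 hc
  have h7 : 0 < r ^ 2 * s.card := mul_pos (pow_pos hr 2) (by linarith)
  nlinarith

theorem k_dim1 (hmom : S_MOM) : S_DIM1 := by
  intro κ ι _ r b s v hr hb h
  have h3 := (hmom κ ι 1 r s v h.dim h.nrm).m2
  have le : ∀ a ∈ s, ∀ a' ∈ s, (v a ⬝ᵥ v a') ^ 2 ≤ r ^ 2 := fun a ha a' ha' => by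
    have := dot_sq_le (v a) (v a')
    rwa [h.nrm a ha, h.nrm a' ha', ← sq] at this
  refine card_le_two s v hr h.nrm fun a ha a' ha' hne => ?_
  by_contra hc
  have lt : (v a ⬝ᵥ v a') ^ 2 < r ^ 2 :=
    sq_lt_sq' (not_le.1 hc) ((h.le a ha a' ha' hne).trans_lt hb)
  have : Mo s v 2 < ∑ _a ∈ s, ∑ _a' ∈ s, r ^ 2 :=
    Finset.sum_lt_sum (fun x hx => Finset.sum_le_sum (le x hx))
      ⟨a, ha, Finset.sum_lt_sum (le a ha) ⟨a', ha', lt⟩⟩
  simp only [Finset.sum_const, nsmul_eq_mul] at this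
  push_cast at h3
  nlinarith

theorem k_obt : S_OBT := by
  intro κ ι _ n s v φ ⟨W, hW, hv⟩ h1 h2
  have li : LinearIndependent ℝ fun a : s => v a :=
    LinearMap.BilinForm.linearIndependent_of_pairwise_le_zero (dotProductBilin ℝ ℝ)
      (fun x hx => lt_of_le_of_ne (dot_self_nonneg x) fun e => hx (eq_zero_of_dot_self e.symm))
      φ _ (fun a => h2 a a.2) fun a a' hne => h1 a a.2 a' a'.2 fun e => hne (Subtype.ext e)
  have li' : LinearIndependent ℝ fun a : s => (⟨v a, hv a a.2⟩ : W) :=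
    LinearIndependent.of_comp W.subtype li
  have := li'.fintype_card_le_finrank
  rw [Fintype.card_coe] at this
  omega

end Pool.Agent.P.MP_22b27c_co
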