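import Pool.Agent.P.MP_22b27c_co.Iface

/-! A Rankin-Cohen bracket relation between roots of norm one and the shadow. -/

namespace Pool.Agent.P.MP_22b27c_co

open Module Finset
open scoped Classical Real Matrix

namespace TRCA

/-- weighted sequence -/
def D (a : ℕ → ℝ) : ℕ → ℝ := fun k => k * a k

/-- alternating sequence -/
def A (a : ℕ → ℝ) : ℕ → ℝ := fun k => (-1) ^ k * a k

/-- the inversion relation -/
def R (m : ℕ) (g h : ℕ → ℝ) : Prop := ∀ t : ℝ, 0 < t → SS g (1 / t) = t ^ m * SS h t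

/-- the bracket -/
def br (a b : ℕ → ℝ) : ℕ → ℝ := fun k => 3 * conv a (D b) k + (-1) * conv (D a) b k

theorem R.swap {m : ℕ} {g h : ℕ → ℝ} (k : R m g h) : R m h g := by
  intro t ht
  have e := k (1 / t) (by positivity)
  rw [one_div_one_div] at e
  rw [e, ← mul_assoc, ← mul_pow, mul_one_div_cancel ht.ne', one_pow, one_mul]

theorem R.der (h1 : S_SER1) {m : ℕ} {g h : ℕ → ℝ} (k : R (m + 1) g h) (hg : Good g)
    (hh : Good h) {t : ℝ} (ht : 0 < t) : π * SS (D g) (1 / t) =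
      (m + 1) * t ^ (m + 2) * SS h t - π * t ^ (m + 3) * SS (D h) t := by
  have a1 : HasDerivAt (fun x : ℝ => SS g x⁻¹) (-π * SS (D g) t⁻¹ * (-(t ^ 2)⁻¹)) t :=
    HasDerivAt.comp t ((h1 g hg).2 t⁻¹ (inv_pos.2 ht)) (hasDerivAt_inv ht.ne')
  have a2 : HasDerivAt (fun x : ℝ => x ^ (m + 1) * SS h x)
      (((m + 1 : ℕ) : ℝ) * t ^ (m + 1 - 1) * SS h t + t ^ (m + 1) * (-π * SS (D h) t)) t :=
    (hasDerivAt_pow (m + 1) t).mul ((h1 h hh).2 t ht)
  have a3 : (fun x : ℝ => SS g x⁻¹) =ᶠ[nhds t] fun x : ℝ => x ^ (m + 1) * SS h x := by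
    filter_upwards [Ioi_mem_nhds ht] with x hx
    rw [← one_div]
    exact k x hx
  have a4 := a1.unique (a2.congr_of_eventuallyEq a3)
  rw [Nat.add_sub_cancel] at a4
  push_cast at a4
  have a5 : t ^ 2 * (t ^ 2)⁻¹ = 1 := mul_inv_cancel₀ (by positivity)
  rw [one_div]
  linear_combination t ^ 2 * a4 - π * SS (D g) t⁻¹ * a5

theorem br_good (h1 : S_SER1) (h2 : S_SER2) {a b : ℕ → ℝ} (ha : Good a) (hb : Good b) :
    Good (br a b) ∧ ∀ t : ℝ, 0 < t →
      SS (br a b) t = 3 * (SS a t * SS (D b) t) - SS (D a) t * SS b t := by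
  have k1 := h2.2.2.2 a (D b) ha (h1 b hb).1
  have k2 := h2.2.2.2 (D a) b (h1 a ha).1 hb
  have k3 := h2.2.2.1 _ _ 3 (-1) k1.1 k2.1
  refine ⟨k3.1, fun t ht => (k3.2 t ht).trans ?_⟩
  rw [k1.2 t ht, k2.2 t ht]
  ring

theorem conv_rel (h2 : S_SER2) {g h g' h' : ℕ → ℝ} (hg : Good g) (hh : Good h) (hg' : Good g')
    (hh' : Good h') (k : R 6 g h) (k' : R 2 g' h') {t : ℝ} (ht : 0 < t) :
    SS (conv g g') (1 / t) = t ^ 8 * SS (conv h h') t := by
  rw [(h2.2.2.2 g g' hg hg').2 _ (by positivity), (h2.2.2.2 h h' hh hh').2 t ht, k t ht, k' t ht]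
  ring

theorem br_rel (h1 : S_SER1) (h2 : S_SER2) {g h g' h' : ℕ → ℝ} (hg : Good g) (hh : Good h)
    (hg' : Good g') (hh' : Good h') (k : R 6 g h) (k' : R 2 g' h') {t : ℝ} (ht : 0 < t) :
    SS (br g g') (1 / t) = -t ^ 10 * SS (br h h') t := by
  rw [(br_good h1 h2 hg hg').2 _ (by positivity), (br_good h1 h2 hh hh').2 t ht, k t ht, k' t ht]
  have e := R.der h1 (m := 5) k hg hh ht
  have e' := R.der h1 (m := 1) k' hg' hh' ht
  push_cast at e e'
  refine mul_left_cancel₀ Real.pi_ne_zero ?_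
  linear_combination 3 * t ^ 6 * SS h t * e' - t ^ 2 * SS h' t * e

theorem add3 (h2 : S_SER2) {x y z : ℕ → ℝ} (hx : Good x) (hy : Good y) (hz : Good z) :
    Good (fun k => x k + y k + z k) ∧ ∀ t : ℝ, 0 < t →
      SS (fun k => x k + y k + z k) t = SS x t + SS y t + SS z t := by
  have k1 := h2.2.2.1 x y 1 1 hx hy
  have k2 := h2.2.2.1 _ z 1 1 k1.1 hz
  simp only [one_mul] at k1 k2
  exact ⟨k2.1, fun t ht => by rw [k2.2 t ht, k1.2 t ht]⟩

theorem conv_alt (a b : ℕ → ℝ) {n : ℕ} (hn : Odd n) : conv a b n + conv (A a) (A b) n = 0 := by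
  rw [conv, conv, ← Finset.sum_add_distrib]
  refine Finset.sum_eq_zero fun p hp => ?_
  have e : (-1 : ℝ) ^ p.1 * (-1) ^ p.2 = -1 := by
    rw [← pow_add, Finset.HasAntidiagonal.mem_antidiagonal.1 hp, hn.neg_one_pow]
  simp only [A]
  linear_combination a p.1 * b p.2 * e

theorem conv_ev {a b : ℕ → ℝ} (ha : ∀ k, Even k → a k = 0) (hb : ∀ k, Even k → b k = 0) {n : ℕ}
    (hn : Odd n) : conv a b n = 0 := by
  refine Finset.sum_eq_zero fun p hp => ?_
  have e := Finset.HasAntidiagonal.mem_antidiagonal.1 hp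
  rcases Nat.even_or_odd p.1 with k | k
  · rw [ha _ k, zero_mul]
  · rw [hb p.2 (by
      obtain ⟨i, hi⟩ := k
      obtain ⟨j, hj⟩ := hn
      exact ⟨j - i, by omega⟩), mul_zero]

theorem DA (a : ℕ → ℝ) : D (A a) = A (D a) := by
  funext k
  simp only [D, A]
  ring

theorem D_ev {a : ℕ → ℝ} (ha : ∀ k, Even k → a k = 0) : ∀ k, Even k → D a k = 0 := by
  intro k hk
  rw [D, ha k hk, mul_zero]

theorem conv0 (a b : ℕ → ℝ) : conv a b 0 = a 0 * b 0 := by simp [conv]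

theorem conv2 (a b : ℕ → ℝ) : conv a b 2 = a 0 * b 2 + a 1 * b 1 + a 2 * b 0 := by
  simp [conv, Finset.Nat.antidiagonal_succ, add_assoc]

end TRCA

open TRCA in
theorem k_rc (hser1 : S_SER1) (hser2 : S_SER2) (hmf : S_MF) : S_RC := by
  intro r σ ρ s T1 T2 r0 p0 p1 p2 s1
  have gr := T1.gr
  have gs := T1.gs
  have gp := T2.gr
  have gt := T2.gs
  have ga : Good (A r) := hser2.2.1 r gr
  have gb : Good (A ρ) := hser2.2.1 ρ gp
  have a0 : R 6 r r := T1.e0
  have a1 : R 6 (A r) σ := T1.e1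
  have b0 : R 2 ρ ρ := T2.e0
  have b1 : R 2 (A ρ) s := T2.e1
  have σ0 := T1.ev 0 (by decide)
  have σ2 := T1.ev 2 (by decide)
  have s0 := T2.ev 0 (by decide)
  have s2 := T2.ev 2 (by decide)
  have hc := add3 hser2 (hser2.2.2.2 r ρ gr gp).1 (hser2.2.2.2 _ _ ga gb).1
    (hser2.2.2.2 σ s gs gt).1
  have hd := add3 hser2 (br_good hser1 hser2 gr gp).1 (br_good hser1 hser2 ga gb).1
    (br_good hser1 hser2 gs gt).1
  have c2 := (hmf _ hc.1 fun k hk => by
    rw [conv_alt r ρ hk, conv_ev T1.ev T2.ev hk, add_zero]).1 fun t ht => by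
      rw [hc.2 _ (by positivity), hc.2 t ht, conv_rel hser2 gr gr gp gp a0 b0 ht,
        conv_rel hser2 ga gs gb gt a1 b1 ht, conv_rel hser2 gs ga gt gb a1.swap b1.swap ht]
      ring
  have d2 := (hmf _ hd.1 fun k hk => by
    have e1 := conv_alt r (D ρ) hk
    have e2 := conv_alt (D r) ρ hk
    simp only [br, DA]
    rw [conv_ev T1.ev (D_ev T2.ev) hk, conv_ev (D_ev T1.ev) T2.ev hk]
    linear_combination 3 * e1 - e2).2 (fun t ht => by
      rw [hd.2 _ (by positivity), hd.2 t ht, br_rel hser1 hser2 gr gr gp gp a0 b0 ht,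
        br_rel hser1 hser2 ga gs gb gt a1 b1 ht,
        br_rel hser1 hser2 gs ga gt gb a1.swap b1.swap ht]
      ring) (by simp [br, conv0, D])
  simp only [br, conv0, conv2, D, A, r0, p0, p1, p2, s1, σ0, σ2, s0, s2] at c2 d2
  push_cast at d2
  linarith

end Pool.Agent.P.MP_22b27c_co
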