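import Pool.Agent.P.MP_22b27c_co.Iface

/-!
Reduction of the first case to integer vectors.
-/

namespace Pool.Agent.P.MP_22b27c_co

open Module Finset
open scoped Classical Real Matrix

theorem k_red1 (hci : S_CI) : S_RED1 := by
  intro X U j h hj hX hc
  obtain ⟨f, hf, hz⟩ := hc
  let Φ : (Fin 12 → ℝ) →ₗ[ℝ] (Fin 12 → ℝ) := LinearMap.pi fun i => dotL (f i)
  have hΦ : ∀ v i, Φ v i = v ⬝ᵥ f i := fun v i => dotProduct_comm (f i) v
  let g : (Fin 9 → ℝ) → Fin 12 → ℤ := fun x i => ⌊j x ⬝ᵥ f i⌋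
  have h1 : ∀ x ∈ X, rc (g x) = Φ (j x) := fun x hx => by
    ext i
    obtain ⟨k, hk⟩ := hz (j x) (hX x hx) ⟨2, by rw [hj, h.nrm x hx]; norm_num⟩ i
    simp only [rc, g, hΦ, hk, Int.floor_intCast]
  have h2 : ∀ x ∈ X, ∀ y ∈ X, ((g x ⬝ᵥ g y : ℤ) : ℝ) = x ⬝ᵥ y := fun x hx y hy => by
    rw [← rc_dot, h1 x hx, h1 y hy, ← hj, ← hf.parseval (j x) (j y)]
    exact Finset.sum_congr rfl fun i _ => by rw [hΦ, hΦ]
  have h3 : Set.InjOn g X := fun x hx y hy hxy => by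
    by_contra hne
    have a := h2 x hx y hy
    have b := h2 x hx x hx
    rw [← hxy, b, h.nrm x hx] at a
    have := h.le x hx y hy hne
    linarith
  rw [← Finset.card_image_of_injOn h3]
  refine hci (LinearMap.range (Φ ∘ₗ j)) _ ⟨?_, fun x hx => ?_, fun x hx => ?_,
    fun x hx y hy hxy => ?_⟩
  · simpa using LinearMap.finrank_range_le (Φ ∘ₗ j)
  · obtain ⟨a, ha, rfl⟩ := Finset.mem_image.1 hx
    exact ⟨a, (h1 a ha).symm⟩
  · obtain ⟨a, ha, rfl⟩ := Finset.mem_image.1 hx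
    have := h2 a ha a ha
    rw [h.nrm a ha] at this
    exact_mod_cast this
  · obtain ⟨a, ha, rfl⟩ := Finset.mem_image.1 hx
    obtain ⟨b, hb, rfl⟩ := Finset.mem_image.1 hy
    have := h.le a ha b hb fun e => hxy (by rw [e])
    rw [← h2 a ha b hb] at this
    exact_mod_cast this

end Pool.Agent.P.MP_22b27c_co
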