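import Pool.Agent.P.MP_22b27c_co.Iface

namespace Pool.Agent.P.MP_22b27c_co

open Module Finset
open scoped Classical Real Matrix

theorem k_red2 (hproj : S_PROJ) (hcii : S_CII) : S_RED2 := by
  intro X U j hX hj hU hsd hc
  obtain ⟨e, he, heU, hev⟩ := hc
  obtain ⟨P, hP, hPf, hPd, hPo⟩ := hproj e he
  have hint := hsd.integral
  have hinj : Function.Injective j := by
    intro x y hxy
    have h1 : (x - y) ⬝ᵥ (x - y) = 0 := by
      rw [← hj, map_sub, hxy, sub_self, dotProduct_zero]
    exact sub_eq_zero.1 (eq_zero_of_dot_self h1)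
  rw [← Finset.card_image_of_injective X hinj]
  refine hcii (LinearMap.range j) P (X.image j) hP ⟨?_, ?_, ?_, ?_, ?_, ?_, ?_⟩
  · have := LinearMap.finrank_range_le j
    simpa using this
  · intro x hx
    obtain ⟨a, -, rfl⟩ := Finset.mem_image.1 hx
    exact LinearMap.mem_range_self j a
  · intro x hx
    obtain ⟨a, ha, rfl⟩ := Finset.mem_image.1 hx
    rw [hj, hX.nrm a ha]
  · intro x hx y hy hxy
    obtain ⟨a, ha, rfl⟩ := Finset.mem_image.1 hx
    obtain ⟨b, hb, rfl⟩ := Finset.mem_image.1 hy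
    rw [hj]
    exact hX.le a ha b hb fun h => hxy (by rw [h])
  · intro x hx y hy
    obtain ⟨a, ha, rfl⟩ := Finset.mem_image.1 hx
    obtain ⟨b, hb, rfl⟩ := Finset.mem_image.1 hy
    rw [hj]
    exact hX.int a ha b hb
  · intro x hx y hy
    obtain ⟨a, ha, rfl⟩ := Finset.mem_image.1 hx
    obtain ⟨b, hb, rfl⟩ := Finset.mem_image.1 hy
    rw [hPd]
    exact IsZ.sum _ _ fun i _ =>
      (hint _ (hU a ha) _ (heU i)).mul (hint _ (hU b hb) _ (heU i))
  · intro x hx
    obtain ⟨a, ha, rfl⟩ := Finset.mem_image.1 hx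
    have hu := hU a ha
    have hPu : P (j a) ∈ U := by
      rw [hPf]
      exact U.sum_mem fun i _ => isZ_smul_mem (heU i) (hint _ hu _ (heU i))
    obtain ⟨k, hk⟩ := hev _ (U.sub_mem hu hPu) (hPo (j a))
    have h1 := hP.split (j a) (j a)
    rw [hj, hX.nrm a ha, hk] at h1
    have h2 := dot_self_nonneg (P (j a))
    have h3 := dot_self_nonneg (j a - P (j a))
    rw [hk] at h3
    have h4 : (0 : ℤ) ≤ k := by
      have : (0 : ℝ) ≤ k := by linarith
      exact_mod_cast this
    have h5 : k ≤ 2 := by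
      have : (k : ℝ) ≤ 2 := by linarith
      exact_mod_cast this
    have : k = 0 ∨ k = 1 ∨ k = 2 := by omega
    rcases this with h | h | h <;> subst h <;> push_cast at h1
    · right; right; linarith
    · right; left; linarith
    · left; linarith

end Pool.Agent.P.MP_22b27c_co
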