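import Pool.Agent.P.MP_22b27c_co.Iface

/-! Families of roots with non-positive inner products. -/

namespace Pool.Agent.P.MP_22b27c_co

open Module Finset
open scoped Classical Real Matrix

namespace TRT1A

variable {F : Finset (Fin 12 → ℤ)} {b b' : Fin 12 → ℤ} {i : Fin 12} {ε : ℤ}

theorem sub_dot (hε : ε = 1 ∨ ε = -1) (h : b i = ε) (h' : b' i = ε) :
    (b - Pi.single i ε) ⬝ᵥ (b' - Pi.single i ε) = b ⬝ᵥ b' - 1 := by
  rcases hε with rfl | rfl <;>
    simp [sub_dotProduct, dotProduct_sub, h, h']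

/-- Two roots that share a signed coordinate have opposite remainders. -/
theorem opp (hε : ε = 1 ∨ ε = -1) (hb : b ⬝ᵥ b = 2) (hb' : b' ⬝ᵥ b' = 2) (hl : b ⬝ᵥ b' ≤ 0)
    (h : b i = ε) (h' : b' i = ε) : b' - Pi.single i ε = -(b - Pi.single i ε) := by
  have h1 := sub_dot hε h h
  have h2 := sub_dot hε h' h'
  have h3 := sub_dot hε h h'
  generalize b - Pi.single i ε = u at *
  generalize b' - Pi.single i ε = u' at *
  have h4 := zdot_self_nonneg (u + u')
  have h5 : (u + u') ⬝ᵥ (u + u') = u ⬝ᵥ u + 2 * (u ⬝ᵥ u') + u' ⬝ᵥ u' := by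
    rw [add_dotProduct, dotProduct_add, dotProduct_add, dotProduct_comm u' u]; ring
  exact eq_neg_of_add_eq_zero_right (dotProduct_self_eq_zero.1 (by omega))

theorem two (hn : ∀ b ∈ F, b ⬝ᵥ b = 2) (hl : ∀ b ∈ F, ∀ b' ∈ F, b ≠ b' → b ⬝ᵥ b' ≤ 0)
    (i : Fin 12) (hε : ε = 1 ∨ ε = -1) : (F.filter fun b => b i = ε).card ≤ 2 := by
  by_contra h
  obtain ⟨x, y, z, hx, hy, hz, n1, n2, n3⟩ := Finset.two_lt_card_iff.1 (not_le.1 h)
  rw [mem_filter] at hx hy hz
  have e1 := opp hε (hn x hx.1) (hn y hy.1) (hl x hx.1 y hy.1 n1) hx.2 hy.2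
  have e2 := opp hε (hn x hx.1) (hn z hz.1) (hl x hx.1 z hz.1 n2) hx.2 hz.2
  exact n3 (sub_left_injective (e1.trans e2.symm))

theorem split (hn : ∀ b ∈ F, b ⬝ᵥ b = 2) (i : Fin 12) : (F.filter fun b => b i ≠ 0).card ≤
    (F.filter fun b => b i = 1).card + (F.filter fun b => b i = -1).card := by
  refine (card_le_card fun b hb => ?_).trans (card_union_le _ _)
  simp only [mem_filter, mem_union] at hb ⊢
  have := tri_of_le_three (x := b) (by rw [hn b hb.1]; norm_num) i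
  tauto

theorem four (hn : ∀ b ∈ F, b ⬝ᵥ b = 2) (hl : ∀ b ∈ F, ∀ b' ∈ F, b ≠ b' → b ⬝ᵥ b' ≤ 0)
    (i : Fin 12) : (F.filter fun b => b i ≠ 0).card ≤ 4 := by
  have h1 := split hn i
  have h2 := two hn hl i (ε := 1) (.inl rfl)
  have h3 := two hn hl i (ε := -1) (.inr rfl)
  omega

/-- The shape of two roots that share a signed coordinate. -/
theorem shape (hε : ε = 1 ∨ ε = -1) (hb : b ⬝ᵥ b = 2) (hb' : b' ⬝ᵥ b' = 2) (hl : b ⬝ᵥ b' ≤ 0)
    (h : b i = ε) (h' : b' i = ε) : ∃ (j : Fin 12) (δ : ℤ), j ≠ i ∧ (δ = 1 ∨ δ = -1) ∧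
      b = Pi.single i ε + Pi.single j δ ∧ b' = Pi.single i ε - Pi.single j δ := by
  have h1 := opp hε hb hb' hl h h'
  have h2 := sub_dot hε h h
  obtain ⟨j, δ, hδ, e⟩ : ∃ (j : Fin 12) (δ : ℤ), (δ = 1 ∨ δ = -1) ∧
      b - Pi.single i ε = Pi.single j δ := by
    obtain ⟨j, e | e⟩ := shape1 (x := b - Pi.single i ε) (by omega)
    exacts [⟨j, 1, .inl rfl, e⟩, ⟨j, -1, .inr rfl, e⟩]
  refine ⟨j, δ, ?_, hδ, eq_add_of_sub_eq' e, ?_⟩
  · rintro rfl
    have := congrFun e j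
    simp only [Pi.sub_apply, Pi.single_eq_same] at this
    omega
  · rw [e] at h1
    rw [sub_eq_add_neg]
    exact eq_add_of_sub_eq' h1

theorem pair {C : Finset (Fin 12)} (hn : ∀ b ∈ F, b ⬝ᵥ b = 2) (hs : ∀ b ∈ F, supp b ⊆ C)
    (hl : ∀ b ∈ F, ∀ b' ∈ F, b ≠ b' → b ⬝ᵥ b' ≤ 0) (hC : 1 < C.card) :
    ∃ i ∈ C, ∃ j ∈ C, i ≠ j ∧ (F.filter fun b => b i ≠ 0 ∨ b j ≠ 0).card ≤ 4 := by
  by_cases h : ∀ (i : Fin 12) (ε : ℤ), ε = 1 ∨ ε = -1 → (F.filter fun b => b i = ε).card ≤ 1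
  · obtain ⟨i, hi, j, hj, n⟩ := one_lt_card.1 hC
    refine ⟨i, hi, j, hj, n, ?_⟩
    rw [filter_or]
    have h1 := card_union_le (F.filter fun b => b i ≠ 0) (F.filter fun b => b j ≠ 0)
    have h2 := split hn i
    have h3 := split hn j
    have h4 := h i 1 (.inl rfl)
    have h5 := h i (-1) (.inr rfl)
    have h6 := h j 1 (.inl rfl)
    have h7 := h j (-1) (.inr rfl)
    omega
  · push Not at h
    obtain ⟨i, ε, hε, h⟩ := h
    obtain ⟨b, hb, b', hb', n⟩ := one_lt_card.1 h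
    rw [mem_filter] at hb hb'
    obtain ⟨j, δ, hj, hδ, e, e'⟩ :=
      shape hε (hn b hb.1) (hn b' hb'.1) (hl b hb.1 b' hb'.1 n) hb.2 hb'.2
    have k1 : b j = δ := by rw [e]; simp [hj]
    refine ⟨i, hs b hb.1 (mem_supp.2 (by omega)), j, hs b hb.1 (mem_supp.2 (by omega)), hj.symm,
      (card_le_card fun c hc => ?_).trans (four hn hl i)⟩
    rw [mem_filter] at hc ⊢
    refine ⟨hc.1, fun h0 => ?_⟩
    have h1 := hl c hc.1 b hb.1 (by rintro rfl; omega)
    have h2 := hl c hc.1 b' hb'.1 (by rintro rfl; omega)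
    rw [e] at h1
    rw [e'] at h2
    simp only [dotProduct_add, dotProduct_sub, dotProduct_single, h0] at h1 h2
    rcases hδ with rfl | rfl <;> omega

end TRT1A

theorem k_rt1 : S_RT1 := by
  intro C
  induction hC : C.card using Nat.strong_induction_on generalizing C with | _ n ih =>
  intro F hn hs hl
  by_cases h1 : 1 < C.card
  · obtain ⟨i, hi, j, hj, e, h⟩ := TRT1A.pair hn hs hl h1
    have h2 : ((C.erase i).erase j).card + 2 = n := by
      rw [card_erase_of_mem (mem_erase.2 ⟨e.symm, hj⟩), card_erase_of_mem hi]; omega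
    have h3 := ih _ (by omega) ((C.erase i).erase j) rfl
      (F.filter fun b => ¬ (b i ≠ 0 ∨ b j ≠ 0)) (fun b hb => hn b (mem_filter.1 hb).1)
      (fun b hb k hk => ?_)
      (fun b hb b' hb' => hl b (mem_filter.1 hb).1 b' (mem_filter.1 hb').1)
    · have h4 := card_filter_add_card_filter_not (s := F) fun b => b i ≠ 0 ∨ b j ≠ 0
      omega
    · rw [mem_filter] at hb
      have := mem_supp.1 hk
      exact mem_erase.2 ⟨by rintro rfl; tauto, mem_erase.2 ⟨by rintro rfl; tauto, hs b hb.1 hk⟩⟩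
  · rw [card_eq_zero.2 (eq_empty_of_forall_notMem fun b hb => ?_)]
    · exact Nat.zero_le _
    · have h2 := (tri_of_le_three (x := b) (by rw [hn b hb]; norm_num)).dot_self
      have h3 := card_le_card (hs b hb)
      rw [hn b hb] at h2
      omega

end Pool.Agent.P.MP_22b27c_co
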