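import Pool.Agent.P.MP_22b27c_co.Iface

/-! Counting roots with nonpositive inner products inside a subspace. -/

namespace Pool.Agent.P.MP_22b27c_co

open Module Finset
open scoped Classical Real Matrix

namespace TRT2A

variable {V : Submodule ℝ (Fin 12 → ℝ)} {b b' : Fin 12 → ℤ}

theorem disj (h : b ⬝ᵥ b = 2) (hV : rc b ∈ V) (n : ¬ supp b ⊆ Zs V) {j : Fin 12}
    (hj : j ∈ supp b) : j ∉ Zs V := by
  intro hz
  obtain ⟨i, h1, h2⟩ := Finset.not_subset.1 n
  have e := dot_split (Zs V) b b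
  have a1 := sq_le_dot (res (Zs V) b) j
  have a2 := sq_le_dot (res (Zs V)ᶜ b) i
  have b1 : res (Zs V) b j = b j := if_pos hz
  have b2 : res (Zs V)ᶜ b i = b i := if_pos (Finset.mem_compl.2 h2)
  have c1 : 0 < b j * b j := mul_self_pos.2 (mem_supp.1 hj)
  have c2 : 0 < b i * b i := mul_self_pos.2 (mem_supp.1 h1)
  rw [b1] at a1
  rw [b2] at a2
  have m := res_compl_mem hV (res_mem (Finset.Subset.refl _) b)
  have key : ∀ (l : Fin 12) (c : ℤ), c ≠ 0 → res (Zs V)ᶜ b ≠ Pi.single l c := fun l c hc k => by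
    have := congrFun k l
    rw [k] at m
    simp [res, mem_Zs_of_single hc m, hc.symm] at this
  obtain ⟨l, k | k⟩ := shape1 (x := res (Zs V)ᶜ b) (by omega)
  exacts [key l _ one_ne_zero k, key l _ (by decide) k]

theorem uniq (h : b ⬝ᵥ b = 2) (h' : b' ⬝ᵥ b' = 2) (k : b ⬝ᵥ b' ≤ 0) (hV : rc b ∈ V)
    (hV' : rc b' ∈ V) {i : Fin 12} (h0 : b i ≠ 0) (e : b' i = b i) : i ∈ Zs V := by
  have s : b i * b i = 1 := by
    rcases tri_of_le_three (x := b) (by omega) i with a | a | a
    · simp [a]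
    · exact absurd a h0
    · simp [a]
  have z : b + b' - Pi.single i (2 * b i) = 0 := by
    refine dotProduct_self_eq_zero.1 (le_antisymm ?_ (zdot_self_nonneg _))
    simp only [sub_dotProduct, dotProduct_sub, add_dotProduct, dotProduct_add, dotProduct_single,
      single_dotProduct, Pi.sub_apply, Pi.add_apply, Pi.single_eq_same, h, h',
      dotProduct_comm b' b, e]
    nlinarith
  refine mem_Zs_of_single (c := 2 * b i) (by omega) ?_
  rw [← sub_eq_zero.1 z, rc_add]
  exact V.add_mem hV hV'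

end TRT2A

open TRT2A in
theorem k_rt2 (hrt1 : S_RT1) : S_RT2 := by
  intro V C F h1 h2 h3 h4
  rw [← Finset.card_filter_add_card_filter_not (s := F) fun b => supp b ⊆ Zs V]
  refine add_le_add (hrt1 _ _ (fun b hb => h1 b (mem_filter.1 hb).1)
    (fun b hb => Finset.subset_inter (h2 b (mem_filter.1 hb).1) (mem_filter.1 hb).2)
    fun b hb b' hb' => h3 b (mem_filter.1 hb).1 b' (mem_filter.1 hb').1) ?_
  refine Nat.le_of_mul_le_mul_right (Finset.card_mul_le_card_mul (m := 2) (n := 2)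
    (fun (b : Fin 12 → ℤ) (i : Fin 12) => b i ≠ 0) (fun b hb => ?_) fun i hi => ?_) two_pos
  · obtain ⟨a1, a2⟩ := mem_filter.1 hb
    have := (tri_of_le_three (x := b) (by rw [h1 b a1]; decide)).dot_self
    rw [h1 b a1] at this
    refine le_trans (by omega) (Finset.card_le_card (s := supp b) fun j hj => ?_)
    exact mem_filter.2 ⟨mem_sdiff.2 ⟨h2 b a1 hj, disj (h1 b a1) (h4 b a1) a2 hj⟩, mem_supp.1 hj⟩
  · refine le_trans (Finset.card_le_card_of_injOn (t := ({1, -1} : Finset ℤ)) (fun b => b i)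
      (fun b hb => ?_) fun b hb b' hb' e => ?_) Finset.card_le_two
    · obtain ⟨a1, a2⟩ := mem_filter.1 hb
      rcases tri_of_le_three (x := b) (by rw [h1 b (mem_filter.1 a1).1]; decide) i with a | a | a
      · simp [a]
      · exact absurd a a2
      · simp [a]
    · obtain ⟨a1, a2⟩ := mem_filter.1 hb
      have a1 := (mem_filter.1 a1).1
      have a3 := (mem_filter.1 (mem_filter.1 hb').1).1
      by_contra n
      exact (mem_sdiff.1 hi).2 (uniq (h1 b a1) (h1 b' a3) (h3 b a1 b' a3 n) (h4 b a1) (h4 b' a3)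
        a2 e.symm)

end Pool.Agent.P.MP_22b27c_co
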