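import Pool.Agent.P.MP_22b27c_co.Iface

namespace Pool.Agent.P.MP_22b27c_co

open Module Finset
open scoped Classical Real Matrix

namespace TSER1A

theorem good_mul {a : ℕ → ℝ} (h : Good a) : Good (fun k => k * a k) := by
  intro x hx0 hx1
  have hy0 : 0 < (x + 1) / 2 := by linarith
  have hr0 : 0 ≤ x / ((x + 1) / 2) := div_nonneg hx0 hy0.le
  have hr1 : x / ((x + 1) / 2) < 1 := by rw [div_lt_one hy0]; linarith
  obtain ⟨C, hC⟩ := (tendsto_self_mul_const_pow_of_lt_one hr0 hr1).bddAbove_range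
  refine Summable.of_nonneg_of_le (fun k => by positivity) (fun k => ?_)
    ((h _ hy0.le (by linarith)).mul_left C)
  have h1 : (k : ℝ) * (x / ((x + 1) / 2)) ^ k ≤ C := hC ⟨k, rfl⟩
  have h2 : x ^ k = (x / ((x + 1) / 2)) ^ k * ((x + 1) / 2) ^ k := by
    rw [← mul_pow, div_mul_cancel₀ _ hy0.ne']
  rw [abs_mul, Nat.abs_cast, h2]
  calc (k : ℝ) * |a k| * ((x / ((x + 1) / 2)) ^ k * ((x + 1) / 2) ^ k)
      = (k * (x / ((x + 1) / 2)) ^ k) * (|a k| * ((x + 1) / 2) ^ k) := by ring
    _ ≤ _ := mul_le_mul_of_nonneg_right h1 (by positivity)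

theorem exp_eq (t : ℝ) (k : ℕ) : Real.exp (-π * t * k) = Real.exp (-π * t) ^ k := by
  rw [← Real.exp_nat_mul, mul_comm]

theorem exp_lt {t : ℝ} (ht : 0 < t) : Real.exp (-π * t) < 1 :=
  Real.exp_lt_one_iff.2 (by have := mul_pos Real.pi_pos ht; linarith)

end TSER1A

open TSER1A in
theorem k_ser1 : S_SER1 := by
  intro a ha
  refine ⟨good_mul ha, fun t ht => ?_⟩
  have hu := (good_mul ha _ (Real.exp_pos (-π * (t / 2))).le (exp_lt (half_pos ht))).mul_left π
  have h := hasDerivAt_tsum_of_isPreconnected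
    (g := fun (k : ℕ) (s : ℝ) => a k * Real.exp (-π * s * k))
    (g' := fun (k : ℕ) (s : ℝ) => -π * (k * a k * Real.exp (-π * s * k)))
    (t := Set.Ioi (t / 2)) (y₀ := t) (y := t) hu isOpen_Ioi isPreconnected_Ioi
    (fun k s _ => by
      have h1 : HasDerivAt (fun s : ℝ => -π * s * k) (-π * k) s := by
        simpa using ((hasDerivAt_id s).const_mul (-π)).mul_const (k : ℝ)
      exact ((h1.exp).const_mul (a k)).congr_deriv (by ring))
    (fun k s hs => by
      have h1 : Real.exp (-π * s * k) ≤ Real.exp (-π * (t / 2)) ^ k := by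
        rw [exp_eq]
        refine pow_le_pow_left₀ (Real.exp_pos _).le (Real.exp_le_exp.2 ?_) k
        have := mul_le_mul_of_nonneg_left (le_of_lt hs) Real.pi_pos.le
        linarith
      rw [Real.norm_eq_abs, abs_mul, abs_mul, abs_neg, abs_of_pos Real.pi_pos,
        abs_of_pos (Real.exp_pos _)]
      gcongr)
    (half_lt_self ht)
    (by
      refine Summable.of_norm ?_
      refine (ha _ (Real.exp_pos (-π * t)).le (exp_lt ht)).congr fun k => ?_
      rw [Real.norm_eq_abs, abs_mul, abs_of_pos (Real.exp_pos _), exp_eq])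
    (half_lt_self ht)
  rw [tsum_mul_left] at h
  exact h

end Pool.Agent.P.MP_22b27c_co
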