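import Pool.Agent.P.MP_22b27c_co.Iface

/-! Calculus of exponential series. -/

namespace Pool.Agent.P.MP_22b27c_co

open Module Finset
open scoped Classical Real Matrix

namespace TSER2A

theorem ex (t : ℝ) (k : ℕ) : Real.exp (-π * t * k) = Real.exp (-π * t) ^ k := by
  rw [← Real.exp_nat_mul, mul_comm]

theorem lt1 {t : ℝ} (h : 0 < t) : Real.exp (-π * t) < 1 :=
  Real.exp_lt_one_iff.2 (by have := Real.pi_pos; nlinarith)

theorem nrm {a : ℕ → ℝ} (h : Good a) {x : ℝ} (h0 : 0 ≤ x) (h1 : x < 1) :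
    Summable fun k => ‖a k * x ^ k‖ := by
  simpa only [Real.norm_eq_abs, abs_mul, abs_pow, abs_of_nonneg h0] using h x h0 h1

theorem cv (a b : ℕ → ℝ) (x : ℝ) (n : ℕ) :
    ∑ p ∈ antidiagonal n, a p.1 * x ^ p.1 * (b p.2 * x ^ p.2) = conv a b n * x ^ n := by
  rw [conv, sum_mul]
  refine sum_congr rfl fun p hp => ?_
  rw [← mem_antidiagonal.1 hp, pow_add]
  ring

end TSER2A

open TSER2A in
theorem k_ser2 : S_SER2 := by
  refine ⟨fun a h t ht => ?_, fun a h x h0 h1 => ?_, fun a b c d ha hb => ⟨fun x h0 h1 => ?_,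
    fun t ht => ?_⟩, fun a b ha hb => ⟨fun x h0 h1 => ?_, fun t ht => ?_⟩⟩
  · simpa only [ex] using h _ (Real.exp_pos _).le (lt1 ht)
  · simpa [abs_mul] using h x h0 h1
  · refine (((ha x h0 h1).mul_left |c|).add ((hb x h0 h1).mul_left |d|)).of_nonneg_of_le
      (fun k => by positivity) fun k => ?_
    rw [← mul_assoc, ← mul_assoc, ← add_mul, ← abs_mul, ← abs_mul]
    exact mul_le_mul_of_nonneg_right (abs_add_le _ _) (by positivity)
  · have h1 := (nrm ha (Real.exp_pos _).le (lt1 ht)).of_norm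
    have h2 := (nrm hb (Real.exp_pos _).le (lt1 ht)).of_norm
    simp only [SS, ex]
    rw [← tsum_mul_left, ← tsum_mul_left, ← (h1.mul_left c).tsum_add (h2.mul_left d)]
    exact tsum_congr fun k => by ring
  · simpa only [cv, Real.norm_eq_abs, abs_mul, abs_pow, abs_of_nonneg h0] using
      summable_norm_sum_mul_antidiagonal_of_summable_norm (nrm ha h0 h1) (nrm hb h0 h1)
  · simp only [SS, ex]
    rw [tsum_mul_tsum_eq_tsum_sum_antidiagonal_of_summable_norm
      (nrm ha (Real.exp_pos _).le (lt1 ht)) (nrm hb (Real.exp_pos _).le (lt1 ht))]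
    simp only [cv]

end Pool.Agent.P.MP_22b27c_co
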