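import Pool.Agent.P.MP_22b27c_co.Iface

namespace Pool.Agent.P.MP_22b27c_co

open Module Finset
open scoped Classical Real Matrix

theorem k_step : S_STEP := by
  intro n M P _ hA hE _ hP
  obtain ⟨d, hd, hdM⟩ := hE
  have key : ∀ (k : ℤ) (w : P), k • (QuotientAddGroup.mk w : P ⧸ M.addSubgroupOf P) = 0 ↔
      (k : ℝ) • (w : Fin n → ℝ) ∈ M := fun k w => by
    rw [← QuotientAddGroup.mk_zsmul, QuotientAddGroup.eq_zero_iff, AddSubgroup.mem_addSubgroupOf,
      Int.cast_smul_eq_zsmul]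
    rfl
  have hex : AddMonoid.ExponentExists (P ⧸ M.addSubgroupOf P) := ⟨d, hd, fun q => by
    obtain ⟨w, rfl⟩ := QuotientAddGroup.mk_surjective q
    have := (key d w).2 (by simpa using hdM w (hP w w.2))
    simpa using this⟩
  obtain ⟨q, hq⟩ := AddMonoid.exists_addOrderOf_eq_exponent hex
  obtain ⟨y, rfl⟩ := QuotientAddGroup.mk_surjective q
  set D := AddMonoid.exponent (P ⧸ M.addSubgroupOf P) with hD
  have hD0 : 0 < D := hex.exponent_pos
  have h1 : ∀ w ∈ P, (D : ℝ) • w ∈ M := fun w hw => by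
    have := (key D ⟨w, hw⟩).1 (by
      rw [natCast_zsmul]
      exact AddMonoid.exponent_nsmul_eq_zero _)
    simpa using this
  have h2 : ∀ k : ℤ, (k : ℝ) • (y : Fin n → ℝ) ∈ M → (D : ℤ) ∣ k := fun k hk => by
    rw [← hq]
    exact addOrderOf_dvd_iff_zsmul_eq_zero.2 ((key k y).2 hk)
  have h3 : ∀ w ∈ P, ∃ k : ℤ, (D : ℝ) * (w ⬝ᵥ (y : Fin n → ℝ)) = k := fun w hw => by
    obtain ⟨k, hk⟩ := hP y y.2 _ (h1 w hw)
    exact ⟨k, by rw [← hk, dotProduct_smul, dotProduct_comm, smul_eq_mul]⟩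
  obtain ⟨a, ha⟩ := h3 y y.2
  have hc : IsCoprime a (D : ℤ) := by
    rw [Int.isCoprime_iff_gcd_eq_one]
    by_contra hg
    obtain ⟨p, hp, hpg⟩ := Nat.exists_prime_and_dvd hg
    obtain ⟨a', ha'⟩ : (p : ℤ) ∣ a := (Int.natCast_dvd_natCast.2 hpg).trans (Int.gcd_dvd_left ..)
    obtain ⟨D', hD'⟩ : (p : ℤ) ∣ D := (Int.natCast_dvd_natCast.2 hpg).trans (Int.gcd_dvd_right ..)
    have hp0 : (p : ℝ) ≠ 0 := by exact_mod_cast hp.ne_zero
    have e1 : (D : ℝ) = p * D' := by exact_mod_cast hD'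
    have e2 : (a : ℝ) = p * a' := by exact_mod_cast ha'
    have e3 : (D' : ℝ) * ((y : Fin n → ℝ) ⬝ᵥ y) = a' := by
      refine mul_left_cancel₀ hp0 ?_
      rw [← mul_assoc, ← e1, ha, e2]
    have hm : (D' : ℝ) • (y : Fin n → ℝ) ∈ M := by
      refine hA _ (hP _ ?_) ⟨D' * a', ?_⟩
      · rw [Int.cast_smul_eq_zsmul]
        exact P.zsmul_mem y.2 _
      · rw [smul_dotProduct, dotProduct_smul, smul_eq_mul, smul_eq_mul, e3]
        push_cast
        rfl
    have h4 : (D : ℤ) ∣ D' := h2 D' hm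
    have h5 : (0 : ℤ) < D := by exact_mod_cast hD0
    have h6 : (2 : ℤ) ≤ p := by exact_mod_cast hp.two_le
    have h7 : 0 < D' := by
      by_contra h
      nlinarith
    have h8 := Int.le_of_dvd h7 h4
    nlinarith
  refine ⟨y, D, a, y.2, hD0, h1, h2, ha, hc, fun w hw => ?_⟩
  obtain ⟨k, hk⟩ := h3 w hw
  obtain ⟨u, v, huv⟩ := hc
  refine ⟨k * u, k * v, ?_⟩
  have hD1 : (D : ℝ) ≠ 0 := by exact_mod_cast hD0.ne'
  have e : (u : ℝ) * a + v * D = 1 := by exact_mod_cast huv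
  refine mul_left_cancel₀ hD1 ?_
  rw [sub_dotProduct, smul_dotProduct, smul_eq_mul, mul_sub, hk, mul_left_comm, ha]
  push_cast
  linear_combination (-k : ℝ) * e

end Pool.Agent.P.MP_22b27c_co
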