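import Pool.Agent.P.MP_22b27c_co.Iface

/-! Twenty-four unit vectors in the lattice or in its shadow give an orthonormal frame. -/

namespace Pool.Agent.P.MP_22b27c_co

open Module Finset
open scoped Classical Real Matrix

namespace TSTR1A

theorem frame (horth : S_ORTH) (U : Lat 12) (a : Fin 12 → ℝ) (hc : cnt U a 1 = 24)
    (hn : ∀ x ∈ sh U a 1, -x ∈ sh U a 1)
    (ho : ∀ x ∈ sh U a 1, ∀ y ∈ sh U a 1, -1 < x ⬝ᵥ y → x ⬝ᵥ y < 1 → x ⬝ᵥ y = 0) :
    ∃ f : Fin 12 → Fin 12 → ℝ, ON f ∧ ∀ i, f i ∈ sh U a 1 := by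
  have h1 : (sh U a 1).ncard = 24 := by
    rw [cnt] at hc
    exact_mod_cast hc
  have h2 : (sh U a 1).Finite := Set.finite_of_ncard_ne_zero (by omega)
  have h3 : ∀ x ∈ sh U a 1, x ⬝ᵥ x = 1 := fun x hx => by simpa using hx.2
  obtain ⟨j, e, k1, k2, k3, -⟩ := horth 12 h2.toFinset 1 one_pos (by simpa using h3)
    (by simpa using hn) (by
      simp only [Set.Finite.mem_toFinset]
      intro x hx y hy
      by_cases b : y = x
      · exact Or.inr (Or.inl b)
      by_cases c : x ⬝ᵥ y ≤ -1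
      · exact Or.inr (Or.inr (eq_neg_of_dot (h3 x hx) (h3 y hy) c))
      · exact Or.inl (ho x hx y hy (not_le.1 c) (dot_lt (h3 x hx) (h3 y hy) (Ne.symm b))))
  rw [← Set.ncard_eq_toFinset_card _ h2, h1] at k1
  obtain rfl : j = 12 := by omega
  simp only [Set.Finite.mem_toFinset] at k2
  refine ⟨e, fun i i' => ?_, k2⟩
  split_ifs with b
  · subst b
    exact h3 _ (k2 i)
  · exact k3 i i' b

end TSTR1A

theorem k_str1 (horth : S_ORTH) : S_STR1 := by
  rintro U w hU ⟨hw, hw'⟩ (h | ⟨h0, hf, h⟩)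
  · obtain ⟨f, h1, h2⟩ := TSTR1A.frame horth U 0 h
      (fun x hx => ⟨by simpa using hx.1, by simpa using hx.2⟩) (fun x hx y hy a b => by
        obtain ⟨k, hk⟩ := hU.integral x (by simpa using hx.1) y (by simpa using hy.1)
        rw [hk] at a b ⊢
        have a : -1 < k := by exact_mod_cast a
        have b : k < 1 := by exact_mod_cast b
        obtain rfl : k = 0 := by omega
        simp)
    exact ⟨f, h1, fun u hu _ i => hU.integral u hu _ (by simpa using (h2 i).1)⟩
  · have he : sh U 0 1 = ∅ := by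
      rw [cnt] at h0
      exact (Set.ncard_eq_zero hf).1 (by exact_mod_cast h0)
    have hn : ∀ x ∈ sh U ((1 / 2 : ℝ) • w) 1, -x ∈ sh U ((1 / 2 : ℝ) • w) 1 := fun x hx =>
      ⟨by
        convert sub_mem (neg_mem hx.1) hw using 1
        funext i
        simp only [Pi.sub_apply, Pi.neg_apply, Pi.smul_apply, smul_eq_mul]
        ring, by simpa using hx.2⟩
    have key : ∀ x ∈ sh U ((1 / 2 : ℝ) • w) 1, ∀ y ∈ sh U ((1 / 2 : ℝ) • w) 1,
        IsZ (2 - 2 * (x ⬝ᵥ y)) ∧ 2 - 2 * (x ⬝ᵥ y) ≠ 1 := by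
      intro x hx y hy
      have m : x - y ∈ U := by simpa using sub_mem hx.1 hy.1
      have e : (x - y) ⬝ᵥ (x - y) = 2 - 2 * (x ⬝ᵥ y) := by
        rw [dot_sub_self, hx.2, hy.2]
        push_cast
        ring
      refine ⟨e ▸ hU.integral _ m _ m, fun k => ?_⟩
      have : x - y ∈ sh U 0 1 := ⟨by simpa using m, by rw [e, k, Nat.cast_one]⟩
      rw [he] at this
      exact this
    obtain ⟨f, h1, h2⟩ := TSTR1A.frame horth U _ h hn (fun x hx y hy a b => by
      obtain ⟨⟨k, hk⟩, k1⟩ := key x hx y hy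
      have k2 := (key x hx _ (hn y hy)).2
      rw [dotProduct_neg] at k2
      have a1 : (0 : ℝ) < k := by linarith
      have a2 : (k : ℝ) < 4 := by linarith
      have a3 : (k : ℝ) ≠ 1 := hk ▸ k1
      have a4 : (k : ℝ) ≠ 3 := fun e => k2 (by linarith)
      have a1 : 0 < k := by exact_mod_cast a1
      have a2 : k < 4 := by exact_mod_cast a2
      have a3 : k ≠ 1 := by exact_mod_cast a3
      have a4 : k ≠ 3 := by exact_mod_cast a4
      obtain rfl : k = 2 := by omega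
      push_cast at hk
      linarith)
    refine ⟨f, h1, fun u hu ⟨k, hk⟩ i => ?_⟩
    obtain ⟨l, hl⟩ := hw' u hu
    obtain ⟨m, hm⟩ := hU.integral u hu _ (h2 i).1
    rw [dotProduct_sub, dotProduct_smul, smul_eq_mul] at hm
    exact ⟨m + k - l, by push_cast; linarith⟩

end Pool.Agent.P.MP_22b27c_co
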