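import Pool.Agent.P.MP_22b27c_co.Iface

/-! The structure of a unimodular lattice of rank twelve with unit vectors and a short shadow. -/

namespace Pool.Agent.P.MP_22b27c_co

open Module Finset
open scoped Classical Real Matrix

namespace TSTR2A

lemma quarter (m : ℤ) : (1 / 4 : ℝ) ≤ (m + 1 / 2) ^ 2 := by
  have h : 0 ≤ m * (m + 1) := by
    rcases le_or_gt 0 m with h | h
    · positivity
    · exact mul_nonneg_of_nonpos_of_nonpos h.le (by omega)
  have h' : (0 : ℝ) ≤ m * (m + 1) := by exact_mod_cast h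
  nlinarith

end TSTR2A

open TSTR2A in
theorem k_str2 (horth : S_ORTH) (hhalf : S_HALF) : S_STR2 := by
  intro U w hU hw f0 f1 hsum h0 h1
  have mK : ∀ x, x ∈ f0.toFinset ↔ x ∈ U ∧ x ⬝ᵥ x = 1 := fun x => by simp [sh]
  obtain ⟨j, e, hc, he, ho, -⟩ := horth 12 f0.toFinset 1 one_pos (fun x hx => ((mK x).1 hx).2)
    (fun x hx => (mK _).2 ⟨neg_mem ((mK x).1 hx).1, by simpa using ((mK x).1 hx).2⟩)
    fun x hx y hy => by
      obtain ⟨a1, a2⟩ := (mK x).1 hx
      obtain ⟨b1, b2⟩ := (mK y).1 hy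
      by_contra h
      push Not at h
      obtain ⟨k, hk⟩ := hU.integral x a1 y b1
      have c1 := dot_lt a2 b2 h.2.1.symm
      have c2 : -1 < x ⬝ᵥ y := lt_of_not_ge fun c => h.2.2 (eq_neg_of_dot a2 b2 c)
      rw [hk] at c1 c2
      have c3 : k < 1 := by exact_mod_cast c1
      have c4 : -1 < k := by exact_mod_cast c2
      exact h.1 (by rw [hk, show k = 0 by omega, Int.cast_zero])
  have eU : ∀ i, e i ∈ U := fun i => ((mK _).1 (he i)).1
  have hON : ON e := fun i i' => by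
    split_ifs with h
    · rw [← h]
      exact ((mK _).1 (he i)).2
    · exact ho i i' h
  rw [cnt, Set.ncard_eq_toFinset_card _ f0, hc] at h0 hsum
  rw [cnt] at h1 hsum
  have g0 : j ≠ 0 := fun h => h0 (by simp [h])
  have g1 : (sh U ((1 / 2 : ℝ) • w) 1).ncard ≠ 0 := by exact_mod_cast h1
  have g2 : 2 * j + (sh U ((1 / 2 : ℝ) • w) 1).ncard = 24 := by exact_mod_cast hsum
  obtain ⟨s, hs1, hs2⟩ := Set.nonempty_of_ncard_ne_zero g1
  rw [Nat.cast_one] at hs2
  have q : ∀ i, (1 / 4 : ℝ) ≤ (s ⬝ᵥ e i) ^ 2 := fun i => by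
    obtain ⟨k1, a1⟩ := hU.integral _ hs1 _ (eU i)
    obtain ⟨k2, a2⟩ := hw.2 _ (eU i)
    rw [sub_dotProduct, smul_dotProduct, smul_eq_mul, dotProduct_comm w] at a1
    rw [((mK _).1 (he i)).2] at a2
    rw [show s ⬝ᵥ e i = ((k1 - k2 : ℤ) : ℝ) + 1 / 2 by push_cast; linarith]
    exact quarter _
  have q' : (j : ℝ) * (1 / 4) ≤ ∑ i, (s ⬝ᵥ e i) ^ 2 := by
    simpa using Finset.sum_le_sum fun i (_ : i ∈ univ) => q i
  have b := hON.bessel s
  have b0 := dot_self_nonneg (s - ∑ i, (s ⬝ᵥ e i) • e i)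
  have j4 : j ≤ 4 := by
    have : (j : ℝ) ≤ 4 := by linarith
    exact_mod_cast this
  rcases j4.lt_or_eq with j3 | rfl
  · have := hhalf U w j e hU hw hON eU j3 f1
    interval_cases j <;> omega
  · refine ⟨e, hON, eU, fun u hu hz => ?_⟩
    have z : s = ∑ i, (s ⬝ᵥ e i) • e i :=
      sub_eq_zero.1 (eq_zero_of_dot_self (by push_cast at q'; linarith))
    have z1 : u ⬝ᵥ s = 0 := by
      rw [z, dotProduct_sum]
      exact Finset.sum_eq_zero fun i _ => by rw [dotProduct_smul, hz, smul_zero]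
    obtain ⟨k1, a1⟩ := hU.integral _ hu _ hs1
    obtain ⟨k2, a2⟩ := hw.2 _ hu
    rw [dotProduct_sub, dotProduct_smul, smul_eq_mul, z1] at a1
    exact ⟨k2 - k1, by push_cast; linarith⟩

end Pool.Agent.P.MP_22b27c_co
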