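import Pool.Agent.P.MP_22b27c_co.Iface

/-! Functional equations for the theta series of a unimodular lattice and of its shadow. -/

namespace Pool.Agent.P.MP_22b27c_co

open Module Finset
open scoped Classical Real Matrix

theorem k_th (hpois : S_POIS) (hvdb : S_VDB) (hgrp : S_GRP) : S_TH := by
  intro n m hn hm U w hU hw
  have hp := hpois n m hn U hU
  have hg := fun a => hgrp n U a fun t ht => (hp a t ht).1
  refine ⟨?_, fun a => (hg a).1⟩
  obtain ⟨k', hk'⟩ := hvdb n m hn hm U w hU hw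
  have odd : ∀ u ∈ U, ∃ j : ℤ,
      (u + (1 / 2 : ℝ) • w) ⬝ᵥ (u + (1 / 2 : ℝ) • w) = ((2 * j + 1 : ℤ) : ℝ) := by
    intro u hu
    obtain ⟨k, hk⟩ := hw.2 u hu
    obtain ⟨z, hz⟩ := hU.integral u hu w hw.1
    refine ⟨k + z + k', ?_⟩
    rw [dot_add_self, dotProduct_smul, dotProduct_smul, smul_dotProduct, hk']
    simp only [smul_eq_mul]
    push_cast
    linarith
  obtain ⟨g0, s0⟩ := (hg 0).2 fun u hu => by simpa using hU.integral u hu u hu
  obtain ⟨g1, s1⟩ := (hg ((1 / 2 : ℝ) • w)).2 fun u hu => odd u hu |>.elim fun j hj => ⟨_, hj⟩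
  have t0 := s0 (fun _ => 1) (fun _ => 1) (by simp) fun _ _ _ => rfl
  have t1 := s1 (fun _ => 1) (fun _ => 1) (by simp) fun _ _ _ => rfl
  simp only [one_mul] at t0 t1
  refine ⟨g0, g1, fun k hk => ?_, fun t ht => ?_, fun t ht => ?_⟩
  · have : sh U ((1 / 2 : ℝ) • w) k = ∅ := by
      refine Set.eq_empty_of_forall_notMem fun s hs => ?_
      obtain ⟨j, hj⟩ := odd _ hs.1
      rw [sub_add_cancel, hs.2] at hj
      have : (k : ℤ) = 2 * j + 1 := by exact_mod_cast hj
      obtain ⟨r, rfl⟩ := hk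
      omega
    rw [cnt, this, Set.ncard_empty, Nat.cast_zero]
  · have e := (hp 0 t ht).2
    rw [t0 t ht] at e
    rw [← e, ← t0 _ (one_div_pos.2 ht)]
    simp
  · have e := (hp ((1 / 2 : ℝ) • w) t ht).2
    rw [t1 t ht] at e
    have l := s0 (fun k => (-1) ^ k) (fun u => Real.cos (2 * π * (u.1 ⬝ᵥ ((1 / 2 : ℝ) • w))))
      (by simp) (fun u k hk => by
        obtain ⟨j, hj⟩ := hw.2 u.1 u.2
        rw [add_zero] at hk
        have : 2 * π * (u.1 ⬝ᵥ ((1 / 2 : ℝ) • w)) = k * π - j * (2 * π) := by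
          rw [dotProduct_smul, smul_eq_mul, show u.1 ⬝ᵥ w = k - 2 * j by linarith]
          ring
        rw [this, Real.cos_sub_int_mul_two_pi, Real.cos_nat_mul_pi]) _ (one_div_pos.2 ht)
    rw [← e, ← l]
    simp only [add_zero]

end Pool.Agent.P.MP_22b27c_co
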