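import Pool.Agent.P.MP_22b27c_co.Iface

/-! The norm of a characteristic vector of a unimodular lattice, from theta functions. -/

namespace Pool.Agent.P.MP_22b27c_co

open Module Finset
open scoped Classical Real Matrix

namespace TVDBA

open Complex

lemma chain (g0 g1 g2 : ℂ → ℂ) (ω : ℂ) (m : ℕ) (h01 : ∀ τ, g0 (τ + 1) = g1 τ)
    (h10 : ∀ τ, g1 (τ + 1) = g0 τ) (h2 : ∀ τ, g2 (τ + 1) = ω * g2 τ)
    (hA : ∀ τ : ℂ, 0 < τ.im → g1 (-1 / τ) = (-I * τ) ^ m * g2 τ)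
    (hB : ∀ τ : ℂ, 0 < τ.im → g2 (-1 / τ) = (-I * τ) ^ m * g1 τ) (h0 : g0 I ≠ 0) :
    ω * (-I) ^ m = 1 := by
  have n1 : (1 + I : ℂ) ≠ 0 := fun h => by simpa using congrArg Complex.re h
  have a1 := hA ((1 + I) / 2) (by simp)
  have a2 := hB (1 + I) (by simp)
  have e1 : -1 / ((1 + I) / 2) = (-1 + I : ℂ) := by
    field_simp
    linear_combination -I_sq
  have e2 : -1 / (1 + I) = ((-1 + I) / 2 : ℂ) := by
    field_simp
    linear_combination -I_sq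
  have a3 := h01 (-1 + I)
  have a4 := h2 ((-1 + I) / 2)
  have a5 := h10 I
  rw [show (-1 + I) + 1 = (I : ℂ) by ring] at a3
  rw [show (-1 + I) / 2 + 1 = ((1 + I) / 2 : ℂ) by ring] at a4
  rw [e1, ← a3, a4] at a1
  rw [e2, add_comm 1 I, a5, add_comm I 1] at a2
  have e3 : (-I * ((1 + I) / 2)) ^ m * (-I * (1 + I)) ^ m = (-I : ℂ) ^ m := by
    rw [← mul_pow]
    congr 1
    linear_combination (I ^ 2 / 2 + I) * I_sq
  refine mul_right_cancel₀ h0 ?_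
  rw [← e3, one_mul]
  nth_rw 2 [a1]
  rw [a2]
  ring

lemma cos_eq (N k : ℤ) (x : ℝ) (h : N - x = 2 * k) :
    (Real.cos (2 * π * (1 / 2 * x)) : ℂ) = cexp (π * I * (N : ℝ)) := by
  rw [show 2 * π * (1 / 2 * x) = N * π - k * (2 * π) by rw [show x = N - 2 * k by linarith]; ring,
    Real.cos_sub_int_mul_two_pi, show (π : ℂ) * I * (N : ℝ) = (N * π) * I by push_cast; ring,
    exp_mul_I, Complex.sin_int_mul_pi]
  simp

lemma exp_step (τ : ℂ) (x y : ℝ) (k : ℤ) (h : x = y + 2 * k) :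
    cexp (π * I * (τ + 1) * x) = cexp (π * I * y) * cexp (π * I * τ * x) := by
  have e : (π : ℂ) * I * (τ + 1) * x = π * I * y + π * I * τ * x + k * (2 * π * I) := by
    have : (x : ℂ) = y + 2 * k := by exact_mod_cast h
    linear_combination (π * I) * this
  rw [e, exp_add, exp_add, exp_int_mul_two_pi_mul_I, mul_one]

end TVDBA

open TVDBA Complex in
theorem k_vdb (hpois : S_POIS) (hcont : S_CONT) : S_VDB := by
  intro n m hn hm U w hU hw
  have nn : ∀ x : Fin n → ℝ, 0 ≤ x ⬝ᵥ x := fun x => Finset.sum_nonneg fun i _ => mul_self_nonneg _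
  set a : Fin n → ℝ := (1 / 2 : ℝ) • w with ha
  have hZ : ∀ u : U, ∃ N k : ℤ, u.1 ⬝ᵥ u.1 = N ∧ N - u.1 ⬝ᵥ w = 2 * k := fun u => by
    obtain ⟨N, e⟩ := (hU u.1).1 u.2 u.1 u.2
    obtain ⟨k, e'⟩ := hw.2 u.1 u.2
    exact ⟨N, k, e, e ▸ e'⟩
  have hua : ∀ u : Fin n → ℝ, u ⬝ᵥ a = 1 / 2 * (u ⬝ᵥ w) := fun u => by
    rw [ha, dotProduct_smul, smul_eq_mul]
  have hχ : ∀ u : U, (Real.cos (2 * π * (u.1 ⬝ᵥ a)) : ℂ) = cexp (π * I * (u.1 ⬝ᵥ u.1 : ℝ)) :=
    fun u => by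
      obtain ⟨N, k, e, e'⟩ := hZ u
      rw [hua, e, cos_eq N k _ e']
  have s0 : ∀ t : ℝ, 0 < t → Summable fun u : U => Real.exp (-π * t * (u.1 ⬝ᵥ u.1)) :=
    fun t ht => by simpa only [add_zero] using (hpois n m hn U hU 0 t ht).1
  have s1 : ∀ t : ℝ, 0 < t → Summable fun u : U =>
      |Real.cos (2 * π * (u.1 ⬝ᵥ a))| * Real.exp (-π * t * (u.1 ⬝ᵥ u.1)) := fun t ht =>
    (s0 t ht).of_nonneg_of_le (fun u => by positivity) fun u =>
      mul_le_of_le_one_left (Real.exp_pos _).le (Real.abs_cos_le_one _)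
  have s2 : ∀ t : ℝ, 0 < t → Summable fun u : U =>
      |(1 : ℝ)| * Real.exp (-π * t * ((u.1 + a) ⬝ᵥ (u.1 + a))) := fun t ht => by
    simpa only [abs_one, one_mul] using (hpois n m hn U hU a t ht).1
  have key := chain (fun τ => ∑' u : U, cexp (π * I * τ * (u.1 ⬝ᵥ u.1 : ℝ)))
    (fun τ => ∑' u : U, (Real.cos (2 * π * (u.1 ⬝ᵥ a)) : ℂ) * cexp (π * I * τ * (u.1 ⬝ᵥ u.1 : ℝ)))
    (fun τ => ∑' u : U, ((1 : ℝ) : ℂ) * cexp (π * I * τ * ((u.1 + a) ⬝ᵥ (u.1 + a) : ℝ)))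
    (cexp (π * I * (w ⬝ᵥ w / 4 : ℝ))) m
    (fun τ => tsum_congr fun u => by rw [hχ, exp_step τ _ (u.1 ⬝ᵥ u.1) 0 (by simp)])
    (fun τ => tsum_congr fun u => by
      obtain ⟨N, k, e, -⟩ := hZ u
      rw [hχ, exp_step τ _ (-(u.1 ⬝ᵥ u.1)) N (by rw [e]; ring), ← mul_assoc, ← exp_add]
      simp)
    (fun τ => by
      rw [← tsum_mul_left]
      refine tsum_congr fun u => ?_
      obtain ⟨N, k, e, e'⟩ := hZ u
      rw [exp_step τ _ (w ⬝ᵥ w / 4) (N - k) ?_]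
      · ring
      · rw [add_dotProduct, dotProduct_add, dotProduct_add, dotProduct_comm a u.1, hua, hua, e,
          dotProduct_comm a w, hua]
        push_cast
        linarith)
    (hcont U U _ _ _ _ m (fun u => nn _) (fun u => nn _) s1 s2 fun t ht => by
      simpa only [one_mul] using (hpois n m hn U hU a t ht).2)
    (hcont U U _ _ _ _ m (fun u => nn _) (fun u => nn _) s2 s1 fun t ht => by
      have := (hpois n m hn U hU a (1 / t) (by positivity)).2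
      rw [one_div_one_div] at this
      simp only [one_mul]
      rw [this, ← mul_assoc, ← mul_pow, mul_one_div_cancel ht.ne', one_pow, one_mul])
    (by
      have e : ∀ u : U, cexp (π * I * I * (u.1 ⬝ᵥ u.1 : ℝ)) =
          (Real.exp (-π * 1 * (u.1 ⬝ᵥ u.1)) : ℂ) := fun u => by
        rw [ofReal_exp]
        congr 1
        push_cast
        linear_combination (π * (u.1 ⬝ᵥ u.1 : ℝ) : ℂ) * I_mul_I
      simp only [e]
      rw [← ofReal_tsum, ofReal_ne_zero]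
      exact ((s0 1 one_pos).tsum_pos (fun u => (Real.exp_pos _).le) 0 (Real.exp_pos _)).ne')
  obtain ⟨j, rfl⟩ : ∃ j, m = 4 * j + 2 := ⟨m / 4, by omega⟩
  have e4 : (-I : ℂ) ^ (4 * j + 2) = -1 := by
    rw [pow_add, pow_mul, show (-I : ℂ) ^ 4 = 1 by rw [neg_pow, I_pow_four]; norm_num]
    simp
  rw [e4, mul_neg_one, neg_eq_iff_eq_neg, ← exp_pi_mul_I, exp_eq_exp_iff_exists_int] at key
  obtain ⟨k, hk⟩ := key
  refine ⟨k, ?_⟩
  have h0 : (π : ℂ) * I ≠ 0 := mul_ne_zero (ofReal_ne_zero.2 Real.pi_ne_zero) I_ne_zero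
  have : ((w ⬝ᵥ w / 4 : ℝ) : ℂ) = ((2 * k + 1 : ℝ) : ℂ) := mul_left_cancel₀ h0 (by
    rw [hk]
    push_cast
    ring)
  have := ofReal_injective this
  linarith

end Pool.Agent.P.MP_22b27c_co
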