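import Pool.Agent.P.MP_22b27c_co.Iface

/-! There is no weighing matrix of order five and weight four. -/

namespace Pool.Agent.P.MP_22b27c_co

open Module Finset
open scoped Classical Real Matrix

namespace TWMA

theorem one {x y : ℤ} (hx : x = -1 ∨ x = 0 ∨ x = 1) (hy : y = -1 ∨ y = 0 ∨ y = 1) :
    0 ≤ x * x ∧ x * x ≤ 1 ∧ 0 ≤ y * y ∧ y * y ≤ 1 ∧
      (x * x + y * y = 2 ∧ x * y % 2 = 1 ∨ x * x + y * y ≤ 1 ∧ x * y = 0) := by
  rcases hx with rfl | rfl | rfl <;> rcases hy with rfl | rfl | rfl <;> decide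

theorem two {a b : Fin 5 → ℤ} (ha : ∀ k, a k = -1 ∨ a k = 0 ∨ a k = 1)
    (hb : ∀ k, b k = -1 ∨ b k = 0 ∨ b k = 1) (h1 : a ⬝ᵥ a = 4) (h2 : b ⬝ᵥ b = 4)
    (h3 : a ⬝ᵥ b = 0) (k : Fin 5) (h : a k * a k = 0) : b k * b k = 0 := by
  have e0 := one (ha 0) (hb 0)
  have e1 := one (ha 1) (hb 1)
  have e2 := one (ha 2) (hb 2)
  have e3 := one (ha 3) (hb 3)
  have e4 := one (ha 4) (hb 4)
  simp only [dotProduct, Fin.sum_univ_five] at h1 h2 h3
  have : k = 0 ∨ k = 1 ∨ k = 2 ∨ k = 3 ∨ k = 4 := by fin_cases k <;> simp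
  rcases this with rfl | rfl | rfl | rfl | rfl <;> omega

theorem zero {a : Fin 5 → ℤ} (ha : ∀ k, a k = -1 ∨ a k = 0 ∨ a k = 1) (h1 : a ⬝ᵥ a = 4) :
    ∃ k, a k * a k = 0 := by
  by_contra h
  have e : ∀ k, a k * a k = 1 := fun k => by
    have := one (ha k) (ha k)
    have : a k * a k ≠ 0 := fun e => h ⟨k, e⟩
    omega
  simp [dotProduct, e] at h1

end TWMA

open TWMA in
theorem k_wm : S_WM := by
  intro C t h
  have d : ∀ i, C i ⬝ᵥ C i = 4 := fun i => by simpa using h i i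
  obtain ⟨z, hz⟩ := zero (t 0) (d 0)
  have c : ∀ i, Matrix.of C i z = 0 := fun i => by
    by_cases e : 0 = i
    · subst e
      exact mul_self_eq_zero.1 hz
    · exact mul_self_eq_zero.1 (two (t 0) (t i) (d 0) (d i) (by simpa [e] using h 0 i) z hz)
  have e : Matrix.of C * (Matrix.of C)ᵀ = Matrix.diagonal fun _ => 4 := by
    ext i j
    rw [Matrix.diagonal_apply, ← h i j]
    rfl
  have := congrArg Matrix.det e
  rw [Matrix.det_mul, Matrix.det_eq_zero_of_column_eq_zero z c, Matrix.det_diagonal] at this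
  simp at this

end Pool.Agent.P.MP_22b27c_co
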