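import Pool.Agent.P.MP_22b27c_co.Iface

namespace Pool.Agent.P.MP_22b27c_co

open Module Finset
open scoped Classical Real Matrix

namespace TZ4A

/-- The standard lattice of rank four. -/
def Z4 : Lat 4 where
  carrier := {x | ∀ i, IsZ (x i)}
  add_mem' := by
    intro x y hx hy i
    obtain ⟨a, ha⟩ := hx i
    obtain ⟨b, hb⟩ := hy i
    exact ⟨a + b, by simp [ha, hb]⟩
  zero_mem' := fun _ => ⟨0, by simp⟩
  neg_mem' := by
    intro x hx i
    obtain ⟨a, ha⟩ := hx i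
    exact ⟨-a, by simp [ha]⟩

theorem mem_Z4 (x : Fin 4 → ℝ) : x ∈ Z4 ↔ ∃ z : Fin 4 → ℤ, x = rc z := by
  constructor
  · intro h
    choose z hz using (show ∀ i, ∃ k : ℤ, x i = k from h)
    exact ⟨z, funext hz⟩
  · rintro ⟨z, rfl⟩ i
    exact ⟨z i, rfl⟩

/-- The finite list of integer vectors. -/
noncomputable def F (c : ℤ) (k : ℕ) : Finset (Fin 4 → ℤ) :=
  (Fintype.piFinset fun _ => Finset.Icc (-1 : ℤ) 1).filter fun z =>
    (2 * z 0 + c) ^ 2 + (2 * z 1 + c) ^ 2 + (2 * z 2 + c) ^ 2 + (2 * z 3 + c) ^ 2 = 4 * (k : ℤ)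

theorem bound (z c : ℤ) (hc : c = 0 ∨ c = 1) (h : (2 * z + c) ^ 2 ≤ 8) : -1 ≤ z ∧ z ≤ 1 := by
  constructor
  · by_contra h1
    rcases hc with rfl | rfl <;> nlinarith
  · by_contra h1
    rcases hc with rfl | rfl <;> nlinarith

theorem cnt_eq (c : ℤ) (hc : c = 0 ∨ c = 1) (k : ℕ) (hk : k ≤ 2) :
    cnt Z4 (fun _ => (c : ℝ) / 2) k = ((F c k).card : ℝ) := by
  have hinj : Function.Injective
      fun z : Fin 4 → ℤ => (rc z + fun _ => (c : ℝ) / 2 : Fin 4 → ℝ) := by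
    intro z z' h
    funext i
    have h1 := congrFun h i
    simp only [rc, Pi.add_apply, add_left_inj, Int.cast_inj] at h1
    exact h1
  have hn : ∀ z : Fin 4 → ℤ,
      4 * ((rc z + fun _ => (c : ℝ) / 2 : Fin 4 → ℝ) ⬝ᵥ (rc z + fun _ => (c : ℝ) / 2)) =
        (((2 * z 0 + c) ^ 2 + (2 * z 1 + c) ^ 2 + (2 * z 2 + c) ^ 2 + (2 * z 3 + c) ^ 2 : ℤ) : ℝ) := by
    intro z
    simp only [dotProduct, Fin.sum_univ_four, rc, Pi.add_apply]
    push_cast
    ring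
  have hs : sh Z4 (fun _ => (c : ℝ) / 2) k =
      (fun z : Fin 4 → ℤ => (rc z + fun _ => (c : ℝ) / 2 : Fin 4 → ℝ)) '' (F c k : Set _) := by
    ext s
    constructor
    · rintro ⟨h1, h2⟩
      obtain ⟨z, hz⟩ := (mem_Z4 _).1 h1
      have h3 : s = rc z + fun _ => (c : ℝ) / 2 := by rw [← hz]; abel
      have h4 := hn z
      rw [← h3, h2] at h4
      have h5 : (2 * z 0 + c) ^ 2 + (2 * z 1 + c) ^ 2 + (2 * z 2 + c) ^ 2 + (2 * z 3 + c) ^ 2
          = 4 * (k : ℤ) := by exact_mod_cast h4.symm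
      refine ⟨z, ?_, h3.symm⟩
      simp only [F, Finset.coe_filter, Fintype.mem_piFinset, Finset.mem_Icc, Set.mem_ofPred_eq]
      refine ⟨fun i => bound _ c hc ?_, h5⟩
      have h6 : (k : ℤ) ≤ 2 := by exact_mod_cast hk
      have g0 := sq_nonneg (2 * z 0 + c)
      have g1 := sq_nonneg (2 * z 1 + c)
      have g2 := sq_nonneg (2 * z 2 + c)
      have g3 := sq_nonneg (2 * z 3 + c)
      fin_cases i <;> simp only [Fin.zero_eta, Fin.mk_one, Fin.reduceFinMk, Fin.isValue] <;>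
        linarith
    · rintro ⟨z, hz, rfl⟩
      have h5 := (Finset.mem_filter.1 (Finset.mem_coe.1 hz)).2
      refine ⟨(mem_Z4 _).2 ⟨z, by simp⟩, ?_⟩
      have h4 := hn z
      rw [h5] at h4
      push_cast at h4
      linarith
  rw [cnt, hs, Set.ncard_image_of_injective _ hinj, Set.ncard_coe_finset]

theorem c01 : (F 0 1).card = 8 := by decide +kernel
theorem c02 : (F 0 2).card = 24 := by decide +kernel
theorem c11 : (F 1 1).card = 16 := by decide +kernel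

end TZ4A

open TZ4A in
theorem k_z4 : S_Z4 := by
  refine ⟨Z4, fun _ => 1, ?_, ⟨fun _ => ⟨1, by simp⟩, ?_⟩, ?_, ?_, ?_⟩
  · intro w
    constructor
    · intro hw x hx
      obtain ⟨a, rfl⟩ := (mem_Z4 _).1 hw
      obtain ⟨b, rfl⟩ := (mem_Z4 _).1 hx
      exact ⟨a ⬝ᵥ b, by simp [dotProduct, rc]⟩
    · intro hw i
      have h1 : (Pi.single i 1 : Fin 4 → ℝ) ∈ Z4 := by
        intro j
        by_cases h : j = i
        · exact ⟨1, by simp [h]⟩
        · exact ⟨0, by simp [h]⟩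
      simpa using hw _ h1
  · intro u hu
    obtain ⟨z, rfl⟩ := (mem_Z4 _).1 hu
    obtain ⟨a0, h0⟩ := Int.even_mul_pred_self (z 0)
    obtain ⟨a1, h1⟩ := Int.even_mul_pred_self (z 1)
    obtain ⟨a2, h2⟩ := Int.even_mul_pred_self (z 2)
    obtain ⟨a3, h3⟩ := Int.even_mul_pred_self (z 3)
    refine ⟨a0 + a1 + a2 + a3, ?_⟩
    have g0 : (z 0 : ℝ) * (z 0 - 1) = a0 + a0 := by exact_mod_cast h0
    have g1 : (z 1 : ℝ) * (z 1 - 1) = a1 + a1 := by exact_mod_cast h1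
    have g2 : (z 2 : ℝ) * (z 2 - 1) = a2 + a2 := by exact_mod_cast h2
    have g3 : (z 3 : ℝ) * (z 3 - 1) = a3 + a3 := by exact_mod_cast h3
    simp only [dotProduct, Fin.sum_univ_four, rc]
    push_cast
    linear_combination g0 + g1 + g2 + g3
  · have h := cnt_eq 0 (Or.inl rfl) 1 (by norm_num)
    rw [c01] at h
    have e : (fun _ => ((0 : ℤ) : ℝ) / 2 : Fin 4 → ℝ) = 0 := by funext i; simp
    rw [e] at h
    exact_mod_cast h
  · have h := cnt_eq 0 (Or.inl rfl) 2 (by norm_num)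
    rw [c02] at h
    have e : (fun _ => ((0 : ℤ) : ℝ) / 2 : Fin 4 → ℝ) = 0 := by funext i; simp
    rw [e] at h
    exact_mod_cast h
  · have h := cnt_eq 1 (Or.inr rfl) 1 (by norm_num)
    rw [c11] at h
    have e : (fun _ => ((1 : ℤ) : ℝ) / 2 : Fin 4 → ℝ) = (1 / 2 : ℝ) • fun _ => (1 : ℝ) := by
      funext i; simp
    rw [e] at h
    exact_mod_cast h

end Pool.Agent.P.MP_22b27c_co
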