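import Pool.Agent.P.MP_22b27c_co.Asm
import Pool.Agent.P.MP_22b27c_co.TMAX
import Pool.Agent.P.MP_22b27c_co.TSTEP
import Pool.Agent.P.MP_22b27c_co.TAR1b
import Pool.Agent.P.MP_22b27c_co.TAR2
import Pool.Agent.P.MP_22b27c_co.TDISC
import Pool.Agent.P.MP_22b27c_co.TMERGE
import Pool.Agent.P.MP_22b27c_co.TGLUE
import Pool.Agent.P.MP_22b27c_co.TBASIS
import Pool.Agent.P.MP_22b27c_co.TDUALB
import Pool.Agent.P.MP_22b27c_co.TPOIS
import Pool.Agent.P.MP_22b27c_co.TCONT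
import Pool.Agent.P.MP_22b27c_co.TVDB
import Pool.Agent.P.MP_22b27c_co.TGRP
import Pool.Agent.P.MP_22b27c_co.TTH
import Pool.Agent.P.MP_22b27c_co.TSER1
import Pool.Agent.P.MP_22b27c_co.TSER2
import Pool.Agent.P.MP_22b27c_co.TMF0
import Pool.Agent.P.MP_22b27c_co.TMF
import Pool.Agent.P.MP_22b27c_co.TRC
import Pool.Agent.P.MP_22b27c_co.TZ4
import Pool.Agent.P.MP_22b27c_co.TORTH
import Pool.Agent.P.MP_22b27c_co.TSTR1
import Pool.Agent.P.MP_22b27c_co.THALF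
import Pool.Agent.P.MP_22b27c_co.TSTR2
import Pool.Agent.P.MP_22b27c_co.TFIS
import Pool.Agent.P.MP_22b27c_co.TLAP
import Pool.Agent.P.MP_22b27c_co.TMOM0
import Pool.Agent.P.MP_22b27c_co.TGRAM
import Pool.Agent.P.MP_22b27c_co.TRANK
import Pool.Agent.P.MP_22b27c_co.TEQ
import Pool.Agent.P.MP_22b27c_co.TWM
import Pool.Agent.P.MP_22b27c_co.TFRAME
import Pool.Agent.P.MP_22b27c_co.TRT1
import Pool.Agent.P.MP_22b27c_co.TRT2
import Pool.Agent.P.MP_22b27c_co.TPOUT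
import Pool.Agent.P.MP_22b27c_co.TPIN
import Pool.Agent.P.MP_22b27c_co.TKIND
import Pool.Agent.P.MP_22b27c_co.TCOV
import Pool.Agent.P.MP_22b27c_co.TCAS0
import Pool.Agent.P.MP_22b27c_co.TCAS1
import Pool.Agent.P.MP_22b27c_co.TAD
import Pool.Agent.P.MP_22b27c_co.TLOW
import Pool.Agent.P.MP_22b27c_co.TDB
import Pool.Agent.P.MP_22b27c_co.TDC
import Pool.Agent.P.MP_22b27c_co.TDEC
import Pool.Agent.P.MP_22b27c_co.TJ9
import Pool.Agent.P.MP_22b27c_co.TFIB1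
import Pool.Agent.P.MP_22b27c_co.TFIB
import Pool.Agent.P.MP_22b27c_co.TCII
import Pool.Agent.P.MP_22b27c_co.TPROJ
import Pool.Agent.P.MP_22b27c_co.TRED1
import Pool.Agent.P.MP_22b27c_co.TRED2
import Pool.Agent.P.MP_22b27c_co.TLP
import Pool.Agent.P.MP_22b27c_co.TEX

/-!
All pieces together.
-/

namespace Pool.Agent.P.MP_22b27c_co

theorem a_emb : S_EMB := k_emb k_max (k_disc k_step k_tern') k_merge k_glue k_ar1' k_ar2

theorem a_pois : S_POIS := k_pois k_basis k_dualb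

theorem a_uni : S_UNI :=
  k_uni (k_char k_basis k_dualb) (k_th a_pois (k_vdb a_pois k_cont) k_grp)
    (k_rc k_ser1 k_ser2 (k_mf k_cont k_mf0 k_ser2)) k_z4 (k_str1 k_orth) (k_str2 k_orth k_half)

theorem a_mom : S_MOM := k_mom (k_mom0 k_fis k_lap) k_gram

theorem a_rank : S_RANK := k_rank a_mom

theorem a_dim1 : S_DIM1 := k_dim1 a_mom

theorem a_lp4 : S_LP4 := k_lp4 a_mom a_dim1

theorem a_lp2 : S_LP2 := k_lp2 a_lp4

theorem a_lp3 : S_LP3 := k_lp3 a_mom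

theorem a_ad : S_AD := k_ad a_lp4

theorem a_ci : S_CI :=
  k_ci (k_low (k_c75 a_lp3) (k_cov k_kind (k_pout k_obt) (k_pin (k_rt2 k_rt1))) k_cas0 k_cas1 a_ad
      (k_lpc a_mom))
    (k_dec a_ad (k_db a_lp2 a_rank) (k_dc a_lp3 a_dim1)) (k_j9 k_rt1)

theorem a_fib1 : S_FIB1 := k_fib1 a_rank k_obt

theorem a_cii : S_CII :=
  k_cii a_lp4 a_lp2 a_fib1
    (k_fib a_fib1 (k_frame (k_eq a_mom) k_orth k_obt k_wm) a_lp2 a_rank)

theorem a_up : S_UP := k_up a_emb a_uni a_lp4 (k_red1 a_ci) (k_red2 k_proj a_cii)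

end Pool.Agent.P.MP_22b27c_co
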