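import Pool.Agent.P.MP_22b27c_co.Iface

/-!
Assembly of the chapters.
-/

namespace Pool.Agent.P.MP_22b27c_co

open Module Finset
open scoped Classical Real Matrix

theorem selfDual_of_disc {n : ℕ} {M : Lat n} {y₁ y₂ : Fin n → ℝ} {a₁ a₂ : ℤ}
    (h : Disc M y₁ y₂ 1 1 a₁ a₂) : SelfDual M := by
  intro w
  refine ⟨fun hw x hx => h.int w hw x hx, fun hw => ?_⟩
  obtain ⟨c₁, c₂, hc⟩ := h.gen w hw
  have h1 : y₁ ∈ M := by simpa using h.m1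
  have h2 : y₂ ∈ M := by simpa using h.m2
  have := M.add_mem (M.add_mem hc (zsmul_mem' h2 c₂)) (zsmul_mem' h1 c₁)
  simpa using this

theorem k_emb (hmax : S_MAX) (hdisc : S_DISC) (hmerge : S_MERGE) (hglue : S_GLUE) (h1 : S_AR1)
    (h2 : S_AR2) : S_EMB := by
  intro X hs hi
  obtain ⟨M, hX, hM, ha, he⟩ := hmax 9 X hs hi
  obtain ⟨y₁, y₂, D₁, D₂, a₁, a₂, hd, hdv, hodd, h4⟩ := hdisc 9 M hM ha he
  obtain ⟨q, hq, hq1, hq2, hq3⟩ := h1 D₁ D₂ a₁ hd.p1 hdv hodd h4 hd.c1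
  obtain ⟨M₁, z₁, hd₁, hm₁⟩ := hglue 9 M y₁ y₂ D₁ D₂ a₁ a₂ q 1 hd hq (by simpa using hq1)
  obtain ⟨a, hd₂⟩ := hmerge 10 M₁ _ _ _ _ _ _ hd₁ hq2
  obtain ⟨q', c, hq', hq4, hq5⟩ := h2 (q * D₂) a hq3 hd₂.c1
  obtain ⟨M₂, z₂, hd₃, hm₂⟩ := hglue 10 M₁ _ _ _ _ _ _ q' 1 hd₂ hq' (by simpa using hq4)
  obtain ⟨M₃, z₃, hd₄, hm₃⟩ := hglue 11 M₂ _ _ _ _ _ _ 1 c hd₃ one_pos (by simpa using hq5)
  refine ⟨M₃, (emb 11).comp ((emb 10).comp (emb 9)), selfDual_of_disc hd₄, fun x y => ?_,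
    fun x hx => hm₃ _ (hm₂ _ (hm₁ _ (hX x hx)))⟩
  simp only [LinearMap.comp_apply, emb_dot]

theorem cnt_zero {n : ℕ} (U : Lat n) : cnt U 0 0 = 1 := by
  have : sh U 0 0 = {0} := by
    ext s
    simp only [sh, sub_zero, Nat.cast_zero, Set.mem_ofPred_eq, Set.mem_singleton_iff]
    exact ⟨fun h => eq_zero_of_dot_self h.2, fun h => by subst h; simp⟩
  simp [cnt, this]

theorem k_uni (hc : S_CHAR) (hth : S_TH) (hrc : S_RC) (hz : S_Z4) (h1 : S_STR1) (h2 : S_STR2) :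
    S_UNI := by
  intro U hU
  obtain ⟨w, hw⟩ := hc 12 U hU
  obtain ⟨U', w', hU', hw', c1, c2, c3⟩ := hz
  obtain ⟨t1, f1⟩ := hth 12 6 rfl rfl U w hU hw
  obtain ⟨t2, -⟩ := hth 4 2 rfl rfl U' w' hU' hw'
  have h24 := hrc _ _ _ _ t1 t2 (cnt_zero U) (cnt_zero U') c1 c2 c3
  by_cases a : cnt U 0 1 = 0
  · exact Or.inl (h1 U w hU hw (Or.inr ⟨a, f1 _ _, by linarith⟩))
  by_cases b : cnt U ((1 / 2 : ℝ) • w) 1 = 0
  · exact Or.inl (h1 U w hU hw (Or.inl (by linarith)))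
  · exact Or.inr (h2 U w hU hw (f1 _ _) (f1 _ _) h24 a b)

theorem k_mom (h0 : S_MOM0) (hg : S_GRAM) : S_MOM := by
  intro κ ι _ n r s v hd hn
  obtain ⟨v', hv⟩ := hg κ ι n s v hd
  have h := h0 κ n r s v' fun a ha => by rw [hv a ha a ha, hn a ha]
  have e : ∀ j, Mo s v' j = Mo s v j := fun j =>
    Finset.sum_congr rfl fun a ha => Finset.sum_congr rfl fun b hb => by rw [hv a ha b hb]
  exact ⟨e 1 ▸ h.m1, e 2 ▸ h.m2, e 1 ▸ e 3 ▸ h.m3, e 2 ▸ e 4 ▸ h.m4, e 1 ▸ e 3 ▸ e 5 ▸ h.m5⟩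

theorem k_ci (hl : S_LOW) (hd : S_DEC) (hj : S_J9) : S_CI := by
  intro V X h
  obtain ⟨W, hW, hm⟩ := dim_rest V
  have h9 := h.dim
  by_cases h5 : (Zs V).card ≤ 5
  · exact hl V X h h5
  by_cases h8 : (Zs V).card ≤ 8
  · exact hd V X h (by omega) h8
  refine hj (Zs V) X (by omega) (fun x hx i hi => ?_) h.nrm h.le
  by_contra hz
  have h0 : W = ⊥ := Submodule.finrank_eq_zero.1 (by omega)
  have h1 : rc (res (Zs V)ᶜ x) ∈ W :=
    hm _ (res_compl_mem (h.mem x hx) (res_mem (Finset.Subset.refl _) x)) fun j hj => by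
      simp [rc, res, hj]
  rw [h0, Submodule.mem_bot] at h1
  have := congrFun h1 i
  simp [rc, res, hz] at this
  exact mem_supp.1 hi this

theorem k_up (he : S_EMB) (hu : S_UNI) (h4 : S_LP4) (h1 : S_RED1) (h2 : S_RED2) : S_UP := by
  intro X h
  by_cases hs : Submodule.span ℝ (X : Set (Fin 9 → ℝ)) = ⊤
  · obtain ⟨U, j, hU, hj, hX⟩ := he X hs h.int
    rcases hu U hU with c | c
    · exact h1 X U j h hj hX c
    · exact h2 X U j h hj hX hU c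
  · have hlt := Submodule.finrank_lt hs
    rw [Module.finrank_fintype_fun_eq_card, Fintype.card_fin] at hlt
    have := h4 _ _ 8 X id le_rfl
      ⟨⟨_, by omega, fun a ha => Submodule.subset_span ha⟩, h.nrm, h.le⟩ h.int
    simp only [L4] at this
    omega

end Pool.Agent.P.MP_22b27c_co
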