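import Mathlib

/-!
Integral kissing configurations in dimension nine: definitions and a toolbox.
-/

namespace Pool.Agent.P.MP_22b27c_co

open Module Finset
open scoped Classical Real Matrix

noncomputable section

/-- The real number is an integer. -/
def IsZ (x : ℝ) : Prop := ∃ k : ℤ, x = k

/-- The real vector of an integer vector. -/
def rc {ι : Type} (x : ι → ℤ) : ι → ℝ := fun i => (x i : ℝ)

/-- Additive subgroups of the coordinate space. -/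
abbrev Lat (n : ℕ) := AddSubgroup (Fin n → ℝ)

def Integral {n : ℕ} (M : Lat n) : Prop := ∀ x ∈ M, ∀ y ∈ M, IsZ (x ⬝ᵥ y)

def InDual {n : ℕ} (M : Lat n) (w : Fin n → ℝ) : Prop := ∀ x ∈ M, IsZ (w ⬝ᵥ x)

def SelfDual {n : ℕ} (U : Lat n) : Prop := ∀ w, w ∈ U ↔ InDual U w

/-- Characteristic vector. -/
def IsChar {n : ℕ} (U : Lat n) (w : Fin n → ℝ) : Prop :=
  w ∈ U ∧ ∀ u ∈ U, ∃ k : ℤ, u ⬝ᵥ u - u ⬝ᵥ w = 2 * k

def Aniso {n : ℕ} (M : Lat n) : Prop := ∀ w, InDual M w → IsZ (w ⬝ᵥ w) → w ∈ M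

def HasExp {n : ℕ} (M : Lat n) : Prop := ∃ d : ℕ, 0 < d ∧ ∀ w, InDual M w → (d : ℝ) • w ∈ M

/-- The dual of `M` is generated over `M` by two orthogonal classes. -/
structure Disc {n : ℕ} (M : Lat n) (y₁ y₂ : Fin n → ℝ) (D₁ D₂ : ℕ) (a₁ a₂ : ℤ) : Prop where
  int : Integral M
  d1 : InDual M y₁
  d2 : InDual M y₂
  p1 : 0 < D₁
  p2 : 0 < D₂
  m1 : (D₁ : ℝ) • y₁ ∈ M
  m2 : (D₂ : ℝ) • y₂ ∈ M
  n1 : (D₁ : ℝ) * (y₁ ⬝ᵥ y₁) = a₁
  n2 : (D₂ : ℝ) * (y₂ ⬝ᵥ y₂) = a₂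
  c1 : IsCoprime a₁ (D₁ : ℤ)
  c2 : IsCoprime a₂ (D₂ : ℤ)
  o : IsZ (y₁ ⬝ᵥ y₂)
  gen : ∀ w, InDual M w → ∃ c₁ c₂ : ℤ, w - (c₁ : ℝ) • y₁ - (c₂ : ℝ) • y₂ ∈ M

/-- Embedding with a new coordinate equal to zero. -/
def emb (n : ℕ) : (Fin n → ℝ) →ₗ[ℝ] (Fin (n + 1) → ℝ) where
  toFun x := Matrix.vecCons 0 x
  map_add' x y := by simp
  map_smul' c x := by simp

/-- Vectors of norm `k` in the coset `a + U`. -/
def sh {n : ℕ} (U : Lat n) (a : Fin n → ℝ) (k : ℕ) : Set (Fin n → ℝ) :=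
  {s | s - a ∈ U ∧ s ⬝ᵥ s = k}

def cnt {n : ℕ} (U : Lat n) (a : Fin n → ℝ) (k : ℕ) : ℝ := ((sh U a k).ncard : ℝ)

/-- The power series has radius of convergence at least one. -/
def Good (a : ℕ → ℝ) : Prop := ∀ x : ℝ, 0 ≤ x → x < 1 → Summable fun k => |a k| * x ^ k

def SS (a : ℕ → ℝ) (t : ℝ) : ℝ := ∑' k : ℕ, a k * Real.exp (-π * t * k)

def conv (a b : ℕ → ℝ) (n : ℕ) : ℝ := ∑ p ∈ antidiagonal n, a p.1 * b p.2

/-- Functional equations of a theta series and its shadow. -/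
structure Th (m : ℕ) (r σ : ℕ → ℝ) : Prop where
  gr : Good r
  gs : Good σ
  ev : ∀ k, Even k → σ k = 0
  e0 : ∀ t : ℝ, 0 < t → SS r (1 / t) = t ^ m * SS r t
  e1 : ∀ t : ℝ, 0 < t → SS (fun k => (-1) ^ k * r k) (1 / t) = t ^ m * SS σ t

/-- Orthonormal family. -/
def ON {j n : ℕ} (e : Fin j → Fin n → ℝ) : Prop :=
  ∀ i i', e i ⬝ᵥ e i' = if i = i' then 1 else 0

def CaseI (U : Lat 12) : Prop :=
  ∃ f : Fin 12 → Fin 12 → ℝ, ON f ∧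
    ∀ u ∈ U, (∃ k : ℤ, u ⬝ᵥ u = 2 * k) → ∀ i, IsZ (u ⬝ᵥ f i)

def CaseII (U : Lat 12) : Prop :=
  ∃ e : Fin 4 → Fin 12 → ℝ, ON e ∧ (∀ i, e i ∈ U) ∧
    ∀ u ∈ U, (∀ i, u ⬝ᵥ e i = 0) → ∃ k : ℤ, u ⬝ᵥ u = 2 * k

/-- The family lies in a subspace of dimension at most `n`. -/
def InDim {κ ι : Type} (n : ℕ) (s : Finset κ) (v : κ → ι → ℝ) : Prop :=
  ∃ W : Submodule ℝ (ι → ℝ), finrank ℝ W ≤ n ∧ ∀ a ∈ s, v a ∈ W

/-- Dimension at most `n`, norm `r`, inner products at most `b`. -/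
structure Code {κ ι : Type} [Fintype ι] (n : ℕ) (r b : ℝ) (s : Finset κ) (v : κ → ι → ℝ) :
    Prop where
  dim : InDim n s v
  nrm : ∀ a ∈ s, v a ⬝ᵥ v a = r
  le : ∀ a ∈ s, ∀ a' ∈ s, a ≠ a' → v a ⬝ᵥ v a' ≤ b

def IntIP {κ ι : Type} [Fintype ι] (s : Finset κ) (v : κ → ι → ℝ) : Prop :=
  ∀ a ∈ s, ∀ a' ∈ s, IsZ (v a ⬝ᵥ v a')

/-- Moments of the inner products. -/
def Mo {κ ι : Type} [Fintype ι] (s : Finset κ) (v : κ → ι → ℝ) (j : ℕ) : ℝ :=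
  ∑ a ∈ s, ∑ a' ∈ s, (v a ⬝ᵥ v a') ^ j

/-- Positivity of the zonal harmonics of degree one to five. -/
structure Mom {κ ι : Type} [Fintype ι] (n : ℕ) (r : ℝ) (s : Finset κ) (v : κ → ι → ℝ) :
    Prop where
  m1 : 0 ≤ Mo s v 1
  m2 : 0 ≤ n * Mo s v 2 - r ^ 2 * (s.card : ℝ) ^ 2
  m3 : 0 ≤ (n + 2) * Mo s v 3 - 3 * r ^ 2 * Mo s v 1
  m4 : 0 ≤ (n + 2) * (n + 4) * Mo s v 4 - 6 * (n + 2) * r ^ 2 * Mo s v 2
    + 3 * r ^ 4 * (s.card : ℝ) ^ 2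
  m5 : 0 ≤ (n + 4) * (n + 6) * Mo s v 5 - 10 * (n + 4) * r ^ 2 * Mo s v 3
    + 15 * r ^ 4 * Mo s v 1

/-- Linear programming bounds for integral codes of norm four. -/
def L4 : ℕ → ℕ
  | 0 => 2
  | 1 => 2
  | 2 => 6
  | 3 => 13
  | 4 => 25
  | 5 => 45
  | 6 => 78
  | 7 => 137
  | _ => 262

/-- A configuration of integer vectors of norm four in a space of dimension at most nine. -/
structure Cfg (V : Submodule ℝ (Fin 12 → ℝ)) (X : Finset (Fin 12 → ℤ)) : Prop where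
  dim : finrank ℝ V ≤ 9
  mem : ∀ x ∈ X, rc x ∈ V
  nrm : ∀ x ∈ X, x ⬝ᵥ x = 4
  le : ∀ x ∈ X, ∀ y ∈ X, x ≠ y → x ⬝ᵥ y ≤ 2

/-- Coordinates whose axis lies in `V`. -/
def Zs (V : Submodule ℝ (Fin 12 → ℝ)) : Finset (Fin 12) :=
  univ.filter fun i => (Pi.single i 1 : Fin 12 → ℝ) ∈ V

def supp (x : Fin 12 → ℤ) : Finset (Fin 12) := univ.filter fun i => x i ≠ 0

/-- All entries are `-1`, `0` or `1`. -/
def Tri (x : Fin 12 → ℤ) : Prop := ∀ i, x i = -1 ∨ x i = 0 ∨ x i = 1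

/-- Restriction to a set of coordinates. -/
def res (p : Finset (Fin 12)) (x : Fin 12 → ℤ) : Fin 12 → ℤ := fun i => if i ∈ p then x i else 0

def tt (V : Submodule ℝ (Fin 12 → ℝ)) (x : Fin 12 → ℤ) : ℕ := (supp x ∩ Zs V).card

/-- Number of contacts. -/
def cont (X : Finset (Fin 12 → ℤ)) (x : Fin 12 → ℤ) : ℕ := (X.filter fun y => x ⬝ᵥ y = 2).card

def GG (V : Submodule ℝ (Fin 12 → ℝ)) (x : Fin 12 → ℤ) : ℕ :=
  4 * (((supp x)ᶜ ∩ Zs V).card / 2) + ((supp x)ᶜ \ Zs V).card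

def bd (V : Submodule ℝ (Fin 12 → ℝ)) (x : Fin 12 → ℤ) (p : Finset (Fin 12)) : ℕ :=
  if rc (res p x) ∈ V then GG V x else if (p ∩ Zs V).Nonempty then 7 else 8

/-- Orthogonal projection of rank four. -/
structure Proj (P : (Fin 12 → ℝ) →ₗ[ℝ] (Fin 12 → ℝ)) : Prop where
  idem : ∀ x, P (P x) = P x
  orth : ∀ x y, P x ⬝ᵥ (y - P y) = 0
  rk : finrank ℝ (LinearMap.range P) ≤ 4
  kr : finrank ℝ (LinearMap.ker P) ≤ 8

/-- A configuration in the sum of an even lattice and the cubic lattice of rank four. -/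
structure Cfg2 (V : Submodule ℝ (Fin 12 → ℝ)) (P : (Fin 12 → ℝ) →ₗ[ℝ] (Fin 12 → ℝ))
    (X : Finset (Fin 12 → ℝ)) : Prop where
  dim : finrank ℝ V ≤ 9
  mem : ∀ x ∈ X, x ∈ V
  nrm : ∀ x ∈ X, x ⬝ᵥ x = 4
  le : ∀ x ∈ X, ∀ y ∈ X, x ≠ y → x ⬝ᵥ y ≤ 2
  int : ∀ x ∈ X, ∀ y ∈ X, IsZ (x ⬝ᵥ y)
  intP : ∀ x ∈ X, ∀ y ∈ X, IsZ (P x ⬝ᵥ P y)
  val : ∀ x ∈ X, P x ⬝ᵥ P x = 0 ∨ P x ⬝ᵥ P x = 2 ∨ P x ⬝ᵥ P x = 4

/-- An integral configuration of norm four in dimension nine. -/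
structure Cfg0 (X : Finset (Fin 9 → ℝ)) : Prop where
  nrm : ∀ x ∈ X, x ⬝ᵥ x = 4
  le : ∀ x ∈ X, ∀ y ∈ X, x ≠ y → x ⬝ᵥ y ≤ 2
  int : ∀ x ∈ X, ∀ y ∈ X, IsZ (x ⬝ᵥ y)

/-! ### Integers -/

lemma IsZ.intCast (k : ℤ) : IsZ (k : ℝ) := ⟨k, rfl⟩
lemma IsZ.natCast (k : ℕ) : IsZ (k : ℝ) := ⟨k, by simp⟩
lemma IsZ.zero : IsZ 0 := ⟨0, by simp⟩
lemma IsZ.one : IsZ 1 := ⟨1, by simp⟩
lemma IsZ.add {x y : ℝ} (hx : IsZ x) (hy : IsZ y) : IsZ (x + y) := by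
  obtain ⟨a, rfl⟩ := hx; obtain ⟨b, rfl⟩ := hy; exact ⟨a + b, by simp⟩
lemma IsZ.neg {x : ℝ} (hx : IsZ x) : IsZ (-x) := by
  obtain ⟨a, rfl⟩ := hx; exact ⟨-a, by simp⟩
lemma IsZ.sub {x y : ℝ} (hx : IsZ x) (hy : IsZ y) : IsZ (x - y) := by
  obtain ⟨a, rfl⟩ := hx; obtain ⟨b, rfl⟩ := hy; exact ⟨a - b, by simp⟩
lemma IsZ.mul {x y : ℝ} (hx : IsZ x) (hy : IsZ y) : IsZ (x * y) := by
  obtain ⟨a, rfl⟩ := hx; obtain ⟨b, rfl⟩ := hy; exact ⟨a * b, by simp⟩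
lemma IsZ.sum {κ : Type*} (s : Finset κ) (f : κ → ℝ) (h : ∀ a ∈ s, IsZ (f a)) :
    IsZ (∑ a ∈ s, f a) :=
  Finset.sum_induction f IsZ (fun _ _ => IsZ.add) IsZ.zero h
lemma IsZ.le_sub_one {x : ℝ} {k : ℤ} (hx : IsZ x) (h : x < k) : x ≤ k - 1 := by
  obtain ⟨a, rfl⟩ := hx
  have : a < k := by exact_mod_cast h
  have : a ≤ k - 1 := by omega
  exact_mod_cast this

lemma zsmul_mem' {n : ℕ} {M : Lat n} {x : Fin n → ℝ} (hx : x ∈ M) (k : ℤ) : (k : ℝ) • x ∈ M := by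
  rw [Int.cast_smul_eq_zsmul]; exact M.zsmul_mem hx k

lemma isZ_smul_mem {n : ℕ} {M : Lat n} {x : Fin n → ℝ} (hx : x ∈ M) {c : ℝ} (hc : IsZ c) :
    c • x ∈ M := by
  obtain ⟨k, rfl⟩ := hc; exact zsmul_mem' hx k

lemma SelfDual.integral {n : ℕ} {U : Lat n} (h : SelfDual U) : Integral U :=
  fun x hx y hy => (h x).1 hx y hy

/-- The dual as an additive subgroup. -/
def dualLat {n : ℕ} (M : Lat n) : Lat n where
  carrier := {w | InDual M w}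
  add_mem' ha hb x hx := by rw [add_dotProduct]; exact (ha x hx).add (hb x hx)
  zero_mem' x _ := by rw [zero_dotProduct]; exact IsZ.zero
  neg_mem' ha x hx := by rw [neg_dotProduct]; exact (ha x hx).neg

lemma mem_dualLat {n : ℕ} {M : Lat n} {w : Fin n → ℝ} : w ∈ dualLat M ↔ InDual M w := Iff.rfl

lemma emb_apply {n : ℕ} (x : Fin n → ℝ) : emb n x = Matrix.vecCons 0 x := rfl

lemma emb_dot {n : ℕ} (x y : Fin n → ℝ) : emb n x ⬝ᵥ emb n y = x ⬝ᵥ y := by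
  simp [emb_apply]

lemma cons_dot {n : ℕ} (s t : ℝ) (x y : Fin n → ℝ) :
    Matrix.vecCons s x ⬝ᵥ Matrix.vecCons t y = s * t + x ⬝ᵥ y := by
  simp

/-! ### Dot products -/

section dot
variable {ι : Type} [Fintype ι]

lemma dot_self_nonneg (x : ι → ℝ) : 0 ≤ x ⬝ᵥ x := Finset.sum_nonneg fun _ _ => mul_self_nonneg _

lemma eq_zero_of_dot_self {x : ι → ℝ} (h : x ⬝ᵥ x = 0) : x = 0 := dotProduct_self_eq_zero.1 h

lemma dot_sq_le (x y : ι → ℝ) : (x ⬝ᵥ y) ^ 2 ≤ (x ⬝ᵥ x) * (y ⬝ᵥ y) := by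
  have := Finset.sum_mul_sq_le_sq_mul_sq Finset.univ x y
  simpa [dotProduct, sq] using this

lemma dot_sub_self (x y : ι → ℝ) : (x - y) ⬝ᵥ (x - y) = x ⬝ᵥ x - 2 * (x ⬝ᵥ y) + y ⬝ᵥ y := by
  rw [sub_dotProduct, dotProduct_sub, dotProduct_sub, dotProduct_comm y x]; ring

lemma dot_add_self (x y : ι → ℝ) : (x + y) ⬝ᵥ (x + y) = x ⬝ᵥ x + 2 * (x ⬝ᵥ y) + y ⬝ᵥ y := by
  rw [add_dotProduct, dotProduct_add, dotProduct_add, dotProduct_comm y x]; ring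

/-- Distinct vectors of the same norm have a smaller inner product. -/
lemma dot_lt {x y : ι → ℝ} {r : ℝ} (hx : x ⬝ᵥ x = r) (hy : y ⬝ᵥ y = r) (h : x ≠ y) :
    x ⬝ᵥ y < r := by
  have h1 := dot_sub_self x y
  have h2 := dot_self_nonneg (x - y)
  have h3 : (x - y) ⬝ᵥ (x - y) ≠ 0 := fun h0 => h (sub_eq_zero.1 (eq_zero_of_dot_self h0))
  have := lt_of_le_of_ne h2 h3.symm
  linarith

lemma neg_le_dot {x y : ι → ℝ} {r : ℝ} (hx : x ⬝ᵥ x = r) (hy : y ⬝ᵥ y = r) : -r ≤ x ⬝ᵥ y := by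
  have h1 := dot_add_self x y
  have h2 := dot_self_nonneg (x + y)
  linarith

lemma eq_neg_of_dot {x y : ι → ℝ} {r : ℝ} (hx : x ⬝ᵥ x = r) (hy : y ⬝ᵥ y = r)
    (h : x ⬝ᵥ y ≤ -r) : y = -x := by
  have h1 := dot_add_self x y
  have h2 := dot_self_nonneg (x + y)
  have h3 : x + y = 0 := eq_zero_of_dot_self (by linarith)
  exact eq_neg_of_add_eq_zero_right h3

/-- At most two vectors of norm `r` have pairwise inner products at most `-r`. -/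
lemma card_le_two {κ : Type} (s : Finset κ) (v : κ → ι → ℝ) {r : ℝ} (hr : 0 < r)
    (hn : ∀ a ∈ s, v a ⬝ᵥ v a = r) (hl : ∀ a ∈ s, ∀ a' ∈ s, a ≠ a' → v a ⬝ᵥ v a' ≤ -r) :
    s.card ≤ 2 := by
  by_contra h
  obtain ⟨a, ha, b, hb, c, hc, hab, hac, hbc⟩ := Finset.two_lt_card.1 (not_le.1 h)
  have h1 := eq_neg_of_dot (hn a ha) (hn b hb) (hl a ha b hb hab)
  have h2 := eq_neg_of_dot (hn a ha) (hn c hc) (hl a ha c hc hac)
  have h3 := hl b hb c hc hbc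
  rw [h2, ← h1, hn b hb] at h3
  linarith

lemma rc_dot (x y : ι → ℤ) : rc x ⬝ᵥ rc y = ((x ⬝ᵥ y : ℤ) : ℝ) := by
  simp [rc, dotProduct]

/-- The functional given by the dot product with a vector. -/
def dotL (x : ι → ℝ) : (ι → ℝ) →ₗ[ℝ] ℝ where
  toFun y := x ⬝ᵥ y
  map_add' y z := dotProduct_add x y z
  map_smul' c y := by simp

@[simp] lemma dotL_apply (x y : ι → ℝ) : dotL x y = x ⬝ᵥ y := rfl

lemma finrank_inf_ker (W : Submodule ℝ (ι → ℝ)) (φ : (ι → ℝ) →ₗ[ℝ] ℝ) {x : ι → ℝ} (hx : x ∈ W)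
    (hφ : φ x ≠ 0) : finrank ℝ (W ⊓ LinearMap.ker φ : Submodule ℝ (ι → ℝ)) + 1 ≤ finrank ℝ W := by
  apply Submodule.finrank_lt_finrank_of_lt
  refine lt_of_le_of_ne inf_le_left fun h => hφ ?_
  rw [← h] at hx
  exact hx.2

lemma finrank_sup_span (W : Submodule ℝ (ι → ℝ)) (x : ι → ℝ) :
    finrank ℝ (W ⊔ Submodule.span ℝ {x} : Submodule ℝ (ι → ℝ)) ≤ finrank ℝ W + 1 := by
  have h1 := Submodule.finrank_add_le_finrank_add_finrank W (Submodule.span ℝ {x})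
  have h2 : finrank ℝ (Submodule.span ℝ {x}) ≤ 1 := by
    simpa using finrank_span_le_card ({x} : Set (ι → ℝ))
  omega

/-- A functional vanishing on `V` and negative at a vector outside `V`. -/
lemma exists_functional (V : Submodule ℝ (ι → ℝ)) {x : ι → ℝ} (hx : x ∉ V) :
    ∃ φ : (ι → ℝ) →ₗ[ℝ] ℝ, φ x < 0 ∧ ∀ v ∈ V, φ v = 0 := by
  obtain ⟨f, hf, hV⟩ := Submodule.exists_dual_map_eq_bot_of_notMem hx inferInstance
  have h0 : ∀ v ∈ V, f v = 0 := fun v hv => by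
    have : f v ∈ V.map f := Submodule.mem_map_of_mem hv
    rwa [hV, Submodule.mem_bot] at this
  rcases lt_or_gt_of_ne hf with h | h
  · exact ⟨f, h, h0⟩
  · exact ⟨-f, by simpa using h, fun v hv => by simp [h0 v hv]⟩

lemma finrank_inf_ker_add_map (V : Submodule ℝ (ι → ℝ)) (P : (ι → ℝ) →ₗ[ℝ] (ι → ℝ)) :
    finrank ℝ (V ⊓ LinearMap.ker P : Submodule ℝ (ι → ℝ)) + finrank ℝ (V.map P) = finrank ℝ V := by
  have h := LinearMap.finrank_range_add_finrank_ker (P.domRestrict V)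
  rw [LinearMap.range_domRestrict, LinearMap.ker_domRestrict] at h
  have h2 : finrank ℝ (Submodule.comap V.subtype (LinearMap.ker P))
      = finrank ℝ (V ⊓ LinearMap.ker P : Submodule ℝ (ι → ℝ)) := by
    rw [← Submodule.map_comap_subtype, Submodule.finrank_map_subtype_eq]
  omega

end dot

lemma InDim.mono {κ ι : Type} {n n' : ℕ} {s s' : Finset κ} {v : κ → ι → ℝ} (h : InDim n s v)
    (hn : n ≤ n') (hs : s' ⊆ s) : InDim n' s' v := by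
  obtain ⟨W, h1, h2⟩ := h
  exact ⟨W, h1.trans hn, fun a ha => h2 a (hs ha)⟩

/-- Parseval identity for a full orthonormal family. -/
lemma ON.parseval {n : ℕ} {f : Fin n → Fin n → ℝ} (h : ON f) (x y : Fin n → ℝ) :
    ∑ i, (x ⬝ᵥ f i) * (y ⬝ᵥ f i) = x ⬝ᵥ y := by
  let F : Matrix (Fin n) (Fin n) ℝ := Matrix.of f
  have h1 : F * Fᵀ = 1 := by
    ext i j
    have := h i j
    rw [Matrix.one_apply, ← this]
    rfl
  have h2 : Fᵀ * F = 1 := mul_eq_one_comm.1 h1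
  have h3 : ∀ z : Fin n → ℝ, ∀ i, z ⬝ᵥ f i = F.mulVec z i := fun z i => dotProduct_comm _ _
  simp only [h3]
  change F.mulVec x ⬝ᵥ F.mulVec y = _
  rw [Matrix.dotProduct_mulVec, Matrix.vecMul_mulVec, h2, Matrix.vecMul_one]

/-- Bessel identity. -/
lemma ON.bessel {j n : ℕ} {e : Fin j → Fin n → ℝ} (h : ON e) (x : Fin n → ℝ) :
    (x - ∑ i, (x ⬝ᵥ e i) • e i) ⬝ᵥ (x - ∑ i, (x ⬝ᵥ e i) • e i)
      = x ⬝ᵥ x - ∑ i, (x ⬝ᵥ e i) ^ 2 := by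
  have h1 : x ⬝ᵥ (∑ i, (x ⬝ᵥ e i) • e i) = ∑ i, (x ⬝ᵥ e i) ^ 2 := by
    rw [dotProduct_sum]
    exact Finset.sum_congr rfl fun i _ => by rw [dotProduct_smul, smul_eq_mul, sq]
  have h2 : (∑ i, (x ⬝ᵥ e i) • e i) ⬝ᵥ (∑ i, (x ⬝ᵥ e i) • e i) = ∑ i, (x ⬝ᵥ e i) ^ 2 := by
    rw [sum_dotProduct]
    refine Finset.sum_congr rfl fun i _ => ?_
    rw [smul_dotProduct, dotProduct_sum]
    simp only [dotProduct_smul, smul_eq_mul, h i]
    simp [sq]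
  rw [dot_sub_self, h1, h2]; ring

/-! ### Integer vectors -/

section int

lemma rc_add {ι : Type} (x y : ι → ℤ) : rc (x + y) = rc x + rc y := by ext i; simp [rc]
lemma rc_sub {ι : Type} (x y : ι → ℤ) : rc (x - y) = rc x - rc y := by ext i; simp [rc]
lemma rc_neg {ι : Type} (x : ι → ℤ) : rc (-x) = -rc x := by ext i; simp [rc]
lemma rc_single (i : Fin 12) (c : ℤ) :
    rc (Pi.single i c : Fin 12 → ℤ) = (c : ℝ) • (Pi.single i 1 : Fin 12 → ℝ) := by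
  ext j
  by_cases h : j = i
  · subst h; simp [rc]
  · simp [rc, h]

lemma mem_supp {x : Fin 12 → ℤ} {i : Fin 12} : i ∈ supp x ↔ x i ≠ 0 := by simp [supp]

lemma mem_Zs {V : Submodule ℝ (Fin 12 → ℝ)} {i : Fin 12} :
    i ∈ Zs V ↔ (Pi.single i 1 : Fin 12 → ℝ) ∈ V := by simp [Zs]

lemma mem_Zs_of_single {V : Submodule ℝ (Fin 12 → ℝ)} {i : Fin 12} {c : ℤ} (hc : c ≠ 0)
    (h : rc (Pi.single i c : Fin 12 → ℤ) ∈ V) : i ∈ Zs V := by
  rw [rc_single] at h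
  exact mem_Zs.2 ((V.smul_mem_iff (by exact_mod_cast hc)).1 h)

lemma res_add_compl (p : Finset (Fin 12)) (x : Fin 12 → ℤ) : res p x + res pᶜ x = x := by
  ext i; by_cases h : i ∈ p <;> simp [res, h]

lemma dot_split (p : Finset (Fin 12)) (x y : Fin 12 → ℤ) :
    x ⬝ᵥ y = res p x ⬝ᵥ res p y + res pᶜ x ⬝ᵥ res pᶜ y := by
  simp only [dotProduct, ← Finset.sum_add_distrib]
  refine Finset.sum_congr rfl fun i _ => ?_
  by_cases h : i ∈ p <;> simp [res, h]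

lemma zdot_self_nonneg (x : Fin 12 → ℤ) : 0 ≤ x ⬝ᵥ x :=
  Finset.sum_nonneg fun _ _ => mul_self_nonneg _

lemma Tri.dot_self {x : Fin 12 → ℤ} (h : Tri x) : x ⬝ᵥ x = (supp x).card := by
  rw [supp, Finset.card_filter]
  push_cast
  refine Finset.sum_congr rfl fun i _ => ?_
  rcases h i with h | h | h <;> simp [h]

lemma sq_le_dot (x : Fin 12 → ℤ) (i : Fin 12) : x i * x i ≤ x ⬝ᵥ x :=
  Finset.single_le_sum (f := fun j => x j * x j) (fun _ _ => mul_self_nonneg _) (Finset.mem_univ i)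

lemma tri_of_le_three {x : Fin 12 → ℤ} (h : x ⬝ᵥ x ≤ 3) : Tri x := fun i => by
  have h1 := sq_le_dot x i
  have h2 : -2 < x i := by nlinarith
  have h3 : x i < 2 := by nlinarith
  omega

/-- Shapes of the vectors of norm four. -/
lemma shape4 {x : Fin 12 → ℤ} (h : x ⬝ᵥ x = 4) :
    (∃ i, x = Pi.single i 2 ∨ x = Pi.single i (-2)) ∨ (Tri x ∧ (supp x).card = 4) := by
  by_cases ht : Tri x
  · right
    refine ⟨ht, ?_⟩
    have := ht.dot_self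
    omega
  · left
    simp only [Tri, not_forall] at ht
    obtain ⟨i, hi⟩ := ht
    have h1 := sq_le_dot x i
    have h2 : -3 < x i := by nlinarith
    have h3 : x i < 3 := by nlinarith
    have h4 : x i * x i = 4 := by
      have : x i = 2 ∨ x i = -2 := by omega
      rcases this with h | h <;> simp [h]
    have h5 : ∀ j, j ≠ i → x j = 0 := fun j hj => by
      have h6 : ∑ k ∈ ({i, j} : Finset (Fin 12)), x k * x k ≤ x ⬝ᵥ x :=
        Finset.sum_le_sum_of_subset_of_nonneg (Finset.subset_univ _) fun k _ _ => mul_self_nonneg _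
      rw [Finset.sum_pair hj.symm] at h6
      nlinarith [mul_self_nonneg (x j)]
    have h7 : x = Pi.single i (x i) := by
      ext j
      by_cases hj : j = i
      · subst hj; simp
      · simp [hj, h5 j hj]
    refine ⟨i, ?_⟩
    have : x i = 2 ∨ x i = -2 := by omega
    rcases this with h | h
    · left; rw [← h]; exact h7
    · right; rw [← h]; exact h7

/-- Shape of the vectors of norm one. -/
lemma shape1 {x : Fin 12 → ℤ} (h : x ⬝ᵥ x = 1) :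
    ∃ i, x = Pi.single i 1 ∨ x = Pi.single i (-1) := by
  have ht : Tri x := tri_of_le_three (by omega)
  have h1 := ht.dot_self
  obtain ⟨i, hi⟩ := Finset.card_eq_one.1 (show (supp x).card = 1 by omega)
  have h5 : ∀ j, j ≠ i → x j = 0 := fun j hj => by
    by_contra h0
    have := mem_supp.2 h0
    rw [hi, Finset.mem_singleton] at this
    exact hj this
  have h6 : x i ≠ 0 := mem_supp.1 (by rw [hi]; simp)
  have h7 : x = Pi.single i (x i) := by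
    ext j
    by_cases hj : j = i
    · subst hj; simp
    · simp [hj, h5 j hj]
  refine ⟨i, ?_⟩
  rcases ht i with h | h | h
  · right; rw [← h]; exact h7
  · exact absurd h h6
  · left; rw [← h]; exact h7

lemma mem_of_supp {W : Submodule ℝ (Fin 12 → ℝ)} {Z : Finset (Fin 12)}
    (hZ : ∀ i ∈ Z, (Pi.single i 1 : Fin 12 → ℝ) ∈ W) {v : Fin 12 → ℝ} (h : ∀ i, i ∉ Z → v i = 0) :
    v ∈ W := by
  have : v = ∑ i ∈ Z, v i • (Pi.single i 1 : Fin 12 → ℝ) := by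
    ext j
    simp only [Finset.sum_apply, Pi.smul_apply, Pi.single_apply, smul_eq_mul, mul_ite, mul_one,
      mul_zero, Finset.sum_ite_eq]
    split_ifs with hj
    · rfl
    · exact h j hj
  rw [this]
  exact W.sum_mem fun i hi => W.smul_mem _ (hZ i hi)

/-- A restriction to coordinates in `Zs V` lies in `V`. -/
lemma res_mem {V : Submodule ℝ (Fin 12 → ℝ)} {p : Finset (Fin 12)} (hp : p ⊆ Zs V)
    (x : Fin 12 → ℤ) : rc (res p x) ∈ V :=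
  mem_of_supp (Z := p) (fun i hi => mem_Zs.1 (hp hi)) fun i hi => by simp [rc, res, hi]

lemma res_compl_mem {V : Submodule ℝ (Fin 12 → ℝ)} {p : Finset (Fin 12)} {x : Fin 12 → ℤ}
    (hx : rc x ∈ V) (hp : rc (res p x) ∈ V) : rc (res pᶜ x) ∈ V := by
  have : res pᶜ x = x - res p x := by rw [eq_sub_iff_add_eq', res_add_compl]
  rw [this, rc_sub]
  exact V.sub_mem hx hp

/-- The coordinate subspace of a set of coordinates. -/
lemma dim_coord (Z : Finset (Fin 12)) : ∃ W : Submodule ℝ (Fin 12 → ℝ), finrank ℝ W ≤ Z.card ∧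
    ∀ v : Fin 12 → ℝ, (∀ i, i ∉ Z → v i = 0) → v ∈ W := by
  refine ⟨Submodule.span ℝ (Set.range fun i : Z => (Pi.single i.1 1 : Fin 12 → ℝ)), ?_,
    fun v hv => ?_⟩
  · have := finrank_range_le_card (R := ℝ) fun i : Z => (Pi.single i.1 1 : Fin 12 → ℝ)
    rwa [Fintype.card_coe] at this
  · exact mem_of_supp (fun i hi => Submodule.subset_span (Set.mem_range.2 ⟨⟨i, hi⟩, rfl⟩)) hv

/-- The part of `V` vanishing on `Zs V`. -/
lemma dim_rest (V : Submodule ℝ (Fin 12 → ℝ)) : ∃ W : Submodule ℝ (Fin 12 → ℝ),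
    finrank ℝ W + (Zs V).card ≤ finrank ℝ V ∧ ∀ v ∈ V, (∀ i ∈ Zs V, v i = 0) → v ∈ W := by
  let R : (Fin 12 → ℝ) →ₗ[ℝ] (Zs V → ℝ) := LinearMap.funLeft ℝ ℝ Subtype.val
  have h := LinearMap.finrank_range_add_finrank_ker (R.domRestrict V)
  have hs : LinearMap.range (R.domRestrict V) = ⊤ := by
    rw [LinearMap.range_eq_top]
    intro g
    refine ⟨⟨fun i => if hi : i ∈ Zs V then g ⟨i, hi⟩ else 0, ?_⟩, ?_⟩
    · exact mem_of_supp (fun i hi => mem_Zs.1 hi) fun i hi => by simp [hi]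
    · ext i; simp [R, LinearMap.funLeft_apply]
  rw [hs, finrank_top, Module.finrank_fintype_fun_eq_card, Fintype.card_coe,
    LinearMap.ker_domRestrict] at h
  refine ⟨V ⊓ LinearMap.ker R, ?_, fun v hv h0 => ⟨hv, ?_⟩⟩
  · rw [← Submodule.map_comap_subtype, Submodule.finrank_map_subtype_eq]; omega
  · ext i; exact h0 i i.2

lemma Cfg.code {V : Submodule ℝ (Fin 12 → ℝ)} {X : Finset (Fin 12 → ℤ)} (h : Cfg V X) :
    Code 9 4 2 X rc ∧ IntIP X rc := by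
  refine ⟨⟨⟨V, h.dim, h.mem⟩, fun a ha => ?_, fun a ha b hb hab => ?_⟩, fun a _ b _ => ?_⟩
  · rw [rc_dot, h.nrm a ha]; norm_num
  · rw [rc_dot]; exact_mod_cast h.le a ha b hb hab
  · rw [rc_dot]; exact IsZ.intCast _

end int

lemma Proj.split {P : (Fin 12 → ℝ) →ₗ[ℝ] (Fin 12 → ℝ)} (h : Proj P) (x y : Fin 12 → ℝ) :
    x ⬝ᵥ y = P x ⬝ᵥ P y + (x - P x) ⬝ᵥ (y - P y) := by
  have h1 := h.orth x y
  have h2 := h.orth y x
  rw [dotProduct_comm] at h2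
  have : x ⬝ᵥ y = (P x + (x - P x)) ⬝ᵥ (P y + (y - P y)) := by simp
  rw [this, add_dotProduct, dotProduct_add, dotProduct_add, h1, h2]; ring

lemma Proj.ker {P : (Fin 12 → ℝ) →ₗ[ℝ] (Fin 12 → ℝ)} (h : Proj P) (x : Fin 12 → ℝ) :
    x - P x ∈ LinearMap.ker P := by
  rw [LinearMap.mem_ker, map_sub, h.idem, sub_self]

end

end Pool.Agent.P.MP_22b27c_co
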