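import Pool.Agent.P.MP_22b27c_co.Iface

/-!
Passage to unit vectors of the Euclidean space.
-/

namespace Pool.Agent.P.MP_22b27c_co

open Module Finset
open scoped Classical Real Matrix

lemma inner_eq (x y : EuclideanSpace ℝ (Fin 9)) : inner ℝ x y = x.ofLp ⬝ᵥ y.ofLp := by
  rw [EuclideanSpace.inner_eq_star_dotProduct, dotProduct_comm]
  simp

lemma smul_dot (c : ℝ) (x y : Fin 9 → ℝ) : (c • x) ⬝ᵥ (c • y) = c ^ 2 * (x ⬝ᵥ y) := by
  rw [smul_dotProduct, dotProduct_smul, smul_eq_mul, smul_eq_mul]; ring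

theorem final (hu : S_UP) (he : S_EX) :
    IsGreatest {n : ℕ | ∃ S : Finset (EuclideanSpace ℝ (Fin 9)), S.card = n ∧
      (∀ x ∈ S, ‖x‖ = 1) ∧ (∀ x ∈ S, ∀ y ∈ S, x ≠ y → inner ℝ x y ≤ (1 / 2 : ℝ)) ∧
      ∀ x ∈ S, ∀ y ∈ S, ∃ k : ℤ, inner ℝ x y = (k : ℝ) / 4} 306 := by
  constructor
  · obtain ⟨X, hX, hc⟩ := he
    let g : (Fin 9 → ℝ) → EuclideanSpace ℝ (Fin 9) := fun x => WithLp.toLp 2 ((1 / 2 : ℝ) • x)
    have hg : ∀ x y, inner ℝ (g x) (g y) = (x ⬝ᵥ y) / 4 := fun x y => by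
      rw [inner_eq]
      change ((1 / 2 : ℝ) • x) ⬝ᵥ ((1 / 2 : ℝ) • y) = _
      rw [smul_dot]; ring
    have hi : Function.Injective g := fun x y h =>
      smul_right_injective _ (by norm_num : (1 / 2 : ℝ) ≠ 0) (congrArg WithLp.ofLp h)
    refine ⟨X.image g, by rw [Finset.card_image_of_injective _ hi, hc], fun x hx => ?_,
      fun x hx y hy hxy => ?_, fun x hx y hy => ?_⟩
    · obtain ⟨a, ha, rfl⟩ := Finset.mem_image.1 hx
      have h := hg a a
      rw [real_inner_self_eq_norm_sq, hX.nrm a ha] at h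
      have h0 := norm_nonneg (g a)
      nlinarith
    · obtain ⟨a, ha, rfl⟩ := Finset.mem_image.1 hx
      obtain ⟨b, hb, rfl⟩ := Finset.mem_image.1 hy
      have := hX.le a ha b hb fun h => hxy (by rw [h])
      rw [hg]; linarith
    · obtain ⟨a, ha, rfl⟩ := Finset.mem_image.1 hx
      obtain ⟨b, hb, rfl⟩ := Finset.mem_image.1 hy
      obtain ⟨k, hk⟩ := hX.int a ha b hb
      exact ⟨k, by rw [hg, hk]⟩
  · rintro n ⟨S, rfl, h1, h2, h3⟩
    let g : EuclideanSpace ℝ (Fin 9) → Fin 9 → ℝ := fun x => (2 : ℝ) • x.ofLp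
    have hg : ∀ x y, g x ⬝ᵥ g y = 4 * inner ℝ x y := fun x y => by
      rw [inner_eq, smul_dot]; ring
    have hi : Function.Injective g := fun x y h =>
      WithLp.ofLp_injective 2 (smul_right_injective _ (by norm_num : (2 : ℝ) ≠ 0) h)
    rw [← Finset.card_image_of_injective S hi]
    refine hu _ ⟨fun x hx => ?_, fun x hx y hy hxy => ?_, fun x hx y hy => ?_⟩
    · obtain ⟨a, ha, rfl⟩ := Finset.mem_image.1 hx
      rw [hg, real_inner_self_eq_norm_sq, h1 a ha]; norm_num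
    · obtain ⟨a, ha, rfl⟩ := Finset.mem_image.1 hx
      obtain ⟨b, hb, rfl⟩ := Finset.mem_image.1 hy
      have := h2 a ha b hb fun h => hxy (by rw [h])
      rw [hg]; linarith
    · obtain ⟨a, ha, rfl⟩ := Finset.mem_image.1 hx
      obtain ⟨b, hb, rfl⟩ := Finset.mem_image.1 hy
      obtain ⟨k, hk⟩ := h3 a ha b hb
      exact ⟨k, by rw [hg, hk]; ring⟩

end Pool.Agent.P.MP_22b27c_co
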