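import Pool.Agent.P.MP_22b27c_co.Base

/-!
Integral kissing configurations in dimension nine: statements of the pieces.
-/

namespace Pool.Agent.P.MP_22b27c_co

open Module Finset
open scoped Classical Real Matrix

noncomputable section

/-! ### Part A: embedding in a unimodular lattice of rank twelve -/

def S_MAX : Prop := ∀ (n : ℕ) (X : Finset (Fin n → ℝ)),
  Submodule.span ℝ (X : Set (Fin n → ℝ)) = ⊤ → (∀ x ∈ X, ∀ y ∈ X, IsZ (x ⬝ᵥ y)) →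
  ∃ M : Lat n, (∀ x ∈ X, x ∈ M) ∧ Integral M ∧ Aniso M ∧ HasExp M

def S_STEP : Prop := ∀ (n : ℕ) (M P : Lat n), Integral M → Aniso M → HasExp M → M ≤ P →
  (∀ w ∈ P, InDual M w) →
  ∃ (y : Fin n → ℝ) (D : ℕ) (a : ℤ), y ∈ P ∧ 0 < D ∧ (∀ w ∈ P, (D : ℝ) • w ∈ M) ∧
    (∀ k : ℤ, (k : ℝ) • y ∈ M → (D : ℤ) ∣ k) ∧ (D : ℝ) * (y ⬝ᵥ y) = a ∧ IsCoprime a (D : ℤ) ∧
    ∀ w ∈ P, ∃ c : ℤ, IsZ ((w - (c : ℝ) • y) ⬝ᵥ y)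

def S_TERN : Prop := ∀ (p : ℕ) (A₁ A₂ A₃ : ℤ), p.Prime → ¬ (p : ℤ) ∣ A₁ → ¬ (p : ℤ) ∣ A₂ →
  ∃ x₁ x₂ : ℤ, (p : ℤ) ∣ A₁ * x₁ ^ 2 + A₂ * x₂ ^ 2 + A₃

def S_DISC : Prop := ∀ (n : ℕ) (M : Lat n), Integral M → Aniso M → HasExp M →
  ∃ (y₁ y₂ : Fin n → ℝ) (D₁ D₂ : ℕ) (a₁ a₂ : ℤ), Disc M y₁ y₂ D₁ D₂ a₁ a₂ ∧ D₂ ∣ D₁ ∧ Odd D₂ ∧
    ¬ 4 ∣ D₁

def S_MERGE : Prop := ∀ (n : ℕ) (M : Lat n) (y₁ y₂ : Fin n → ℝ) (D₁ D₂ : ℕ) (a₁ a₂ : ℤ),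
  Disc M y₁ y₂ D₁ D₂ a₁ a₂ → Nat.Coprime D₁ D₂ → ∃ a : ℤ, Disc M (y₁ + y₂) 0 (D₁ * D₂) 1 a 0

def S_GLUE : Prop := ∀ (n : ℕ) (M : Lat n) (y₁ y₂ : Fin n → ℝ) (D₁ D₂ : ℕ) (a₁ a₂ : ℤ)
  (N : ℕ) (c : ℤ), Disc M y₁ y₂ D₁ D₂ a₁ a₂ → 0 < N → (D₁ : ℤ) ∣ a₁ + c ^ 2 * N →
  ∃ (M' : Lat (n + 1)) (y : Fin (n + 1) → ℝ), Disc M' y (emb n y₂) N D₂ D₁ a₂ ∧
    ∀ x ∈ M, emb n x ∈ M'

def S_AR1 : Prop := ∀ (D₁ D₂ : ℕ) (a : ℤ), 0 < D₁ → D₂ ∣ D₁ → Odd D₂ → ¬ 4 ∣ D₁ →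
  IsCoprime a (D₁ : ℤ) →
  ∃ q : ℕ, 0 < q ∧ (D₁ : ℤ) ∣ a + q ∧ Nat.Coprime q D₂ ∧ (q * D₂) % 4 = 1

def S_AR2 : Prop := ∀ (D : ℕ) (a : ℤ), D % 4 = 1 → IsCoprime a (D : ℤ) →
  ∃ (q : ℕ) (c : ℤ), 0 < q ∧ (D : ℤ) ∣ a + q ∧ (q : ℤ) ∣ D + c ^ 2

def S_EMB : Prop := ∀ X : Finset (Fin 9 → ℝ),
  Submodule.span ℝ (X : Set (Fin 9 → ℝ)) = ⊤ → (∀ x ∈ X, ∀ y ∈ X, IsZ (x ⬝ᵥ y)) →
  ∃ (U : Lat 12) (j : (Fin 9 → ℝ) →ₗ[ℝ] (Fin 12 → ℝ)), SelfDual U ∧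
    (∀ x y, j x ⬝ᵥ j y = x ⬝ᵥ y) ∧ ∀ x ∈ X, j x ∈ U

/-! ### Part B: unimodular lattices of rank twelve -/

def S_BASIS : Prop := ∀ (n : ℕ) (U : Lat n), SelfDual U →
  ∃ B : Matrix (Fin n) (Fin n) ℝ, B.det ≠ 0 ∧ ∀ x, x ∈ U ↔ ∃ m : Fin n → ℤ, x = B.mulVec (rc m)

def S_DUALB : Prop := ∀ (n : ℕ) (U : Lat n) (B : Matrix (Fin n) (Fin n) ℝ), SelfDual U →
  B.det ≠ 0 → (∀ x, x ∈ U ↔ ∃ m : Fin n → ℤ, x = B.mulVec (rc m)) →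
  |B.det| = 1 ∧ ∀ x, x ∈ U ↔ ∃ m : Fin n → ℤ, x = (B⁻¹)ᵀ.mulVec (rc m)

def S_CHAR : Prop := ∀ (n : ℕ) (U : Lat n), SelfDual U → ∃ w, IsChar U w

def S_POIS : Prop := ∀ (n m : ℕ), n = 2 * m → ∀ U : Lat n, SelfDual U →
  ∀ (a : Fin n → ℝ) (t : ℝ), 0 < t →
    (Summable fun u : U => Real.exp (-π * t * ((u.1 + a) ⬝ᵥ (u.1 + a)))) ∧
    ∑' u : U, Real.cos (2 * π * (u.1 ⬝ᵥ a)) * Real.exp (-π * (1 / t) * (u.1 ⬝ᵥ u.1))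
      = t ^ m * ∑' u : U, Real.exp (-π * t * ((u.1 + a) ⬝ᵥ (u.1 + a)))

def S_CONT : Prop := ∀ (κ κ' : Type) (c ν : κ → ℝ) (c' ν' : κ' → ℝ) (m : ℕ),
  (∀ k, 0 ≤ ν k) → (∀ k, 0 ≤ ν' k) →
  (∀ t : ℝ, 0 < t → Summable fun k => |c k| * Real.exp (-π * t * ν k)) →
  (∀ t : ℝ, 0 < t → Summable fun k => |c' k| * Real.exp (-π * t * ν' k)) →
  (∀ t : ℝ, 0 < t → ∑' k, c k * Real.exp (-π * (1 / t) * ν k)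
    = t ^ m * ∑' k, c' k * Real.exp (-π * t * ν' k)) →
  ∀ τ : ℂ, 0 < τ.im → ∑' k, (c k : ℂ) * Complex.exp (π * Complex.I * (-1 / τ) * ν k)
    = (-Complex.I * τ) ^ m * ∑' k, (c' k : ℂ) * Complex.exp (π * Complex.I * τ * ν' k)

def S_VDB : Prop := ∀ (n m : ℕ), n = 2 * m → m % 4 = 2 → ∀ (U : Lat n) (w : Fin n → ℝ),
  SelfDual U → IsChar U w → ∃ k : ℤ, w ⬝ᵥ w = 4 * (2 * k + 1)

def S_TH : Prop := ∀ (n m : ℕ), n = 2 * m → m % 4 = 2 → ∀ (U : Lat n) (w : Fin n → ℝ),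
  SelfDual U → IsChar U w →
  Th m (cnt U 0) (cnt U ((1 / 2 : ℝ) • w)) ∧ ∀ a k, (sh U a k).Finite

def S_GRP : Prop := ∀ (n : ℕ) (U : Lat n) (a : Fin n → ℝ),
  (∀ t : ℝ, 0 < t → Summable fun u : U => Real.exp (-π * t * ((u.1 + a) ⬝ᵥ (u.1 + a)))) →
  (∀ k, (sh U a k).Finite) ∧
  ((∀ u ∈ U, IsZ ((u + a) ⬝ᵥ (u + a))) → Good (cnt U a) ∧
    ∀ (g : ℕ → ℝ) (g' : U → ℝ), (∀ k, |g k| ≤ 1) →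
      (∀ (u : U) (k : ℕ), (u.1 + a) ⬝ᵥ (u.1 + a) = k → g' u = g k) → ∀ t : ℝ, 0 < t →
      ∑' u : U, g' u * Real.exp (-π * t * ((u.1 + a) ⬝ᵥ (u.1 + a)))
        = SS (fun k => g k * cnt U a k) t)

def S_SER1 : Prop := ∀ a : ℕ → ℝ, Good a → Good (fun k => k * a k) ∧
  ∀ t : ℝ, 0 < t → HasDerivAt (SS a) (-π * SS (fun k => k * a k) t) t

def S_SER2 : Prop :=
  (∀ a : ℕ → ℝ, Good a → ∀ t : ℝ, 0 < t → Summable fun k : ℕ => |a k| * Real.exp (-π * t * k)) ∧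
  (∀ a : ℕ → ℝ, Good a → Good fun k => (-1) ^ k * a k) ∧
  (∀ (a b : ℕ → ℝ) (c d : ℝ), Good a → Good b → Good (fun k => c * a k + d * b k) ∧
    ∀ t : ℝ, 0 < t → SS (fun k => c * a k + d * b k) t = c * SS a t + d * SS b t) ∧
  (∀ a b : ℕ → ℝ, Good a → Good b → Good (conv a b) ∧
    ∀ t : ℝ, 0 < t → SS (conv a b) t = SS a t * SS b t)

def S_MF0 : Prop := ∀ (k : ℕ) (a : ℕ → ℂ) (f : ℂ → ℂ),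
  (∀ τ : ℂ, 0 < τ.im → HasSum (fun n : ℕ => a n * Complex.exp (2 * π * Complex.I * τ) ^ n) (f τ)) →
  (∀ τ : ℂ, 0 < τ.im → f (-1 / τ) = τ ^ k * f τ) →
  (k = 8 → a 1 = 480 * a 0) ∧ (k = 10 → a 0 = 0 → a 1 = 0)

def S_MF : Prop := ∀ c : ℕ → ℝ, Good c → (∀ k, Odd k → c k = 0) →
  ((∀ t : ℝ, 0 < t → SS c (1 / t) = t ^ 8 * SS c t) → c 2 = 480 * c 0) ∧
  ((∀ t : ℝ, 0 < t → SS c (1 / t) = -t ^ 10 * SS c t) → c 0 = 0 → c 2 = 0)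

def S_RC : Prop := ∀ r σ ρ s : ℕ → ℝ, Th 6 r σ → Th 2 ρ s → r 0 = 1 → ρ 0 = 1 → ρ 1 = 8 →
  ρ 2 = 24 → s 1 = 16 → r 1 + σ 1 = 24

def S_Z4 : Prop := ∃ (U : Lat 4) (w : Fin 4 → ℝ), SelfDual U ∧ IsChar U w ∧ cnt U 0 1 = 8 ∧
  cnt U 0 2 = 24 ∧ cnt U ((1 / 2 : ℝ) • w) 1 = 16

def S_ORTH : Prop := ∀ (n : ℕ) (K : Finset (Fin n → ℝ)) (r : ℝ), 0 < r →
  (∀ x ∈ K, x ⬝ᵥ x = r) → (∀ x ∈ K, -x ∈ K) → (∀ x ∈ K, ∀ y ∈ K, x ⬝ᵥ y = 0 ∨ y = x ∨ y = -x) →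
  ∃ (j : ℕ) (e : Fin j → Fin n → ℝ), K.card = 2 * j ∧ (∀ i, e i ∈ K) ∧
    (∀ i i', i ≠ i' → e i ⬝ᵥ e i' = 0) ∧ ∀ x ∈ K, ∃ i, x = e i ∨ x = -e i

def S_STR1 : Prop := ∀ (U : Lat 12) (w : Fin 12 → ℝ), SelfDual U → IsChar U w →
  (cnt U 0 1 = 24 ∨ (cnt U 0 1 = 0 ∧ (sh U 0 1).Finite ∧ cnt U ((1 / 2 : ℝ) • w) 1 = 24)) →
  CaseI U

def S_HALF : Prop := ∀ (U : Lat 12) (w : Fin 12 → ℝ) (j : ℕ) (e : Fin j → Fin 12 → ℝ),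
  SelfDual U → IsChar U w → ON e → (∀ i, e i ∈ U) → j < 4 →
  (sh U ((1 / 2 : ℝ) • w) 1).Finite → 2 ^ (j + 1) ∣ (sh U ((1 / 2 : ℝ) • w) 1).ncard

def S_STR2 : Prop := ∀ (U : Lat 12) (w : Fin 12 → ℝ), SelfDual U → IsChar U w →
  (sh U 0 1).Finite → (sh U ((1 / 2 : ℝ) • w) 1).Finite →
  cnt U 0 1 + cnt U ((1 / 2 : ℝ) • w) 1 = 24 → cnt U 0 1 ≠ 0 →
  cnt U ((1 / 2 : ℝ) • w) 1 ≠ 0 → CaseII U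

def S_UNI : Prop := ∀ U : Lat 12, SelfDual U → CaseI U ∨ CaseII U

/-! ### Linear programming -/

/-- The Fischer form: existence of a positive form with the two adjointness properties. -/
def S_FIS : Prop := ∀ n : ℕ, ∃ B : MvPolynomial (Fin n) ℝ →ₗ[ℝ] MvPolynomial (Fin n) ℝ →ₗ[ℝ] ℝ,
  (∀ p, 0 ≤ B p p) ∧
  (∀ (i : Fin n) p q, B (MvPolynomial.X i * p) q = B p (MvPolynomial.pderiv i q)) ∧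
  ∀ (k : ℕ) (x : Fin n → ℝ) (q : MvPolynomial (Fin n) ℝ), q.IsHomogeneous k →
    B ((∑ i, MvPolynomial.C (x i) * MvPolynomial.X i) ^ k) q
      = (k.factorial : ℝ) * MvPolynomial.eval x q

/-- The Laplacian of the product of a power of the norm and a power of a linear form. -/
def S_LAP : Prop := ∀ (n : ℕ) (y : Fin n → ℝ) (j m : ℕ),
  ∑ i, MvPolynomial.pderiv i (MvPolynomial.pderiv i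
    ((∑ i, MvPolynomial.X i ^ 2 : MvPolynomial (Fin n) ℝ) ^ j
      * (∑ i, MvPolynomial.C (y i) * MvPolynomial.X i) ^ m))
  = MvPolynomial.C (2 * j * (n + 2 * j - 2 + 2 * m) : ℝ) *
      ((∑ i, MvPolynomial.X i ^ 2) ^ (j - 1) * (∑ i, MvPolynomial.C (y i) * MvPolynomial.X i) ^ m)
    + MvPolynomial.C (m * (m - 1) * (y ⬝ᵥ y) : ℝ) *
      ((∑ i, MvPolynomial.X i ^ 2) ^ j * (∑ i, MvPolynomial.C (y i) * MvPolynomial.X i) ^ (m - 2))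

def S_MOM0 : Prop := ∀ (κ : Type) (n : ℕ) (r : ℝ) (s : Finset κ) (v : κ → Fin n → ℝ),
  (∀ a ∈ s, v a ⬝ᵥ v a = r) → Mom n r s v

def S_GRAM : Prop := ∀ (κ ι : Type) [Fintype ι] (n : ℕ) (s : Finset κ) (v : κ → ι → ℝ),
  InDim n s v → ∃ v' : κ → Fin n → ℝ, ∀ a ∈ s, ∀ a' ∈ s, v' a ⬝ᵥ v' a' = v a ⬝ᵥ v a'

def S_MOM : Prop := ∀ (κ ι : Type) [Fintype ι] (n : ℕ) (r : ℝ) (s : Finset κ) (v : κ → ι → ℝ),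
  InDim n s v → (∀ a ∈ s, v a ⬝ᵥ v a = r) → Mom n r s v

def S_RANK : Prop := ∀ (κ ι : Type) [Fintype ι] (n : ℕ) (r : ℝ) (s : Finset κ) (v : κ → ι → ℝ),
  0 < r → Code n r 0 s v → s.card ≤ 2 * n

def S_DIM1 : Prop := ∀ (κ ι : Type) [Fintype ι] (r b : ℝ) (s : Finset κ) (v : κ → ι → ℝ),
  0 < r → b < r → Code 1 r b s v → s.card ≤ 2

def S_LP4 : Prop := ∀ (κ ι : Type) [Fintype ι] (n : ℕ) (s : Finset κ) (v : κ → ι → ℝ),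
  n ≤ 8 → Code n 4 2 s v → IntIP s v → s.card ≤ L4 n

def S_LP2 : Prop := ∀ (κ ι : Type) [Fintype ι] (n : ℕ) (s : Finset κ) (v : κ → ι → ℝ),
  n ≤ 8 → Code n 2 1 s v → IntIP s v → s.card ≤ L4 n

def S_LP3 : Prop := ∀ (κ ι : Type) [Fintype ι] (s : Finset κ) (v : κ → ι → ℝ), IntIP s v →
  (Code 3 3 2 s v → s.card ≤ 21) ∧ (Code 8 3 1 s v → s.card ≤ 75)

def S_LPC : Prop := ∀ (κ ι : Type) [Fintype ι] (s : Finset κ) (v : κ → ι → ℝ),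
  Code 9 4 2 s v → IntIP s v →
  74 * s.card ^ 2 ≤ 6237 * s.card + 297 * ∑ a ∈ s, (s.filter fun a' => v a ⬝ᵥ v a' = 2).card

def S_OBT : Prop := ∀ (κ ι : Type) [Fintype ι] (n : ℕ) (s : Finset κ) (v : κ → ι → ℝ)
  (φ : (ι → ℝ) →ₗ[ℝ] ℝ), InDim n s v → (∀ a ∈ s, ∀ a' ∈ s, a ≠ a' → v a ⬝ᵥ v a' ≤ 0) →
  (∀ a ∈ s, 0 < φ (v a)) → s.card ≤ n

def S_C75 : Prop := ∀ (κ ι : Type) [Fintype ι] (s : Finset κ) (v : κ → ι → ℝ),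
  Code 9 4 2 s v → IntIP s v → ∀ a ∈ s, (s.filter fun a' => v a ⬝ᵥ v a' = 2).card ≤ 75

def S_EQ : Prop := ∀ (n N : ℕ) (r : ℝ) (F : Finset (Fin N → ℝ)), 0 < r → Code n r 0 F id →
  F.card = 2 * n → (∀ x ∈ F, -x ∈ F) ∧ ∀ x ∈ F, ∀ y ∈ F, x ⬝ᵥ y = 0 ∨ y = x ∨ y = -x

def S_WM : Prop := ∀ C : Fin 5 → Fin 5 → ℤ, (∀ i k, C i k = -1 ∨ C i k = 0 ∨ C i k = 1) →
  ¬ ∀ i i', C i ⬝ᵥ C i' = if i = i' then 4 else 0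

def S_FRAME : Prop := ∀ (N : ℕ) (W : Submodule ℝ (Fin N → ℝ)) (F F' : Finset (Fin N → ℝ)),
  finrank ℝ W ≤ 5 → (∀ x ∈ F, x ∈ W) → (∀ x ∈ F', x ∈ W) → (∀ x ∈ F, x ⬝ᵥ x = 2) →
  (∀ x ∈ F', x ⬝ᵥ x = 2) → (∀ x ∈ F, ∀ y ∈ F, x ≠ y → x ⬝ᵥ y ≤ 0) →
  (∀ x ∈ F', ∀ y ∈ F', x ≠ y → x ⬝ᵥ y ≤ 0) → (∀ x ∈ F, ∀ y ∈ F', IsZ (x ⬝ᵥ y)) →
  Disjoint F F' → F.card = 10 → F'.card ≠ 10

/-! ### Part C: counting -/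

def S_RT1 : Prop := ∀ (C : Finset (Fin 12)) (F : Finset (Fin 12 → ℤ)), (∀ b ∈ F, b ⬝ᵥ b = 2) →
  (∀ b ∈ F, supp b ⊆ C) → (∀ b ∈ F, ∀ b' ∈ F, b ≠ b' → b ⬝ᵥ b' ≤ 0) → F.card ≤ 4 * (C.card / 2)

def S_RT2 : Prop := ∀ (V : Submodule ℝ (Fin 12 → ℝ)) (C : Finset (Fin 12))
  (F : Finset (Fin 12 → ℤ)), (∀ b ∈ F, b ⬝ᵥ b = 2) → (∀ b ∈ F, supp b ⊆ C) →
  (∀ b ∈ F, ∀ b' ∈ F, b ≠ b' → b ⬝ᵥ b' ≤ 0) → (∀ b ∈ F, rc b ∈ V) →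
  F.card ≤ 4 * ((C ∩ Zs V).card / 2) + (C \ Zs V).card

def S_POUT : Prop := ∀ (V : Submodule ℝ (Fin 12 → ℝ)) (X : Finset (Fin 12 → ℤ))
  (x : Fin 12 → ℤ) (p : Finset (Fin 12)), Cfg V X → Tri x → p ⊆ supp x → p.card = 2 →
  rc (res p x) ∉ V → (X.filter fun y => ∀ i ∈ p, y i = x i).card ≤ 9 ∧
    ((p ∩ Zs V).Nonempty → (X.filter fun y => ∀ i ∈ p, y i = x i).card ≤ 8)

def S_PIN : Prop := ∀ (V : Submodule ℝ (Fin 12 → ℝ)) (X : Finset (Fin 12 → ℤ))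
  (x : Fin 12 → ℤ) (p : Finset (Fin 12)), Cfg V X → Tri x → p ⊆ supp x → p.card = 2 →
  rc (res p x) ∈ V →
  (X.filter fun y => (∀ i ∈ p, y i = x i) ∧ ∀ i ∈ supp x \ p, y i = 0).card ≤ GG V x

/-- The three kinds of contacts. -/
def S_KIND : Prop := ∀ (V : Submodule ℝ (Fin 12 → ℝ)) (x y : Fin 12 → ℤ), rc x ∈ V → rc y ∈ V →
  Tri x → x ⬝ᵥ x = 4 → y ⬝ᵥ y = 4 → x ⬝ᵥ y = 2 → tt V x < 4 →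
  (∃ i ∈ supp x ∩ Zs V, y = Pi.single i (2 * x i)) ∨
  ∃ p ∈ powersetCard 2 (supp x), (∀ i ∈ p, y i = x i) ∧
    (rc (res p x) ∉ V ∨ ∀ i ∈ supp x \ p, y i = 0)

def S_COV : Prop := ∀ (V : Submodule ℝ (Fin 12 → ℝ)) (X : Finset (Fin 12 → ℤ))
  (x : Fin 12 → ℤ), Cfg V X → x ∈ X → Tri x → tt V x < 4 →
  cont X x ≤ tt V x + ∑ p ∈ powersetCard 2 (supp x), bd V x p

def S_CAS0 : Prop := ∀ (V : Submodule ℝ (Fin 12 → ℝ)) (x : Fin 12 → ℤ), rc x ∈ V → Tri x →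
  (supp x).card = 4 → tt V x = 0 →
  ∑ p ∈ powersetCard 2 (supp x), bd V x p ≤ 48 + 4 * (Zs V).card

def S_CAS1 : Prop := ∀ (V : Submodule ℝ (Fin 12 → ℝ)) (x : Fin 12 → ℤ), rc x ∈ V → Tri x →
  (supp x).card = 4 → tt V x ≠ 3 ∧ ((tt V x = 1 ∨ tt V x = 2) → (Zs V).card ≤ 5 →
    tt V x + ∑ p ∈ powersetCard 2 (supp x), bd V x p ≤ 50)

/-- The vectors supported in `Zs V`, and those supported outside. -/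
def S_AD : Prop := ∀ (V : Submodule ℝ (Fin 12 → ℝ)) (X : Finset (Fin 12 → ℤ)), Cfg V X →
  (Zs V).card ≤ 8 → (X.filter fun x => supp x ⊆ Zs V).card ≤ L4 (Zs V).card ∧
    (1 ≤ (Zs V).card → (X.filter fun x => tt V x = 0).card ≤ L4 (9 - (Zs V).card))

def S_LOW : Prop := ∀ (V : Submodule ℝ (Fin 12 → ℝ)) (X : Finset (Fin 12 → ℤ)), Cfg V X →
  (Zs V).card ≤ 5 → X.card ≤ 306

def S_DB : Prop := ∀ (V : Submodule ℝ (Fin 12 → ℝ)) (X : Finset (Fin 12 → ℤ)), Cfg V X →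
  1 ≤ (Zs V).card → (X.filter fun x => res (Zs V) x ⬝ᵥ res (Zs V) x = 2).card
    ≤ 2 * (Zs V).card * L4 (9 - (Zs V).card)

def S_DC : Prop := ∀ (V : Submodule ℝ (Fin 12 → ℝ)) (X : Finset (Fin 12 → ℤ)), Cfg V X →
  (6 ≤ (Zs V).card → (X.filter fun x => res (Zs V) x ⬝ᵥ res (Zs V) x = 1).card ≤ 42) ∧
  (8 ≤ (Zs V).card → (X.filter fun x => res (Zs V) x ⬝ᵥ res (Zs V) x = 1).card ≤ 4)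

def S_DEC : Prop := ∀ (V : Submodule ℝ (Fin 12 → ℝ)) (X : Finset (Fin 12 → ℤ)), Cfg V X →
  6 ≤ (Zs V).card → (Zs V).card ≤ 8 → X.card ≤ 306

def S_J9 : Prop := ∀ (Z : Finset (Fin 12)) (X : Finset (Fin 12 → ℤ)), Z.card = 9 →
  (∀ x ∈ X, supp x ⊆ Z) → (∀ x ∈ X, x ⬝ᵥ x = 4) → (∀ x ∈ X, ∀ y ∈ X, x ≠ y → x ⬝ᵥ y ≤ 2) →
  X.card ≤ 306

def S_CI : Prop := ∀ (V : Submodule ℝ (Fin 12 → ℝ)) (X : Finset (Fin 12 → ℤ)), Cfg V X →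
  X.card ≤ 306

/-- One fibre in the second case. -/
def S_FIB1 : Prop := ∀ (V : Submodule ℝ (Fin 12 → ℝ)) (P : (Fin 12 → ℝ) →ₗ[ℝ] (Fin 12 → ℝ))
  (X : Finset (Fin 12 → ℝ)) (β : Fin 12 → ℝ), Proj P → Cfg2 V P X → β ⬝ᵥ β = 2 →
  (X.filter fun x => P x = β).card ≤ 16 ∧
  (finrank ℝ (V ⊓ LinearMap.ker P : Submodule ℝ (Fin 12 → ℝ)) ≤ 5 →
    (X.filter fun x => P x = β).card ≤ 10 ∧ (β ∉ V → (X.filter fun x => P x = β).card ≤ 6))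

def S_FIB : Prop := ∀ (V : Submodule ℝ (Fin 12 → ℝ)) (P : (Fin 12 → ℝ) →ₗ[ℝ] (Fin 12 → ℝ))
  (X : Finset (Fin 12 → ℝ)), Proj P → Cfg2 V P X →
  finrank ℝ (V ⊓ LinearMap.ker P : Submodule ℝ (Fin 12 → ℝ)) ≤ 5 →
  (X.filter fun x => P x ⬝ᵥ P x = 2).card ≤ 233

def S_CII : Prop := ∀ (V : Submodule ℝ (Fin 12 → ℝ)) (P : (Fin 12 → ℝ) →ₗ[ℝ] (Fin 12 → ℝ))
  (X : Finset (Fin 12 → ℝ)), Proj P → Cfg2 V P X → X.card ≤ 306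

def S_PROJ : Prop := ∀ e : Fin 4 → Fin 12 → ℝ, ON e →
  ∃ P : (Fin 12 → ℝ) →ₗ[ℝ] (Fin 12 → ℝ), Proj P ∧ (∀ x, P x = ∑ i, (x ⬝ᵥ e i) • e i) ∧
    (∀ x y, P x ⬝ᵥ P y = ∑ i, (x ⬝ᵥ e i) * (y ⬝ᵥ e i)) ∧ ∀ x i, (x - P x) ⬝ᵥ e i = 0

def S_RED1 : Prop := ∀ (X : Finset (Fin 9 → ℝ)) (U : Lat 12)
  (j : (Fin 9 → ℝ) →ₗ[ℝ] (Fin 12 → ℝ)), Cfg0 X → (∀ x y, j x ⬝ᵥ j y = x ⬝ᵥ y) →
  (∀ x ∈ X, j x ∈ U) → CaseI U → X.card ≤ 306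

def S_RED2 : Prop := ∀ (X : Finset (Fin 9 → ℝ)) (U : Lat 12)
  (j : (Fin 9 → ℝ) →ₗ[ℝ] (Fin 12 → ℝ)), Cfg0 X → (∀ x y, j x ⬝ᵥ j y = x ⬝ᵥ y) →
  (∀ x ∈ X, j x ∈ U) → SelfDual U → CaseII U → X.card ≤ 306

def S_UP : Prop := ∀ X : Finset (Fin 9 → ℝ), Cfg0 X → X.card ≤ 306

def S_EX : Prop := ∃ X : Finset (Fin 9 → ℝ), Cfg0 X ∧ X.card = 306

end

end Pool.Agent.P.MP_22b27c_co
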