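import Pool.Agent.P.MP_22b27c_co.Iface
import Pool.Agent.P.MP_29cb78_nt.Theta

/-!
Poisson summation with a shift for the Gaussian on a lattice given by a matrix.
-/

namespace Pool.Agent.P.MP_22b27c_co.Poi

open Filter Topology MeasureTheory Set Pool.Agent.P.MP_29cb78_nt.Theta
open scoped Classical Real Matrix

variable {n : ℕ}

lemma det_ne (B : Matrix (Fin n) (Fin n) ℝ) (hB : B.det ≠ 0) : ((B⁻¹)ᵀ).det ≠ 0 := by
  rw [Matrix.det_transpose]
  exact (Matrix.isUnit_nonsing_inv_det B (isUnit_iff_ne_zero.mpr hB)).ne_zero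

lemma G_eq (B : Matrix (Fin n) (Fin n) ℝ) (x : Fin n → ℝ) :
    G B x = Real.exp (-π * (B.mulVec x ⬝ᵥ B.mulVec x)) := by
  simp [G, dotProduct, sq]

lemma summable (B : Matrix (Fin n) (Fin n) ℝ) (hB : B.det ≠ 0) (x : Fin n → ℝ) :
    Summable fun m : Fin n → ℤ =>
      Real.exp (-π * (B.mulVec (x + rc m) ⬝ᵥ B.mulVec (x + rc m))) := by
  have h := summable_G B hB x
  simp only [G_eq] at h
  exact h

lemma poisson (B : Matrix (Fin n) (Fin n) ℝ) (hB : B.det ≠ 0) (x : Fin n → ℝ) :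
    HasSum (fun k : Fin n → ℤ => |B.det|⁻¹ *
        Real.exp (-π * ((B⁻¹)ᵀ.mulVec (rc k) ⬝ᵥ (B⁻¹)ᵀ.mulVec (rc k))) *
        Real.cos (2 * π * (rc k ⬝ᵥ x)))
      (∑' m : Fin n → ℤ, Real.exp (-π * (B.mulVec (x + rc m) ⬝ᵥ B.mulVec (x + rc m)))) := by
  simp only [← G_eq]
  change HasSum (fun k : Fin n → ℤ => |B.det|⁻¹ * G (B⁻¹)ᵀ (cst k) *
    Real.cos (2 * π * (cst k ⬝ᵥ x))) (∑' m : Fin n → ℤ, G B (x + cst m))
  let f : C(UnitAddTorus (Fin n), ℂ) := ⟨FT B, FT_cont B hB⟩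
  have hco : ∀ k, UnitAddTorus.mFourierCoeff f k = ((|B.det|⁻¹ * G (B⁻¹)ᵀ (cst k) : ℝ) : ℂ) :=
    fun k => coeff B hB k
  have hsum : Summable (UnitAddTorus.mFourierCoeff f) := by
    rw [funext hco]
    have h := summable_G _ (det_ne B hB) 0
    simp only [zero_add] at h
    exact Complex.summable_ofReal.mpr (h.mul_left _)
  have h := UnitAddTorus.hasSum_mFourier_series_apply_of_summable hsum
    (fun i => (x i : UnitAddCircle))
  have hf0 : f (fun i => (x i : UnitAddCircle))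
      = ((∑' m : Fin n → ℤ, G B (x + cst m) : ℝ) : ℂ) := by
    change FT B _ = _
    rw [FT_mk, F, Complex.ofReal_tsum]
  rw [hf0] at h
  have h2 := Complex.hasSum_re h
  rw [Complex.ofReal_re] at h2
  convert h2 using 2 with k
  rw [hco, smul_eq_mul, Complex.re_ofReal_mul]
  congr 1
  simp only [UnitAddTorus.mFourier, ContinuousMap.coe_mk, fourier_coe_apply, ← Complex.exp_sum]
  rw [← Complex.exp_ofReal_mul_I_re]
  congr 2
  simp only [dotProduct, cst]
  push_cast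
  simp only [Finset.mul_sum, Finset.sum_mul]
  refine Finset.sum_congr rfl fun i _ => ?_
  ring

end Pool.Agent.P.MP_22b27c_co.Poi
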