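import Pool.Agent.P.MP_22b27c_co.Iface

/-! Analytic continuation of the theta transformation formula. -/

namespace Pool.Agent.P.MP_22b27c_co

open Module Finset
open scoped Classical Real Matrix

namespace TCONTA

open Complex Filter Topology

theorem diff {κ : Type} (c ν : κ → ℝ) (h0 : ∀ k, 0 ≤ ν k)
    (hs : ∀ t : ℝ, 0 < t → Summable fun k => |c k| * Real.exp (-π * t * ν k)) :
    DifferentiableOn ℂ (fun τ : ℂ => ∑' k, (c k : ℂ) * cexp (π * I * τ * ν k))
      {τ : ℂ | 0 < τ.im} := by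
  intro z hz
  have hz' : (0 : ℝ) < z.im := hz
  have ho : IsOpen {τ : ℂ | z.im / 2 < τ.im} := isOpen_lt continuous_const continuous_im
  have h := differentiableOn_tsum_of_summable_norm (hs (z.im / 2) (by linarith))
    (F := fun k (τ : ℂ) => (c k : ℂ) * cexp (π * I * τ * ν k)) (U := {τ : ℂ | z.im / 2 < τ.im})
    (fun k => by fun_prop) ho (fun k w hw => by
      have hw' : z.im / 2 < w.im := hw
      rw [norm_mul, Complex.norm_real, Real.norm_eq_abs, Complex.norm_exp]
      refine mul_le_mul_of_nonneg_left (Real.exp_le_exp.2 ?_) (abs_nonneg _)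
      have e : ((π : ℂ) * I * w * ν k).re = -π * w.im * ν k := by simp
      rw [e]
      have := mul_nonneg (mul_nonneg Real.pi_pos.le (h0 k)) (sub_nonneg.2 hw'.le)
      nlinarith)
  exact (h.differentiableAt (ho.mem_nhds (by show z.im / 2 < z.im; linarith))).differentiableWithinAt

end TCONTA

open Complex Filter Topology in
theorem k_cont : S_CONT := by
  intro κ κ' c ν c' ν' m h0 h0' hs hs' he τ hτ
  have ho : IsOpen {τ : ℂ | 0 < τ.im} := isOpen_lt continuous_const continuous_im
  have hne : ∀ z ∈ {τ : ℂ | 0 < τ.im}, z ≠ 0 := fun z hz e => by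
    have : (0 : ℝ) < z.im := hz
    simp [e] at this
  have d1 : DifferentiableOn ℂ (fun τ : ℂ => ∑' k, (c k : ℂ) * cexp (π * I * (-1 / τ) * ν k))
      {τ : ℂ | 0 < τ.im} := by
    refine (TCONTA.diff c ν h0 hs).comp (f := fun τ : ℂ => -1 / τ)
      ((differentiableOn_const _).div differentiableOn_id hne) fun z hz => ?_
    have h1 : (0 : ℝ) < z.im := hz
    show (0 : ℝ) < (-1 / z).im
    rw [neg_div, one_div, neg_im, inv_im, neg_div, neg_neg]
    exact div_pos h1 (normSq_pos.2 (hne z hz))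
  have d2 : DifferentiableOn ℂ
      (fun τ : ℂ => (-I * τ) ^ m * ∑' k, (c' k : ℂ) * cexp (π * I * τ * ν' k))
      {τ : ℂ | 0 < τ.im} :=
    DifferentiableOn.mul (by fun_prop) (TCONTA.diff c' ν' h0' hs')
  have key : ∀ t : ℝ, 0 < t → ∑' k, (c k : ℂ) * cexp (π * I * (-1 / (I * t)) * ν k)
      = (-I * (I * t)) ^ m * ∑' k, (c' k : ℂ) * cexp (π * I * (I * t) * ν' k) := by
    intro t ht
    have h := congrArg (fun x : ℝ => (x : ℂ)) (he t ht)
    have ht' : (t : ℂ) ≠ 0 := ofReal_ne_zero.2 ht.ne'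
    have e1 : (π : ℂ) * I * (-1 / (I * t)) = -π * (1 / t) := by
      field_simp
    have e2 : -I * (I * t) = t := by rw [← mul_assoc, neg_mul, I_mul_I, neg_neg, one_mul]
    have e3 : (π : ℂ) * I * (I * t) = -π * t := by
      rw [mul_assoc, ← mul_assoc I, I_mul_I]; ring
    rw [e1, e2, e3]
    push_cast at h
    exact h
  refine (d1.analyticOnNhd ho).eqOn_of_preconnected_of_mem_closure (d2.analyticOnNhd ho)
    (convex_halfSpace_im_gt 0).isPreconnected (z₀ := I) (by simp) ?_ hτ
  have lim : Tendsto (fun n : ℕ => I * ((1 + 1 / ((n : ℝ) + 1) : ℝ) : ℂ)) atTop (𝓝 I) := by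
    have h1 : Tendsto (fun n : ℕ => (1 + 1 / ((n : ℝ) + 1) : ℝ)) atTop (𝓝 (1 + 0)) :=
      tendsto_one_div_add_atTop_nhds_zero_nat.const_add 1
    have h2 := ((continuous_ofReal.tendsto _).comp h1).const_mul I
    simpa using h2
  refine mem_closure_of_tendsto lim (Eventually.of_forall fun n => ⟨key _ (by positivity), ?_⟩)
  intro e
  have h1 := congrArg Complex.im (Set.mem_singleton_iff.1 e)
  rw [I_mul_im, ofReal_re, I_im] at h1
  have : (0 : ℝ) < 1 / ((n : ℝ) + 1) := by positivity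
  linarith

end Pool.Agent.P.MP_22b27c_co
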