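import Pool.Agent.P.MP_22b27c_co.Iface

/-!
One fibre of the projection.
-/

namespace Pool.Agent.P.MP_22b27c_co

open Module Finset
open scoped Classical Real Matrix

theorem k_fib1 (hrank : S_RANK) (hobt : S_OBT) : S_FIB1 := by
  intro V P X β hP hX hβ
  have mem : ∀ a ∈ X.filter fun x => P x = β, a ∈ X ∧ P a = β := fun a ha => mem_filter.1 ha
  generalize (X.filter fun x => P x = β) = s at mem ⊢
  have nrm : ∀ a ∈ s, (a - P a) ⬝ᵥ (a - P a) = 2 := fun a ha => by
    have h1 := hP.split a a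
    have h2 := hX.nrm a (mem a ha).1
    rw [(mem a ha).2] at h1 ⊢
    linarith
  have le : ∀ a ∈ s, ∀ a' ∈ s, a ≠ a' → (a - P a) ⬝ᵥ (a' - P a') ≤ 0 := fun a ha b hb hab => by
    have h1 := hP.split a b
    have h2 := hX.le a (mem a ha).1 b (mem b hb).1 hab
    rw [(mem a ha).2, (mem b hb).2] at h1 ⊢
    linarith
  refine ⟨hrank _ _ 8 2 s (fun a => a - P a) two_pos ⟨⟨_, hP.kr, fun a _ => hP.ker a⟩, nrm, le⟩,
    fun h5 => ?_⟩
  have out : β ∉ V → s.card ≤ 6 := fun hV => by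
    rcases s.eq_empty_or_nonempty with rfl | ⟨x, hx⟩
    · simp
    obtain ⟨φ, h1, h2⟩ := exists_functional V hV
    refine hobt _ _ 6 s (fun a => a - P a) φ ⟨_, (finrank_sup_span _ (x - P x)).trans
      (Nat.succ_le_succ h5), fun a ha => ?_⟩ le fun a ha => ?_
    · have : a - P a = (a - x) + (x - P x) := by rw [(mem a ha).2, (mem x hx).2]; abel
      beta_reduce
      rw [this]
      refine add_mem (Submodule.mem_sup_left ⟨V.sub_mem (hX.mem a (mem a ha).1)
        (hX.mem x (mem x hx).1), ?_⟩) (Submodule.mem_sup_right (Submodule.mem_span_singleton_self _))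
      simp [(mem a ha).2, (mem x hx).2]
    · rw [map_sub, (mem a ha).2, h2 a (hX.mem a (mem a ha).1)]
      linarith
  refine ⟨?_, out⟩
  by_cases hV : β ∈ V
  · exact hrank _ _ 5 2 s (fun a => a - P a) two_pos ⟨⟨_, h5, fun a ha =>
      ⟨V.sub_mem (hX.mem a (mem a ha).1) ((mem a ha).2 ▸ hV), hP.ker a⟩⟩, nrm, le⟩
  · exact (out hV).trans (by norm_num)

end Pool.Agent.P.MP_22b27c_co
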