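import Pool.Agent.P.MP_22b27c_co.Iface

/-! Divisibility of the number of shadow vectors of norm one. -/

namespace Pool.Agent.P.MP_22b27c_co

open Module Finset
open scoped Classical Real Matrix

namespace THALFA

variable {U : Lat 12} {w s x : Fin 12 → ℝ}

theorem half (hU : SelfDual U) (hw : IsChar U w) (hx : x ∈ U) (h1 : x ⬝ᵥ x = 1)
    (hs : s ∈ sh U ((1 / 2 : ℝ) • w) 1) : s ⬝ᵥ x = 1 / 2 ∨ s ⬝ᵥ x = -(1 / 2) := by
  obtain ⟨k, hk⟩ := hU.integral _ hs.1 _ hx
  obtain ⟨k', hk'⟩ := hw.2 x hx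
  rw [sub_dotProduct, smul_dotProduct, smul_eq_mul, dotProduct_comm w] at hk
  have e : s ⬝ᵥ x = ((k - k' : ℤ) : ℝ) + 1 / 2 := by push_cast; linarith
  have b := dot_sq_le s x
  rw [hs.2, h1, e] at b
  generalize k - k' = n at e b
  have b' : (2 * n + 1) ^ 2 ≤ 4 := by
    have : ((2 * n + 1 : ℤ) : ℝ) ^ 2 ≤ 4 := by push_cast at b ⊢; nlinarith
    exact_mod_cast this
  have : n = 0 ∨ n = -1 := by
    have : -2 < n := by nlinarith
    have : n < 1 := by nlinarith
    omega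
  rcases this with rfl | rfl
  · left; simpa using e
  · right; rw [e]; norm_num

theorem refl_mem (hU : SelfDual U) (hw : IsChar U w) (hx : x ∈ U) (h1 : x ⬝ᵥ x = 1)
    (hs : s ∈ sh U ((1 / 2 : ℝ) • w) 1) :
    s - (2 * (s ⬝ᵥ x)) • x ∈ sh U ((1 / 2 : ℝ) • w) 1 := by
  have z : IsZ (2 * (s ⬝ᵥ x)) := by
    rcases half hU hw hx h1 hs with h | h
    · exact ⟨1, by rw [h]; norm_num⟩
    · exact ⟨-1, by rw [h]; norm_num⟩
  refine ⟨?_, ?_⟩
  · rw [sub_right_comm]
    exact sub_mem hs.1 (isZ_smul_mem hx z)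
  · rw [dot_sub_self, dotProduct_smul, smul_dotProduct, dotProduct_smul, h1, hs.2]
    simp only [smul_eq_mul]
    ring

end THALFA

open THALFA in
theorem k_half : S_HALF := by
  intro U w j e hU hw he hm hj hf
  have e1 : ∀ i, e i ⬝ᵥ e i = 1 := fun i => by simpa using he i i
  set S := hf.toFinset with hS
  have mem : ∀ s, s ∈ S ↔ s ∈ sh U ((1 / 2 : ℝ) • w) 1 := fun s => hf.mem_toFinset
  let A : ℕ → Finset (Fin 12 → ℝ) := fun m => S.filter fun s => ∀ i, i.val < m → s ⬝ᵥ e i = 1 / 2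
  have rd : ∀ (s : Fin 12 → ℝ) i i', (s - (2 * (s ⬝ᵥ e i)) • e i) ⬝ᵥ e i' =
      if i = i' then -(s ⬝ᵥ e i') else s ⬝ᵥ e i' := by
    intro s i i'
    rw [sub_dotProduct, smul_dotProduct, he, smul_eq_mul]
    split_ifs with h
    · rw [h]; ring
    · ring
  have rr : ∀ (s : Fin 12 → ℝ) i, s - (2 * (s ⬝ᵥ e i)) • e i -
      (2 * ((s - (2 * (s ⬝ᵥ e i)) • e i) ⬝ᵥ e i)) • e i = s := by
    intro s i
    rw [rd, if_pos rfl, mul_neg, neg_smul, sub_neg_eq_add, sub_add_cancel]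
  have rA : ∀ (i : Fin j), ∀ s ∈ A i.val, s - (2 * (s ⬝ᵥ e i)) • e i ∈ A i.val := by
    intro i s hs
    obtain ⟨a1, a2⟩ := mem_filter.1 hs
    refine mem_filter.2 ⟨(mem _).2 (refl_mem hU hw (hm i) (e1 i) ((mem _).1 a1)), fun i' h => ?_⟩
    rw [rd, if_neg (by rintro rfl; omega)]
    exact a2 i' h
  have step : ∀ i : Fin j, (A i.val).card = 2 * (A (i.val + 1)).card := by
    intro i
    have q : A (i.val + 1) = (A i.val).filter fun s => s ⬝ᵥ e i = 1 / 2 := by
      ext s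
      simp only [A, mem_filter, and_assoc]
      refine and_congr_right fun _ => ⟨fun h => ⟨fun i' k => h i' (by omega), h i (by omega)⟩,
        fun h i' k => ?_⟩
      rcases Nat.lt_succ_iff_lt_or_eq.1 k with k | k
      · exact h.1 i' k
      · rw [Fin.ext k]; exact h.2
    have c := card_filter_add_card_filter_not (s := A i.val) fun s => s ⬝ᵥ e i = 1 / 2
    have b : ((A i.val).filter fun s => s ⬝ᵥ e i = 1 / 2).card =
        ((A i.val).filter fun s => ¬ s ⬝ᵥ e i = 1 / 2).card := by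
      refine card_nbij' (fun s => s - (2 * (s ⬝ᵥ e i)) • e i)
        (fun s => s - (2 * (s ⬝ᵥ e i)) • e i) (fun s hs => ?_) (fun s hs => ?_)
        (fun s _ => rr s i) (fun s _ => rr s i)
      · obtain ⟨a1, a2⟩ := mem_filter.1 (mem_coe.1 hs)
        refine mem_coe.2 (mem_filter.2 ⟨rA i s a1, ?_⟩)
        rw [rd, if_pos rfl, a2]
        norm_num
      · obtain ⟨a1, a2⟩ := mem_filter.1 (mem_coe.1 hs)
        refine mem_coe.2 (mem_filter.2 ⟨rA i s a1, ?_⟩)
        rw [rd, if_pos rfl,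
          (half hU hw (hm i) (e1 i) ((mem _).1 (mem_filter.1 a1).1)).resolve_left a2, neg_neg]
    rw [q]
    omega
  have all : ∀ m, m ≤ j → S.card = 2 ^ m * (A m).card := by
    intro m
    induction m with
    | zero => intro _; simp [A]
    | succ m ih =>
      intro h
      rw [ih (by omega), step ⟨m, h⟩, pow_succ, mul_assoc]
  have sd : ∀ i, (∑ i', e i') ⬝ᵥ e i = 1 := by
    intro i
    rw [sum_dotProduct]
    simp [he _ i]
  have ss : (∑ i, e i) ⬝ᵥ (∑ i, e i) = j := by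
    rw [dotProduct_sum]
    simp [sd]
  have ev : (2 : ℕ) ∣ (A j).card := by
    rw [← ZMod.natCast_eq_zero_iff, card_eq_sum_ones, Nat.cast_sum]
    refine sum_involution (fun s _ => (∑ i, e i) - s) (fun _ _ => by decide) (fun s hs _ h => ?_)
      (fun s hs => ?_) fun s _ => sub_sub_cancel _ _
    · have n := ((mem _).1 (mem_filter.1 hs).1).2
      rw [sub_eq_iff_eq_add.1 h, dot_add_self, n] at ss
      have : (j : ℝ) < 4 := by exact_mod_cast hj
      push_cast at ss
      linarith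
    · obtain ⟨a1, a2⟩ := mem_filter.1 hs
      obtain ⟨b1, b2⟩ := (mem _).1 a1
      have d : (∑ i, e i) ⬝ᵥ s = j / 2 := by
        rw [dotProduct_comm, dotProduct_sum, sum_congr rfl fun i _ => a2 i i.2]
        simp
        ring
      refine mem_filter.2 ⟨(mem _).2 ⟨?_, ?_⟩, fun i h => ?_⟩
      · have q : (∑ i, e i) - s - (1 / 2 : ℝ) • w =
            (∑ i, e i) - (s - (1 / 2 : ℝ) • w) - w := by module
        rw [q]
        exact sub_mem (sub_mem (sum_mem fun i _ => hm i) b1) hw.1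
      · rw [dot_sub_self, ss, d, b2]
        ring
      · rw [sub_dotProduct, sd, a2 i h]
        norm_num
  rw [Set.ncard_eq_toFinset_card _ hf, ← hS, all j le_rfl, pow_succ]
  exact Nat.mul_dvd_mul_left _ ev

end Pool.Agent.P.MP_22b27c_co
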