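import Pool.Agent.P.MP_22b27c_co.Iface

/-!
The vectors that agree with a given vector on a pair of coordinates, when the restriction
to that pair does not lie in the space.
-/

namespace Pool.Agent.P.MP_22b27c_co

open Module Finset
open scoped Classical Real Matrix

noncomputable section

namespace TPOUTA

lemma res_dot_self {x : Fin 12 → ℤ} {p : Finset (Fin 12)} (hT : Tri x) (hp : p ⊆ supp x)
    (hc : p.card = 2) : res p x ⬝ᵥ res p x = 2 := by
  have h1 : Tri (res p x) := fun i => by
    by_cases h : i ∈ p
    · simpa [res, h] using hT i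
    · simp [res, h]
  have h2 : supp (res p x) = p := by
    ext i
    rw [mem_supp]
    by_cases h : i ∈ p
    · simpa [res, h] using mem_supp.1 (hp h)
    · simp [res, h]
  rw [h1.dot_self, h2, hc]; rfl

lemma gen (hobt : S_OBT) {V : Submodule ℝ (Fin 12 → ℝ)} {X : Finset (Fin 12 → ℤ)}
    {x : Fin 12 → ℤ} {p : Finset (Fin 12)} (hC : Cfg V X) (hT : Tri x) (hp : p ⊆ supp x)
    (hc : p.card = 2) (hρ : rc (res p x) ∉ V) {ε : Type} [Fintype ε] (e : ε → Fin 12 → ℤ)
    (he1 : ∀ t, rc (e t + res p x) ∈ V) (he2 : ∀ t t', t ≠ t' → e t ⬝ᵥ e t' ≤ 0)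
    (he3 : ∀ t, ∀ i, i ∉ p → e t i = 0) :
    (X.filter fun y => ∀ i ∈ p, y i = x i).card + Fintype.card ε ≤ 10 := by
  set Y := X.filter fun y => ∀ i ∈ p, y i = x i with hY
  obtain ⟨φ, hφ, hφV⟩ := exists_functional V hρ
  have hres : ∀ y ∈ Y, res p y = res p x := fun y hy => by
    ext i
    by_cases h : i ∈ p
    · simp [res, h, (Finset.mem_filter.1 hy).2 i h]
    · simp [res, h]
  have hβ : ∀ y ∈ Y, res pᶜ y + res p x = y := fun y hy => by
    rw [← hres y hy, add_comm, res_add_compl]
  let u : (Fin 12 → ℤ) ⊕ ε → Fin 12 → ℤ := Sum.elim (res pᶜ) e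
  have hu : ∀ a ∈ Y.disjSum (univ : Finset ε), rc (u a + res p x) ∈ V := by
    rintro (y | t) ha
    · have hy : y ∈ Y := by simpa using ha
      change rc (res pᶜ y + res p x) ∈ V
      rw [hβ y hy]
      exact hC.mem y (Finset.mem_filter.1 hy).1
    · exact he1 t
  have hu' : ∀ a, rc (u a) = rc (u a + res p x) - rc (res p x) := fun a => by
    rw [rc_add, add_sub_cancel_right]
  have horth : ∀ y t, res pᶜ y ⬝ᵥ e t = 0 := fun y t =>
    Finset.sum_eq_zero fun i _ => by
      by_cases h : i ∈ p
      · simp [res, h]
      · simp [he3 t i h]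
  have key := hobt _ _ 10 (Y.disjSum (univ : Finset ε)) (fun a => rc (u a)) φ
    ⟨V ⊔ Submodule.span ℝ {rc (res p x)},
      (finrank_sup_span V _).trans (Nat.succ_le_succ hC.dim), fun a ha => by
        change rc (u a) ∈ _
        rw [hu' a]
        exact Submodule.sub_mem _ (Submodule.mem_sup_left (hu a ha))
          (Submodule.mem_sup_right (Submodule.mem_span_singleton_self _))⟩
    (by
      intro a ha a' ha' hne
      rw [rc_dot]
      have : u a ⬝ᵥ u a' ≤ 0 := by
        rcases a with y | t <;> rcases a' with y' | t'
        · have hy : y ∈ Y := by simpa using ha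
          have hy' : y' ∈ Y := by simpa using ha'
          have h1 := dot_split p y y'
          rw [hres y hy, hres y' hy', res_dot_self hT hp hc] at h1
          have h2 := hC.le y (Finset.mem_filter.1 hy).1 y' (Finset.mem_filter.1 hy').1
            fun h => hne (by rw [h])
          change res pᶜ y ⬝ᵥ res pᶜ y' ≤ 0
          omega
        · exact (horth y t').le
        · change e t ⬝ᵥ res pᶜ y' ≤ 0
          rw [dotProduct_comm]; exact (horth y' t).le
        · exact he2 t t' fun h => hne (by rw [h])
      exact_mod_cast this)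
    (fun a ha => by
      rw [hu' a, map_sub, hφV _ (hu a ha)]
      linarith)
  rwa [Finset.card_disjSum, Finset.card_univ] at key

end TPOUTA

open TPOUTA in
theorem k_pout (hobt : S_OBT) : S_POUT := by
  intro V X x p hC hT hp hc hρ
  constructor
  · have := gen hobt hC hT hp hc hρ (ε := Unit) (fun _ => -res p x)
      (fun _ => by
        have : rc (-res p x + res p x) = 0 := by ext i; simp [rc]
        rw [this]; exact V.zero_mem)
      (fun _ _ h => absurd rfl h) (fun _ i hi => by simp [res, hi])
    rw [Fintype.card_unit] at this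
    omega
  · rintro ⟨i, hi⟩
    obtain ⟨hip, hiZ⟩ := Finset.mem_inter.1 hi
    obtain ⟨j, hij, hpe⟩ : ∃ j, i ≠ j ∧ p = {i, j} := by
      obtain ⟨a, b, hab, rfl⟩ := Finset.card_eq_two.1 hc
      rcases Finset.mem_insert.1 hip with rfl | h
      · exact ⟨b, hab, rfl⟩
      · rw [Finset.mem_singleton] at h
        subst h
        exact ⟨a, hab.symm, Finset.pair_comm _ _⟩
    have hj : x j * x j = 1 := by
      have h0 : x j ≠ 0 := mem_supp.1 (hp (by simp [hpe]))
      rcases hT j with h | h | h
      · simp [h]
      · exact absurd h h0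
      · simp [h]
    let sg : Bool → ℤ := fun b => if b then 1 else -1
    have := gen hobt hC hT hp hc hρ (ε := Bool)
      (fun b => Pi.single i (sg b) - Pi.single j (x j))
      (fun b => by
        have : Pi.single i (sg b) - Pi.single j (x j) + res p x = Pi.single i (sg b + x i) := by
          ext k
          by_cases h1 : k = i
          · subst h1; simp [res, hpe, hij]
          · by_cases h2 : k = j
            · subst h2; simp [res, hpe, h1]
            · simp [res, hpe, h1, h2]
        rw [this, rc_single]
        exact V.smul_mem _ (mem_Zs.1 hiZ))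
      (fun b b' h => by
        have h1 : sg b * sg b' = -1 := by
          cases b <;> cases b' <;> simp_all [sg]
        simp only [sub_dotProduct, dotProduct_sub, single_dotProduct, Pi.single_eq_same,
          Pi.single_eq_of_ne hij, Pi.single_eq_of_ne hij.symm]
        omega)
      (fun b k hk => by
        have h1 : k ≠ i := fun h => hk (by simp [hpe, h])
        have h2 : k ≠ j := fun h => hk (by simp [hpe, h])
        simp [h1, h2])
    rw [Fintype.card_bool] at this
    omega

end

end Pool.Agent.P.MP_22b27c_co
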